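import Pool.Agent.Q16.BF.Fib
set_option autoImplicit false

/-!
The large root of `∑_j P_j z ^ j + A z ^ (b + 1) = l (∑_j Q_j z ^ j + B z ^ b)` for large `l`.
-/

namespace Pool.Agent.Q16.LS

open Pool.Agent.Q16.BF

open Pool.Agent.TH826.MK

open Pool.Agent.TH333.CY (good_inv lw_inv)

open Topology Filter

/-- The polynomial `X ^ (b + 1) - X ^ b + ∑_i e_i X ^ i`. -/
noncomputable def rp (b : ℕ) (e : Fin (b + 1) → ℂ) : Polynomial ℂ :=
  Polynomial.X ^ (b + 1) - Polynomial.X ^ b + ∑ i, Polynomial.C (e i) * Polynomial.X ^ (i : ℕ)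

theorem eval_rp (b : ℕ) (e : Fin (b + 1) → ℂ) (z : ℂ) :
    (rp b e).eval z = z ^ (b + 1) - z ^ b + ∑ i, e i * z ^ (i : ℕ) := by
  unfold rp
  simp [Polynomial.eval_finset_sum]

theorem eval_deriv_rp (b : ℕ) (e : Fin (b + 1) → ℂ) (z : ℂ) :
    (Polynomial.derivative (rp b e)).eval z = (b + 1) * z ^ b - b * z ^ (b - 1) +
      ∑ i, e i * ((i : ℕ) * z ^ ((i : ℕ) - 1)) := by
  unfold rp
  simp [Polynomial.eval_finset_sum, Polynomial.derivative_X_pow]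

theorem exists_root' (b : ℕ) : ∃ (r M : ℝ) (η : (Fin (b + 1) → ℂ) → ℂ), 0 < r ∧ 0 < M ∧
    ∀ e : Fin (b + 1) → ℂ, (∀ i, ‖e i‖ < r) →
      ((rp b e).eval (η e) = 0 ∧ (Polynomial.derivative (rp b e)).eval (η e) ≠ 0) ∧
      ‖η e - 1‖ ≤ 1 / 2 ∧
      ContDiffAt ℝ 2 η e ∧ ∀ w, ‖fderiv ℝ η e w‖ ≤ M * ‖w‖ := by
  set F : (Fin (b + 1) → ℂ) × ℂ → ℂ := fun x =>
    x.2 ^ (b + 1) - x.2 ^ b + ∑ i, x.1 i * x.2 ^ (i : ℕ) with hF
  have hFc : ContDiff ℝ 2 F := by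
    rw [hF]
    fun_prop
  have hF1 : F (0, 1) = 0 := by simp [hF]
  set u : (Fin (b + 1) → ℂ) × ℂ := (0, 1) with hu
  have cdf : ContDiffAt ℝ 2 F u := hFc.contDiffAt
  have hinr : (fderiv ℝ F u).comp (ContinuousLinearMap.inr ℝ (Fin (b + 1) → ℂ) ℂ) =
      ContinuousLinearMap.id ℝ ℂ := by
    have h1 : HasFDerivAt F (fderiv ℝ F u) u :=
      (hFc.differentiable (by norm_num) u).hasFDerivAt
    have h2 : HasFDerivAt (fun h : ℂ => ((0 : Fin (b + 1) → ℂ), h))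
        (ContinuousLinearMap.inr ℝ (Fin (b + 1) → ℂ) ℂ) 1 := hasFDerivAt_prodMk_right _ _
    have h3 := HasFDerivAt.comp (1 : ℂ) h1 h2
    have h4 : F ∘ (fun h : ℂ => ((0 : Fin (b + 1) → ℂ), h)) =
        fun h : ℂ => h ^ (b + 1) - h ^ b := by
      funext h
      simp [hF]
    rw [h4] at h3
    have h5 : HasDerivAt (fun h : ℂ => h ^ (b + 1) - h ^ b) 1 1 := by
      have h6 := (hasDerivAt_pow (b + 1) (1 : ℂ)).sub (hasDerivAt_pow b (1 : ℂ))
      refine h6.congr_deriv ?_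
      simp
    have h6 := h5.hasFDerivAt.restrictScalars ℝ
    rw [h3.unique h6]
    ext <;> simp
  have hinv : ((fderiv ℝ F u).comp
      (ContinuousLinearMap.inr ℝ (Fin (b + 1) → ℂ) ℂ)).IsInvertible := by
    rw [hinr]
    exact ⟨ContinuousLinearEquiv.refl ℝ ℂ, rfl⟩
  have h2 : (2 : WithTop ℕ∞) ≠ 0 := by norm_num
  set η : (Fin (b + 1) → ℂ) → ℂ := cdf.implicitFunction h2 hinv with hη
  have hη0 : η 0 = 1 := cdf.implicitFunction_apply_self h2 hinv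
  have hsol : ∀ᶠ x in 𝓝 (0 : Fin (b + 1) → ℂ), F (x, η x) = 0 := by
    have h := cdf.eventually_apply_implicitFunction h2 hinv
    rw [show F u = 0 from hF1] at h
    exact h
  have hηc : ContDiffAt ℝ 2 η 0 := cdf.contDiffAt_implicitFunction h2 hinv
  have hηc' : ∀ᶠ x in 𝓝 (0 : Fin (b + 1) → ℂ), ContDiffAt ℝ 2 η x := hηc.eventually (by norm_num)
  have hclose : ∀ᶠ x in 𝓝 (0 : Fin (b + 1) → ℂ), ‖η x - 1‖ ≤ 1 / 2 := by
    have h3 : Tendsto (fun x => ‖η x - 1‖) (𝓝 0) (𝓝 ‖η 0 - 1‖) :=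
      ((hηc.continuousAt.sub continuousAt_const).norm)
    rw [hη0, sub_self, norm_zero] at h3
    exact h3.eventually_le_const (by norm_num)
  have hdne : ∀ᶠ x in 𝓝 (0 : Fin (b + 1) → ℂ),
      (b + 1) * η x ^ b - b * η x ^ (b - 1) +
        ∑ i : Fin (b + 1), x i * (((i : ℕ) : ℂ) * η x ^ ((i : ℕ) - 1)) ≠ 0 := by
    have hG : Continuous fun y : (Fin (b + 1) → ℂ) × ℂ => ((b : ℂ) + 1) * y.2 ^ b -
        b * y.2 ^ (b - 1) + ∑ i : Fin (b + 1), y.1 i * (((i : ℕ) : ℂ) * y.2 ^ ((i : ℕ) - 1)) := by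
      fun_prop
    have h3 : ContinuousAt (fun x : Fin (b + 1) → ℂ => ((b : ℂ) + 1) * η x ^ b -
        b * η x ^ (b - 1) + ∑ i : Fin (b + 1), x i * (((i : ℕ) : ℂ) * η x ^ ((i : ℕ) - 1))) 0 :=
      ContinuousAt.comp (f := fun x => (x, η x)) hG.continuousAt
        (continuousAt_id.prodMk hηc.continuousAt)
    refine h3.eventually_ne ?_
    rw [hη0]
    simp
  have hder : ∀ᶠ x in 𝓝 (0 : Fin (b + 1) → ℂ), ‖fderiv ℝ η x‖ ≤ ‖fderiv ℝ η 0‖ + 1 := by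
    have h3 : ContinuousAt (fderiv ℝ η) 0 :=
      (hηc.fderiv_right (m := 1) (by norm_num)).continuousAt
    exact h3.norm.eventually_le_const (by linarith)
  obtain ⟨r, hr, hball⟩ := Metric.eventually_nhds_iff.1
    (hsol.and (hηc'.and (hclose.and (hder.and hdne))))
  refine ⟨r, ‖fderiv ℝ η 0‖ + 1, η, hr, by positivity, fun e he => ?_⟩
  have hd : dist e 0 < r := by
    rw [dist_zero_right]
    exact (pi_norm_lt_iff hr).2 he
  obtain ⟨h3, h4, h5, h6, h7⟩ := hball hd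
  refine ⟨⟨?_, ?_⟩, h5, h4, fun w => (fderiv ℝ η e).le_of_opNorm_le h6 w⟩
  · rw [eval_rp]
    exact h3
  · rw [eval_deriv_rp]
    exact h7

variable {N c : ℕ}

/-- The composition of the root with small functions. -/
theorem root_comp' {r M : ℝ} {η : (Fin c → ℂ) → ℂ} (hM : 0 < M)
    (hη : ∀ e : Fin c → ℂ, (∀ i, ‖e i‖ < r) → ‖η e - 1‖ ≤ 1 / 2 ∧
      ContDiffAt ℝ 2 η e ∧ ∀ w, ‖fderiv ℝ η e w‖ ≤ M * ‖w‖)
    {e : Fin c → (Fin N → ℝ) → ℂ} {δ : ℝ} (hδ0 : 0 ≤ δ) (hδ : δ < r) (he : ∀ i, Bdd1 (e i) δ) :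
    Good (fun θ => η fun i => e i θ) ∧ (∀ θ, |Real.log ‖η fun i => e i θ‖| ≤ 1) ∧
      ∀ j θ, ‖lw (fun θ => η fun i => e i θ) j θ‖ ≤ 2 * M * δ := by
  have hlt : ∀ θ i, ‖e i θ‖ < r := fun θ i => ((he i).norm_le θ).trans_lt hδ
  have h1 : ∀ θ, ‖(1 : ℂ) - (1 - η fun i => e i θ)‖ = ‖η fun i => e i θ‖ := fun θ => by
    rw [sub_sub_cancel]
  have h2 : ∀ θ, ‖1 - η fun i => e i θ‖ ≤ 1 / 2 := fun θ => by
    rw [norm_sub_rev]
    exact (hη _ (hlt θ)).1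
  have hge : ∀ θ, 1 / 2 ≤ ‖η fun i => e i θ‖ := fun θ => by
    rw [← h1]
    exact Pool.Agent.TH333.CY.norm_one_sub_ge (h2 θ)
  have hec : ContDiff ℝ 2 fun θ => fun i => e i θ := contDiff_pi.2 fun i => (he i).smooth
  have hg : Good (fun θ => η fun i => e i θ) := by
    refine ⟨?_, fun θ h0 => ?_⟩
    · rw [contDiff_iff_contDiffAt]
      intro θ
      exact ((hη _ (hlt θ)).2.1).comp θ hec.contDiffAt
    · have := hge θ
      rw [h0, norm_zero] at this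
      linarith
  refine ⟨hg, fun θ => ?_, fun j θ => ?_⟩
  · rw [← h1]
    exact Pool.Agent.TH333.CY.abs_log_one_sub (h2 θ)
  · have hd : DifferentiableAt ℝ η fun i => e i θ :=
      ((hη _ (hlt θ)).2.1).differentiableAt (by norm_num)
    have hde : DifferentiableAt ℝ (fun θ => fun i => e i θ) θ :=
      hec.differentiable (by norm_num) θ
    have h3 : fderiv ℝ (fun θ => η fun i => e i θ) θ =
        (fderiv ℝ η fun i => e i θ).comp (fderiv ℝ (fun θ => fun i => e i θ) θ) :=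
      fderiv_comp θ hd hde
    unfold lw
    rw [h3, ContinuousLinearMap.comp_apply, norm_div]
    have h4 : ‖fderiv ℝ (fun θ => fun i => e i θ) θ (Pi.single j 1)‖ ≤ δ := by
      rw [fderiv_pi fun i => (he i).diff θ]
      refine (pi_norm_le_iff_of_nonneg hδ0).2 fun i => ?_
      exact (he i).deriv_le θ j
    have h5 := (hη _ (hlt θ)).2.2 (fderiv ℝ (fun θ => fun i => e i θ) θ (Pi.single j 1))
    have h6 := hge θ
    rw [div_le_iff₀ (by linarith)]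
    have h7 : M * ‖fderiv ℝ (fun θ => fun i => e i θ) θ (Pi.single j 1)‖ ≤ M * δ :=
      mul_le_mul_of_nonneg_left h4 hM.le
    have h8 : 0 ≤ M * δ := by positivity
    nlinarith

/-- The polynomial `∑_j P_j X ^ j + A X ^ (b + 1) - l (∑_j Q_j X ^ j + B X ^ b)`. -/
noncomputable def fpoly (b : ℕ) (P Q : ℕ → ℂ) (A B l : ℂ) : Polynomial ℂ :=
  ∑ j ∈ Finset.range (b + 1), Polynomial.C (P j) * Polynomial.X ^ j +
    Polynomial.C A * Polynomial.X ^ (b + 1) -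
    Polynomial.C l * (∑ j ∈ Finset.range b, Polynomial.C (Q j) * Polynomial.X ^ j +
      Polynomial.C B * Polynomial.X ^ b)

/-- the coefficients after the substitution `X = l (B / A) w` -/
noncomputable def ecoef (b : ℕ) (P Q : ℕ → ℂ) (A G I : ℂ) (j : ℕ) : ℂ :=
  P j * A⁻¹ * I ^ (b + 1 - j) - if j < b then Q j * (A⁻¹ * G⁻¹) * I ^ (b - j) else 0

theorem fpoly_eq (b : ℕ) (P Q : ℕ → ℂ) {A B l : ℂ} (hA : A ≠ 0) (hB : B ≠ 0) (hl : l ≠ 0) :
    fpoly b P Q A B l = Polynomial.C (A * (l * (B * A⁻¹)) ^ (b + 1)) *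
      (rp b fun j => ecoef b P Q A (B * A⁻¹) (l * (B * A⁻¹))⁻¹ j).comp
        (Polynomial.C (l * (B * A⁻¹))⁻¹ * Polynomial.X) := by
  set G : ℂ := B * A⁻¹ with hG
  have hG0 : G ≠ 0 := mul_ne_zero hB (inv_ne_zero hA)
  set Ψ : ℂ := l * G with hΨ
  have hΨ0 : Ψ ≠ 0 := mul_ne_zero hl hG0
  have hAΨ : A * Ψ = l * B := by
    rw [hΨ, hG]
    field_simp
  have hΨG : Ψ * G⁻¹ = l := by
    rw [hΨ]
    field_simp
  clear_value Ψ G
  refine Polynomial.funext fun z => ?_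
  have e1 : (fpoly b P Q A B l).eval z = ∑ j ∈ Finset.range (b + 1), P j * z ^ j +
      A * z ^ (b + 1) - l * (∑ j ∈ Finset.range b, Q j * z ^ j + B * z ^ b) := by
    unfold fpoly
    simp [Polynomial.eval_finset_sum]
  have e2 : ∀ j ∈ Finset.range (b + 1),
      A * Ψ ^ (b + 1) * (ecoef b P Q A G Ψ⁻¹ j * (Ψ⁻¹ * z) ^ j) =
        P j * z ^ j - if j < b then l * (Q j * z ^ j) else 0 := by
    intro j hj
    have hj' : j < b + 1 := Finset.mem_range.1 hj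
    unfold ecoef
    have h2 : Ψ ^ (b + 1) = Ψ ^ j * Ψ ^ (b + 1 - j) := by
      rw [← pow_add]
      congr 1
      omega
    have h3 : Ψ ^ (b + 1 - j) ≠ 0 := pow_ne_zero _ hΨ0
    have h4 : Ψ ^ j ≠ 0 := pow_ne_zero _ hΨ0
    split_ifs with hjb
    · have h5 : Ψ ^ (b + 1 - j) = Ψ ^ (b - j) * Ψ := by
        rw [← pow_succ]
        congr 1
        omega
      have h6 : Ψ ^ (b - j) ≠ 0 := pow_ne_zero _ hΨ0
      rw [h2, h5, inv_pow, inv_pow, h5, mul_pow, inv_pow]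
      rw [← hΨG]
      field_simp
    · rw [h2, inv_pow, mul_pow, inv_pow, sub_zero, sub_zero]
      field_simp
  rw [e1, Polynomial.eval_mul, Polynomial.eval_C, Polynomial.eval_comp, Polynomial.eval_mul,
    Polynomial.eval_C, Polynomial.eval_X, eval_rp]
  rw [Fin.sum_univ_eq_sum_range (fun j => ecoef b P Q A G Ψ⁻¹ j * (Ψ⁻¹ * z) ^ j) (b + 1),
    mul_add (A * Ψ ^ (b + 1)), Finset.mul_sum, Finset.sum_congr rfl e2, Finset.sum_sub_distrib]
  have e3 : ∑ j ∈ Finset.range (b + 1), (if j < b then l * (Q j * z ^ j) else 0) =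
      l * ∑ j ∈ Finset.range b, Q j * z ^ j := by
    rw [Finset.sum_range_succ, if_neg (lt_irrefl b), add_zero, Finset.mul_sum]
    exact Finset.sum_congr rfl fun j hj => if_pos (Finset.mem_range.1 hj)
  rw [e3]
  have e4 : A * Ψ ^ (b + 1) * ((Ψ⁻¹ * z) ^ (b + 1) - (Ψ⁻¹ * z) ^ b) =
      A * z ^ (b + 1) - l * (B * z ^ b) := by
    have h4 : Ψ ^ b ≠ 0 := pow_ne_zero _ hΨ0
    rw [mul_pow, mul_pow, inv_pow, inv_pow]
    have h5 : l * (B * z ^ b) = A * Ψ * z ^ b := by rw [hAΨ]; ring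
    have h6 : Ψ ^ (b + 1) = Ψ ^ b * Ψ := pow_succ _ _
    have h7 : A * Ψ ^ (b + 1) * ((Ψ ^ (b + 1))⁻¹ * z ^ (b + 1)) = A * z ^ (b + 1) := by
      rw [mul_assoc, mul_inv_cancel_left₀ (pow_ne_zero _ hΨ0)]
    have h8 : A * Ψ ^ (b + 1) * ((Ψ ^ b)⁻¹ * z ^ b) = A * Ψ * z ^ b := by
      rw [h6, ← mul_assoc A, mul_right_comm A, mul_assoc (A * Ψ), mul_inv_cancel_left₀ h4]
    rw [mul_sub (A * Ψ ^ (b + 1)), h7, h8, h5]
  rw [e4]
  ring

/-- The large root as a function on the torus. -/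
theorem exists_fib (b : ℕ) {A B : (Fin N → ℝ) → ℂ} {CA EA CB EB : ℝ} (hA : LogB A CA EA)
    (hB : LogB B CB EB) (hEA : 0 ≤ EA) (hEB : 0 ≤ EB) {P Q : ℕ → (Fin N → ℝ) → ℂ}
    (hP : ∀ j, ∃ C, Bdd1 (P j) C) (hQ : ∀ j, ∃ C, Bdd1 (Q j) C)
    (hAp : ∀ θ i, A (θ + Pi.single i 1) = A θ) (hBp : ∀ θ i, B (θ + Pi.single i 1) = B θ)
    (hPp : ∀ j θ i, P j (θ + Pi.single i 1) = P j θ)
    (hQp : ∀ j θ i, Q j (θ + Pi.single i 1) = Q j θ) {δ : ℝ} (hδ : 0 < δ) :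
    ∃ Λ C2 : ℝ, 1 < Λ ∧ 0 ≤ C2 ∧ ∀ l : ℂ, Λ ≤ ‖l‖ → ∃ z0 : (Fin N → ℝ) → ℂ, Good z0 ∧
      (∀ θ i, z0 (θ + Pi.single i 1) = z0 θ) ∧
      (∀ θ, (fpoly b (fun j => P j θ) (fun j => Q j θ) (A θ) (B θ) l).eval (z0 θ) = 0) ∧
      (∀ θ, (Polynomial.derivative
        (fpoly b (fun j => P j θ) (fun j => Q j θ) (A θ) (B θ) l)).eval (z0 θ) ≠ 0) ∧
      (∀ θ, |Real.log ‖z0 θ‖ - Real.log ‖l‖| ≤ C2) ∧
      ∀ j θ, ‖lw z0 j θ - (lw B j θ - lw A j θ)‖ ≤ δ := by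
  classical
  obtain ⟨r, M, η, hr, hM, hη⟩ := exists_root' b
  set G : (Fin N → ℝ) → ℂ := fun θ => B θ * (A θ)⁻¹ with hGdef
  have hG : LogB G (CB + CA) (EB + EA) := hB.mul hA.inv
  have hGp : ∀ θ i, G (θ + Pi.single i 1) = G θ := by
    intro θ i
    simp only [hGdef, hBp, hAp]
  choose CP hCP using hP
  choose CQ hCQ using hQ
  have hAi := hA.inv.bdd hEA
  have hGi := hG.inv.bdd (by positivity)
  set CAi : ℝ := Real.exp CA * (EA + 1) with hCAi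
  set CGi : ℝ := Real.exp (CB + CA) * (EB + EA + 1) with hCGi
  have hCAi0 : 0 ≤ CAi := by positivity
  have hCGi0 : 0 ≤ CGi := by positivity
  have hCP0 : ∀ j, 0 ≤ CP j := fun j => (hCP j).nonneg
  have hCQ0 : ∀ j, 0 ≤ CQ j := fun j => (hCQ j).nonneg
  set CE : ℝ := ∑ j ∈ Finset.range (b + 1), (2 * CP j * CAi + 2 * CQ j * (2 * CAi * CGi)) with hCE
  have hCEj : ∀ j, 0 ≤ 2 * CP j * CAi + 2 * CQ j * (2 * CAi * CGi) := fun j => by
    have := hCP0 j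
    have := hCQ0 j
    positivity
  have hCE0 : 0 ≤ CE := Finset.sum_nonneg fun j _ => hCEj j
  set δe : ℝ := min (r / 2) (δ / (2 * M)) with hδe
  have hδe0 : 0 < δe := lt_min (by linarith) (by positivity)
  have hδe1 : δe < r := (min_le_left _ _).trans_lt (by linarith)
  have hδe2 : 2 * M * δe ≤ δ := by
    have h1 : δe ≤ δ / (2 * M) := min_le_right _ _
    calc 2 * M * δe ≤ 2 * M * (δ / (2 * M)) := mul_le_mul_of_nonneg_left h1 (by positivity)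
      _ = δ := by field_simp
  set Λ : ℝ := 2 + 2 * CGi + 4 * CE * CGi / δe with hΛ
  have hΛ2 : 0 ≤ 4 * CE * CGi / δe := by positivity
  refine ⟨Λ, |CB + CA| + 1, by linarith, by positivity, fun l hl => ?_⟩
  set L : ℝ := ‖l‖ with hL
  have hL0 : 0 < L := by linarith
  have hl0 : l ≠ 0 := norm_pos_iff.1 hL0
  have hLi : ‖l⁻¹‖ = L⁻¹ := by rw [norm_inv]
  have hI : Bdd1 (fun θ => l⁻¹ * (G θ)⁻¹) (L⁻¹ * CGi) := by
    have h1 := hGi.const_mul l⁻¹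
    rwa [hLi] at h1
  have hLCI : 2 * (L⁻¹ * CGi) ≤ 1 := by
    have h1 : 2 * CGi ≤ L := by linarith
    have h2 : 2 * (L⁻¹ * CGi) = 2 * CGi / L := by field_simp
    rw [h2, div_le_one hL0]
    exact h1
  have hLCI0 : 0 ≤ 2 * (L⁻¹ * CGi) := by positivity
  have hIp : ∀ q : ℕ, 0 < q → Bdd1 (fun θ => (l⁻¹ * (G θ)⁻¹) ^ q) (2 * (L⁻¹ * CGi)) := fun q hq =>
    (hI.pow q).mono (pow_le_of_le_one hLCI0 hLCI hq.ne')
  set e : Fin (b + 1) → (Fin N → ℝ) → ℂ := fun j θ =>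
    ecoef b (fun j => P j θ) (fun j => Q j θ) (A θ) (G θ) (l⁻¹ * (G θ)⁻¹) j with hedef
  have he : ∀ j, Bdd1 (e j) δe := by
    intro j
    have hj := j.isLt
    have h1 : Bdd1 (fun θ => P j θ * (A θ)⁻¹ * (l⁻¹ * (G θ)⁻¹) ^ (b + 1 - (j : ℕ)))
        (2 * (2 * CP j * CAi) * (2 * (L⁻¹ * CGi))) :=
      ((hCP j).mul hAi).mul (hIp _ (by omega))
    have h2 : Bdd1 (fun θ => if (j : ℕ) < b then
        Q j θ * ((A θ)⁻¹ * (G θ)⁻¹) * (l⁻¹ * (G θ)⁻¹) ^ (b - (j : ℕ)) else 0)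
        (2 * (2 * CQ j * (2 * CAi * CGi)) * (2 * (L⁻¹ * CGi))) := by
      by_cases hjb : (j : ℕ) < b
      · simp only [if_pos hjb]
        exact ((hCQ j).mul (hAi.mul hGi)).mul (hIp _ (by omega))
      · simp only [if_neg hjb]
        refine Bdd1.zero.mono ?_
        have := hCQ0 j
        positivity
    have h3 := h1.add h2.neg
    have e3 : e j = fun θ => P j θ * (A θ)⁻¹ * (l⁻¹ * (G θ)⁻¹) ^ (b + 1 - (j : ℕ)) +
        -(if (j : ℕ) < b then Q j θ * ((A θ)⁻¹ * (G θ)⁻¹) * (l⁻¹ * (G θ)⁻¹) ^ (b - (j : ℕ))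
          else 0) := by
      funext θ
      show ecoef b (fun j => P j θ) (fun j => Q j θ) (A θ) (G θ) (l⁻¹ * (G θ)⁻¹) j = _
      unfold ecoef
      rw [sub_eq_add_neg]
    rw [e3]
    refine h3.mono ?_
    have h4 : 4 * CE * CGi / δe ≤ L := by linarith
    rw [div_le_iff₀ hδe0] at h4
    have h5 : 2 * CP j * CAi + 2 * CQ j * (2 * CAi * CGi) ≤ CE :=
      Finset.single_le_sum (f := fun j => 2 * CP j * CAi + 2 * CQ j * (2 * CAi * CGi))
        (fun j _ => hCEj j) (Finset.mem_range.2 hj)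
    have h6 : 2 * (2 * CP j * CAi) * (2 * (L⁻¹ * CGi)) +
        2 * (2 * CQ j * (2 * CAi * CGi)) * (2 * (L⁻¹ * CGi)) =
        (2 * CP j * CAi + 2 * CQ j * (2 * CAi * CGi)) * (4 * CGi) / L := by
      field_simp
      ring
    rw [h6, div_le_iff₀ hL0]
    calc (2 * CP j * CAi + 2 * CQ j * (2 * CAi * CGi)) * (4 * CGi) ≤ CE * (4 * CGi) :=
          mul_le_mul_of_nonneg_right h5 (by positivity)
      _ = 4 * CE * CGi := by ring
      _ ≤ L * δe := h4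
      _ = δe * L := by ring
  obtain ⟨r1, r2, r3⟩ := root_comp' hM (fun e he => (hη e he).2) hδe0.le hδe1 he
  have hΨg : Good fun θ => l * G θ := (good_const hl0).mul hG.good
  set z0 : (Fin N → ℝ) → ℂ := fun θ => l * G θ * η fun j => e j θ with hz0
  have hz0g : Good z0 := hΨg.mul r1
  have hep : ∀ j θ i, e j (θ + Pi.single i 1) = e j θ := by
    intro j θ i
    simp only [hedef, hGp, hAp, hPp, hQp]
  have hfp : ∀ θ, fpoly b (fun j => P j θ) (fun j => Q j θ) (A θ) (B θ) l =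
      Polynomial.C (A θ * (l * G θ) ^ (b + 1)) * (rp b fun j => e j θ).comp
        (Polynomial.C (l * G θ)⁻¹ * Polynomial.X) := by
    intro θ
    have h1 := fpoly_eq b (fun j => P j θ) (fun j => Q j θ) (hA.good.ne_zero θ)
      (hB.good.ne_zero θ) hl0
    rw [h1]
    have h2 : (l * G θ)⁻¹ = l⁻¹ * (G θ)⁻¹ := mul_inv _ _
    simp only [hedef, ← h2]
    rfl
  have hroot := fun θ => (hη (fun j => e j θ) (fun j => ((he j).norm_le θ).trans_lt hδe1)).1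
  have hΨz : ∀ θ, (l * G θ)⁻¹ * z0 θ = η fun j => e j θ := by
    intro θ
    show (l * G θ)⁻¹ * (l * G θ * η fun j => e j θ) = _
    rw [inv_mul_cancel_left₀ (hΨg.ne_zero θ)]
  have hcne : ∀ θ, A θ * (l * G θ) ^ (b + 1) ≠ 0 := fun θ =>
    mul_ne_zero (hA.good.ne_zero θ) (pow_ne_zero _ (hΨg.ne_zero θ))
  refine ⟨z0, hz0g, fun θ i => ?_, fun θ => ?_, fun θ => ?_, fun θ => ?_, fun j θ => ?_⟩
  · simp only [hz0, hGp, hep]
  · rw [hfp, Polynomial.eval_mul, Polynomial.eval_comp, Polynomial.eval_mul, Polynomial.eval_C,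
      Polynomial.eval_C, Polynomial.eval_X, hΨz, (hroot θ).1, mul_zero]
  · rw [hfp, Polynomial.derivative_C_mul, Polynomial.derivative_comp, Polynomial.derivative_C_mul,
      Polynomial.derivative_X, mul_one, Polynomial.eval_mul, Polynomial.eval_mul,
      Polynomial.eval_comp, Polynomial.eval_mul, Polynomial.eval_C, Polynomial.eval_C,
      Polynomial.eval_X, hΨz]
    exact mul_ne_zero (hcne θ) (mul_ne_zero (inv_ne_zero (hΨg.ne_zero θ)) (hroot θ).2)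
  · have h1 : Real.log ‖z0 θ‖ = Real.log L + Real.log ‖G θ‖ + Real.log ‖η fun j => e j θ‖ := by
      simp only [hz0]
      rw [norm_mul, norm_mul, Real.log_mul, Real.log_mul]
      · exact hL0.ne'
      · exact norm_ne_zero_iff.2 (hG.good.ne_zero θ)
      · exact mul_ne_zero hL0.ne' (norm_ne_zero_iff.2 (hG.good.ne_zero θ))
      · exact norm_ne_zero_iff.2 (r1.ne_zero θ)
    have h2 := abs_le.1 (hG.log_le θ)
    have h4 := abs_le.1 (r2 θ)
    have h5 := le_abs_self (CB + CA)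
    rw [h1, abs_le]
    constructor <;> linarith [h2.1, h2.2, h4.1, h4.2]
  · have h1 : lw z0 j θ = lw (fun θ => l * G θ) j θ + lw (fun θ => η fun j => e j θ) j θ :=
      lw_mul hΨg r1 j θ
    have h2 : lw (fun θ => l * G θ) j θ = lw (fun _ => l) j θ + lw G j θ :=
      lw_mul (good_const hl0) hG.good j θ
    have h4 : lw G j θ = lw B j θ + lw (fun θ => (A θ)⁻¹) j θ :=
      lw_mul hB.good hA.inv.good j θ
    have h6 : lw (fun θ => (A θ)⁻¹) j θ = -lw A j θ := lw_inv hA.good j θ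
    rw [h1, h2, h4, h6, lw_const]
    have h9 : 0 + (lw B j θ + -lw A j θ) + lw (fun θ => η fun j => e j θ) j θ -
        (lw B j θ - lw A j θ) = lw (fun θ => η fun j => e j θ) j θ := by ring
    rw [h9]
    exact (r3 j θ).trans hδe2

end Pool.Agent.Q16.LS
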