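import Pool.Agent.Q16.LS.Eval
import Pool.Agent.Q16.LS.Root
import Pool.Agent.Q16.UF.Scale
set_option autoImplicit false

/-!
Charts: changes of the coordinates `x_j`, and polynomials as polynomials in `z_0` whose coefficients
are polynomials in the new coordinates and `z_1, ..., z_s`.
-/

namespace Pool.Agent.Q16.LS

open MvPolynomial

open Pool.Agent.Q16.BF (iu iz iu_injective iz_injective Bdd1 LogB eval_cons norm_two_pi_I)

open Pool.Agent.Q16.UF (LexLead exists_lexLead good_tpt)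

open Pool.Agent.TH826.MK

open Pool.Agent.TH826.SX (lw_circ)

variable {K : Type*} [Field K] {s n : ℕ}

/-- the places of the variables -/
def jd (s n : ℕ) : Fin (s + 1) ⊕ Fin n → Fin (n + s + 1) := Sum.elim (iz n s) (iu n s)

theorem jd_zero (s n : ℕ) : jd s n (Sum.inl 0) = 0 := rfl

theorem jd_succ (i : Fin s) : jd s n (Sum.inl i.succ) = (Fin.natAdd n i).succ := rfl

theorem jd_inr (j : Fin n) : jd s n (Sum.inr j) = (Fin.castAdd s j).succ := rfl

theorem jd_injective (s n : ℕ) : Function.Injective (jd s n) := by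
  refine Function.Injective.sumElim (iz_injective n s) (iu_injective n s) fun i j => ?_
  refine Fin.cases ?_ (fun i => ?_) i
  · exact (Fin.succ_ne_zero _).symm
  · intro h
    have h1 := congrArg Fin.val (Fin.succ_injective _ (show (Fin.natAdd n i).succ =
      (Fin.castAdd s j).succ from h))
    rw [Fin.val_natAdd, Fin.val_castAdd] at h1
    have := j.isLt
    omega

/-- The extension of a change `χ` of the coordinates `x_j` by the identity on the `z_i`, `i ≥ 1`. -/
noncomputable def exc (s : ℕ) (χ : MvPolynomial (Fin n) K →ₐ[K] MvPolynomial (Fin n) K) :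
    MvPolynomial (Fin (n + s)) K →ₐ[K] MvPolynomial (Fin (n + s)) K :=
  aeval (Fin.append (fun j => rename (Fin.castAdd s) (χ (X j))) fun i => X (Fin.natAdd n i))

variable {χ ρ : MvPolynomial (Fin n) K →ₐ[K] MvPolynomial (Fin n) K}

theorem exc_castAdd (j : Fin n) :
    exc s χ (X (Fin.castAdd s j)) = rename (Fin.castAdd s) (χ (X j)) := by
  unfold exc
  rw [aeval_X, Fin.append_left]

theorem exc_natAdd (i : Fin s) : exc s χ (X (Fin.natAdd n i)) = X (Fin.natAdd n i) := by
  unfold exc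
  rw [aeval_X, Fin.append_right]

theorem exc_rename (q : MvPolynomial (Fin n) K) :
    exc s χ (rename (Fin.castAdd s) q) = rename (Fin.castAdd s) (χ q) := by
  have h : (exc s χ).comp (rename (Fin.castAdd s)) = (rename (Fin.castAdd s)).comp χ := by
    refine MvPolynomial.algHom_ext fun j => ?_
    rw [AlgHom.comp_apply, AlgHom.comp_apply, rename_X, exc_castAdd]
  exact congrArg (fun F : MvPolynomial (Fin n) K →ₐ[K] MvPolynomial (Fin (n + s)) K => F q) h

theorem exc_exc (h : ∀ q, ρ (χ q) = q) (q : MvPolynomial (Fin (n + s)) K) :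
    exc s ρ (exc s χ q) = q := by
  have h1 : (exc s ρ).comp (exc s χ) = AlgHom.id K _ := by
    refine MvPolynomial.algHom_ext fun j => ?_
    rw [AlgHom.comp_apply, AlgHom.id_apply]
    refine Fin.addCases (fun j => ?_) (fun i => ?_) j
    · rw [exc_castAdd, exc_rename, h, rename_X]
    · rw [exc_natAdd, exc_natAdd]
  exact congrArg (fun F : MvPolynomial (Fin (n + s)) K →ₐ[K] MvPolynomial (Fin (n + s)) K => F q) h1

theorem exc_ne_zero (h : ∀ q, ρ (χ q) = q) {q : MvPolynomial (Fin (n + s)) K} (hq : q ≠ 0) :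
    exc s χ q ≠ 0 := by
  intro h0
  apply hq
  rw [← exc_exc (s := s) h q, h0, map_zero]

/-- Polynomials as polynomials in `z_0`. -/
noncomputable def zp (q : MvPolynomial (Fin (s + 1) ⊕ Fin n) K) :
    Polynomial (MvPolynomial (Fin (n + s)) K) :=
  finSuccEquiv K (n + s) (rename (jd s n) q)

theorem natDegree_zp (q : MvPolynomial (Fin (s + 1) ⊕ Fin n) K) :
    (zp q).natDegree = q.degreeOf (Sum.inl 0) := by
  unfold zp
  rw [natDegree_finSuccEquiv, ← jd_zero s n, degreeOf_rename_of_injective (jd_injective s n)]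

theorem zp_ne_zero {q : MvPolynomial (Fin (s + 1) ⊕ Fin n) K} (hq : q ≠ 0) : zp q ≠ 0 := by
  unfold zp
  rw [Ne, EmbeddingLike.map_eq_zero_iff, map_eq_zero_iff _ (rename_injective _ (jd_injective s n))]
  exact hq

/-- The coefficients in the new coordinates. -/
noncomputable def cf (χ : MvPolynomial (Fin n) K →ₐ[K] MvPolynomial (Fin n) K)
    (q : MvPolynomial (Fin (s + 1) ⊕ Fin n) K) (j : ℕ) : MvPolynomial (Fin (n + s)) K :=
  exc s χ ((zp q).coeff j)

theorem cf_ne_zero (h : ∀ q, ρ (χ q) = q) {q : MvPolynomial (Fin (s + 1) ⊕ Fin n) K} (hq : q ≠ 0)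
    {d : ℕ} (hd : q.degreeOf (Sum.inl 0) = d) : cf χ q d ≠ 0 := by
  refine exc_ne_zero h ?_
  rw [← hd, ← natDegree_zp q]
  exact Polynomial.leadingCoeff_ne_zero.2 (zp_ne_zero hq)

section point

variable (σ : K →+* ℂ) (χ) (R : Fin (n + s) → ℝ)

/-- the values of the coordinates other than `z_0` -/
noncomputable def yy (θ : Fin (n + s) → ℝ) (l : Fin (n + s)) : ℂ :=
  eval₂ σ (tpt R θ) (exc s χ (X l))

theorem eval_yy (θ : Fin (n + s) → ℝ) (q : MvPolynomial (Fin (n + s)) K) :
    eval₂ σ (yy χ σ R θ) q = eval₂ σ (tpt R θ) (exc s χ q) := by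
  have h2 : eval₂Hom σ (yy χ σ R θ) = (eval₂Hom σ (tpt R θ)).comp
      (exc s χ : MvPolynomial (Fin (n + s)) K →+* _) := by
    refine MvPolynomial.ringHom_ext (fun x => ?_) fun i => ?_
    · rw [eval₂Hom_C, RingHom.comp_apply, RingHom.coe_coe, ← MvPolynomial.algebraMap_eq,
        (exc s χ).commutes, MvPolynomial.algebraMap_eq, eval₂Hom_C]
    · rw [eval₂Hom_X', RingHom.comp_apply]
      rfl
  exact congrArg (fun F : MvPolynomial (Fin (n + s)) K →+* ℂ => F q) h2

/-- the points of the tori -/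
noncomputable def pt (z0 : ℂ) (θ : Fin (n + s) → ℝ) (i : Fin (s + 1) ⊕ Fin n) : ℂ :=
  (Fin.cons z0 (yy χ σ R θ) : Fin (n + s + 1) → ℂ) (jd s n i)

theorem pt_zero (z0 : ℂ) (θ : Fin (n + s) → ℝ) : pt χ σ R z0 θ (Sum.inl 0) = z0 := rfl

theorem pt_succ (z0 : ℂ) (θ : Fin (n + s) → ℝ) (i : Fin s) :
    pt χ σ R z0 θ (Sum.inl i.succ) = tpt R θ (Fin.natAdd n i) := by
  unfold pt
  rw [jd_succ, Fin.cons_succ]
  unfold yy
  rw [exc_natAdd, eval₂_X]

theorem pt_inr (z0 : ℂ) (θ : Fin (n + s) → ℝ) (j : Fin n) :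
    pt χ σ R z0 θ (Sum.inr j) = eval₂ σ (tpt R θ) (rename (Fin.castAdd s) (χ (X j))) := by
  unfold pt
  rw [jd_inr, Fin.cons_succ]
  unfold yy
  rw [exc_castAdd]

theorem eval_pt_rename (z0 : ℂ) (θ : Fin (n + s) → ℝ) (q : MvPolynomial (Fin n) K) :
    eval₂ σ (fun j => pt χ σ R z0 θ (Sum.inr j)) q =
      eval₂ σ (tpt R θ) (rename (Fin.castAdd s) (χ q)) := by
  have h1 : (fun j => pt χ σ R z0 θ (Sum.inr j)) = yy χ σ R θ ∘ Fin.castAdd s := by
    funext j
    rw [pt_inr, Function.comp_apply]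
    unfold yy
    rw [exc_castAdd]
  rw [h1, ← eval₂_rename, eval_yy, exc_rename]

theorem eval_pt (z0 : ℂ) (θ : Fin (n + s) → ℝ) {q : MvPolynomial (Fin (s + 1) ⊕ Fin n) K} {d : ℕ}
    (hd : q.degreeOf (Sum.inl 0) = d) : eval₂ σ (pt χ σ R z0 θ) q =
      ∑ j ∈ Finset.range (d + 1), eval₂ σ (tpt R θ) (cf χ q j) * z0 ^ j := by
  have h1 : pt χ σ R z0 θ = (Fin.cons z0 (yy χ σ R θ) : Fin (n + s + 1) → ℂ) ∘ jd s n := rfl
  rw [h1, ← eval₂_rename, eval_cons, Polynomial.eval₂_eq_sum_range]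
  have h2 : (finSuccEquiv K (n + s) (rename (jd s n) q)).natDegree = d := by
    rw [← hd]
    exact natDegree_zp q
  rw [h2]
  refine Finset.sum_congr rfl fun j _ => ?_
  rw [coe_eval₂Hom, eval_yy]
  rfl

theorem pt_update (z0 z : ℂ) (θ : Fin (n + s) → ℝ) :
    Function.update (pt χ σ R z0 θ) (Sum.inl 0) z = pt χ σ R z θ := by
  funext i
  rcases i with i | i
  · refine Fin.cases ?_ (fun i => ?_) i
    · rw [Function.update_self]
      rfl
    · rw [Function.update_of_ne (by simp), pt_succ, pt_succ]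
  · rw [Function.update_of_ne (by simp), pt_inr, pt_inr]

end point

section lex

theorem LexLead.rename {q : MvPolynomial (Fin n) K} {V : Fin n →₀ ℕ} (h : LexLead q V) (s : ℕ) :
    LexLead (rename (Fin.castAdd s) q) (V.mapDomain (Fin.castAdd s)) := by
  classical
  have hinj := Fin.castAdd_injective n s
  have hs := support_rename_of_injective (p := q) hinj
  refine ⟨?_, fun a ha hne => ?_⟩
  · rw [hs]
    exact Finset.mem_image_of_mem _ h.1
  · rw [hs] at ha
    obtain ⟨a', ha', rfl⟩ := Finset.mem_image.1 ha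
    have hne' : a' ≠ V := fun e => hne (by rw [e])
    obtain ⟨i, h1, h2⟩ := h.2 a' ha' hne'
    refine ⟨Fin.castAdd s i, fun l hl => ?_, ?_⟩
    · revert hl
      refine Fin.addCases (fun l hl => ?_) (fun l hl => ?_) l
      · rw [Finsupp.mapDomain_apply hinj, Finsupp.mapDomain_apply hinj]
        exact h1 l hl
      · exfalso
        have h3 : (Fin.natAdd n l : ℕ) < (Fin.castAdd s i : ℕ) := hl
        rw [Fin.val_natAdd, Fin.val_castAdd] at h3
        have := i.isLt
        omega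
    · rw [Finsupp.mapDomain_apply hinj, Finsupp.mapDomain_apply hinj]
      exact h2

theorem mapDomain_castAdd (V : Fin n →₀ ℕ) (j : Fin n) :
    V.mapDomain (Fin.castAdd s) (Fin.castAdd s j) = V j :=
  Finsupp.mapDomain_apply (Fin.castAdd_injective n s) V j

theorem mapDomain_natAdd (V : Fin n →₀ ℕ) (i : Fin s) :
    V.mapDomain (Fin.castAdd s) (Fin.natAdd n i) = 0 := by
  refine Finsupp.mapDomain_notin_range V _ ?_
  rintro ⟨j, hj⟩
  have h1 := congrArg Fin.val hj
  rw [Fin.val_castAdd, Fin.val_natAdd] at h1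
  have := j.isLt
  omega

end lex

section bdd

variable {N : ℕ} {R : Fin N → ℝ}

theorem bdd_tpt (hR : ∀ i, 0 < R i) (i : Fin N) : ∃ C, Bdd1 (fun θ => tpt R θ i) C := by
  have hpi := Real.pi_pos
  refine ⟨_, Bdd1.of_good (C := R i) (D := 2 * Real.pi) (good_tpt hR i) (by positivity)
    (fun θ => (norm_circ (hR i).le _).le) fun θ j => ?_⟩
  have h2 : lw (fun θ => tpt R θ i) j θ =
      if j = i then 2 * Real.pi * Complex.I else 0 := lw_circ (hR i) i j θ
  rw [h2]
  split_ifs
  · exact norm_two_pi_I.le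
  · rw [norm_zero]
    positivity

theorem bdd_eval (σ : K →+* ℂ) (hR : ∀ i, 0 < R i) (q : MvPolynomial (Fin N) K) :
    ∃ C, Bdd1 (fun θ => eval₂ σ (tpt R θ) q) C := by
  induction q using MvPolynomial.induction_on with
  | C c =>
    refine ⟨‖σ c‖, ?_⟩
    simp only [eval₂_C]
    exact Bdd1.const _
  | add p q hp hq =>
    obtain ⟨C, hC⟩ := hp
    obtain ⟨D, hD⟩ := hq
    simp only [eval₂_add]
    exact ⟨_, hC.add hD⟩
  | mul_X p k hp =>
    obtain ⟨C, hC⟩ := hp
    obtain ⟨D, hD⟩ := bdd_tpt hR k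
    simp only [eval₂_mul, eval₂_X]
    exact ⟨_, hC.mul hD⟩

end bdd

end Pool.Agent.Q16.LS
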