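import Pool.Agent.Q16.BF.Defs
set_option autoImplicit false

/-!
The hypersurfaces `p(z_0, ..., z_s) = Φ(x_1, ..., x_n) H(z, x)` and their open parts
`Φ z_0 ... z_s ≠ 0`.
-/

namespace Pool.Agent.Q16.LS

open MvPolynomial

section ring

variable {K : Type*} [Field K] {ι : Type*} (F Δ : MvPolynomial ι K)

/-- The coordinate ring of the affine hypersurface `F = 0`. -/
def VRing : Type _ := MvPolynomial ι K ⧸ Ideal.span {F}

noncomputable instance : CommRing (VRing F) := Ideal.Quotient.commRing (Ideal.span {F})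

/-- The polynomials as functions on the hypersurface. -/
noncomputable def vpol : MvPolynomial ι K →+* VRing F := Ideal.Quotient.mk (Ideal.span {F})

/-- The polynomial `Δ T - 1`. -/
noncomputable def veqn : Polynomial (VRing F) := Polynomial.C (vpol F Δ) * Polynomial.X - 1

/-- The coordinate ring of the open part `Δ ≠ 0` of the hypersurface `F = 0`: the ring obtained from
the coordinate ring of the hypersurface by adjoining `T` with `Δ T = 1`. -/
def VOpen : Type _ := AdjoinRoot (veqn F Δ)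

noncomputable instance : CommRing (VOpen F Δ) := AdjoinRoot.instCommRing (veqn F Δ)

/-- The restriction of functions to the open part. -/
noncomputable def toV : VRing F →+* VOpen F Δ := AdjoinRoot.of (veqn F Δ)

/-- The polynomials as functions on the open part. -/
noncomputable def opol : MvPolynomial ι K →+* VOpen F Δ := (toV F Δ).comp (vpol F)

theorem opol_F : opol F Δ F = 0 := by
  have h : vpol F F = 0 := Ideal.Quotient.eq_zero_iff_mem.2 (Ideal.subset_span rfl)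
  show toV F Δ (vpol F F) = 0
  rw [h, map_zero]

theorem isUnit_opol {q : MvPolynomial ι K} (hq : q ∣ Δ) : IsUnit (opol F Δ q) := by
  have h := AdjoinRoot.mk_self (f := veqn F Δ)
  have h2 : AdjoinRoot.mk (veqn F Δ) (veqn F Δ) =
      AdjoinRoot.of (veqn F Δ) (vpol F Δ) * AdjoinRoot.root (veqn F Δ) - 1 := by
    conv_lhs => rw [show AdjoinRoot.mk (veqn F Δ) (veqn F Δ) = AdjoinRoot.mk (veqn F Δ)
      (Polynomial.C (vpol F Δ) * Polynomial.X - 1) from rfl]
    rw [map_sub, map_mul, map_one, AdjoinRoot.mk_X, AdjoinRoot.mk_C]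
  rw [h2, sub_eq_zero] at h
  exact isUnit_of_dvd_unit (map_dvd _ hq) (IsUnit.of_mul_eq_one _ h)

/-- The divisors of `Δ` as units on the open part. -/
noncomputable def ou {q : MvPolynomial ι K} (hq : q ∣ Δ) : (VOpen F Δ)ˣ :=
  (isUnit_opol F Δ hq).unit

theorem coe_ou {q : MvPolynomial ι K} (hq : q ∣ Δ) : (ou F Δ hq : VOpen F Δ) = opol F Δ q := rfl

end ring

section fam

variable {K : Type*} [Field K] {s n : ℕ} (p : MvPolynomial (Fin (s + 1)) K)
  (H : MvPolynomial (Fin (s + 1) ⊕ Fin n) K) (Φ : MvPolynomial (Fin n) K)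

/-- The equation `p(z) - Φ(x) H(z, x)`. -/
noncomputable def leqn : MvPolynomial (Fin (s + 1) ⊕ Fin n) K :=
  rename Sum.inl p - rename Sum.inr Φ * H

/-- The polynomial `Φ(x) z_0 ... z_s`. -/
noncomputable def ldel (s : ℕ) (Φ : MvPolynomial (Fin n) K) :
    MvPolynomial (Fin (s + 1) ⊕ Fin n) K :=
  rename Sum.inr Φ * ∏ j, X (Sum.inl j)

theorem X_dvd_ldel (j : Fin (s + 1)) :
    (X (Sum.inl j) : MvPolynomial (Fin (s + 1) ⊕ Fin n) K) ∣ ldel s Φ :=
  Dvd.dvd.mul_left (Finset.dvd_prod_of_mem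
    (fun j => (X (Sum.inl j) : MvPolynomial (Fin (s + 1) ⊕ Fin n) K)) (Finset.mem_univ j)) _

theorem rename_dvd_ldel {q : MvPolynomial (Fin n) K} (hq : q ∣ Φ) :
    (rename Sum.inr q : MvPolynomial (Fin (s + 1) ⊕ Fin n) K) ∣ ldel s Φ :=
  Dvd.dvd.mul_right (map_dvd _ hq) _

/-- The coordinate ring of the open part `Φ z_0 ... z_s ≠ 0` of the hypersurface
`p(z) = Φ(x) H(z, x)`. -/
abbrev LOpen : Type _ := VOpen (leqn p H Φ) (ldel s Φ)

/-- The entries `z_0`, `u_1, ..., u_n`, `z_1, ..., z_s` of the symbols. -/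
noncomputable def lent (u : Fin n → (LOpen p H Φ)ˣ) : Fin (n + s + 1) → (LOpen p H Φ)ˣ :=
  Fin.cons (ou _ _ (X_dvd_ldel Φ 0)) (Fin.append u fun i : Fin s => ou _ _ (X_dvd_ldel Φ i.succ))

/-- The exponents `(a_0, ..., a_s)` of `z` in the monomials of `H` lie in the interior of the Newton
polytope of `p`. -/
def InteriorH : Prop :=
  ∀ u : Fin (s + 1) → ℤ, u ≠ 0 → ∀ b ∈ H.support, ∃ a ∈ p.support,
    ∑ i, u i * (b (Sum.inl i) : ℤ) < ∑ i, u i * (a i : ℤ)

/-- The complex points over `σ` of the open part. -/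
structure LPt (σ : K →+* ℂ) (z : Fin (s + 1) → ℂ) (x : Fin n → ℂ) : Prop where
  eq : eval₂ σ z p = eval₂ σ x Φ * eval₂ σ (Sum.elim z x) H
  hPhi : eval₂ σ x Φ ≠ 0
  hz : ∀ i, z i ≠ 0

end fam

section tower

variable {K : Type*} [Field K] {s n : ℕ} (r : Fin n → ℕ)
  (φ : (j : Fin n) → Fin (r j + 1) → MvPolynomial (Fin n) K) (w : (j : Fin n) → Fin (r j + 1) → ℕ)
  (lam : K)

/-- The polynomial `λ ∏_j ∏_i (x_j - φ_{j,i}) ^ (w_{j,i} + 1)`. -/
noncomputable def tPhi : MvPolynomial (Fin n) K :=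
  C lam * ∏ j, ∏ i, (X j - φ j i) ^ (w j i + 1)

theorem fac_dvd_tPhi (j : Fin n) (i : Fin (r j + 1)) : X j - φ j i ∣ tPhi r φ w lam :=
  Dvd.dvd.mul_left (((dvd_pow_self _ (Nat.succ_ne_zero _)).trans
    (Finset.dvd_prod_of_mem (fun i => (X j - φ j i) ^ (w j i + 1)) (Finset.mem_univ i))).trans
    (Finset.dvd_prod_of_mem (fun j => ∏ i, (X j - φ j i) ^ (w j i + 1)) (Finset.mem_univ j))) _

variable (p : MvPolynomial (Fin (s + 1)) K) (H : MvPolynomial (Fin (s + 1) ⊕ Fin n) K)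

/-- The unit `(x_j - φ_{j,k_j + 1}) / (x_j - φ_{j,0})`, for `0 ≤ k_j < r_j`. -/
noncomputable def tu (k : ∀ j, Fin (r j)) (j : Fin n) : (LOpen p H (tPhi r φ w lam))ˣ :=
  ou _ _ (rename_dvd_ldel _ (fac_dvd_tPhi r φ w lam j (k j).succ)) /
    ou _ _ (rename_dvd_ldel _ (fac_dvd_tPhi r φ w lam j 0))

/-- The entries `z_0`, `(x_j - φ_{j,k_j + 1}) / (x_j - φ_{j,0})`, `z_1, ..., z_s` of the symbols. -/
noncomputable def tsym (k : ∀ j, Fin (r j)) : Fin (n + s + 1) → (LOpen p H (tPhi r φ w lam))ˣ :=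
  lent p H (tPhi r φ w lam) (tu r φ w lam p H k)

end tower

end Pool.Agent.Q16.LS
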