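import Pool.Agent.Q16.LS.Defs
import Pool.Agent.Q16.BF.Ring
set_option autoImplicit false

/-!
Irreducibility of the hypersurfaces `p(z) = Φ(x) H(z, x)`.
-/

namespace Pool.Agent.Q16.LS

open Pool.Agent.Q16.BF (IsTop exists_isTop iso idx iso_C iso_zero iso_succ iso_inr iso_rename_inl
  iso_rename_inr)

section top

open MvPolynomial

variable {ι R : Type*} [CommRing R] [IsDomain R]

theorem totalDegree_coeff_mul_le {g h : Polynomial (MvPolynomial ι R)} {a b : ℕ} (ha : IsTop g a)
    (hb : IsTop h b) (i : ℕ) : ((g * h).coeff i).totalDegree ≤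
      (g.coeff a).totalDegree + (h.coeff b).totalDegree := by
  rw [Polynomial.coeff_mul]
  refine totalDegree_finsetSum_le fun x _ => ?_
  by_cases h1 : g.coeff x.1 = 0
  · rw [h1, zero_mul, totalDegree_zero]
    exact Nat.zero_le _
  by_cases h2 : h.coeff x.2 = 0
  · rw [h2, mul_zero, totalDegree_zero]
    exact Nat.zero_le _
  exact (totalDegree_mul _ _).trans (add_le_add (ha.2 _ h1).1 (hb.2 _ h2).1)

/-- The coefficients of largest degree of a product. -/
theorem isTop_mul {g h : Polynomial (MvPolynomial ι R)} {a b : ℕ} (ha : IsTop g a)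
    (hb : IsTop h b) (i : ℕ) (hi : a + b < i) (h0 : (g * h).coeff i ≠ 0) :
    ((g * h).coeff i).totalDegree < (g.coeff a).totalDegree + (h.coeff b).totalDegree := by
  classical
  have hs : Pool.Agent.Q16.BF.Small ((g.coeff a).totalDegree + (h.coeff b).totalDegree)
      ((g * h).coeff i) := by
    rw [Polynomial.coeff_mul]
    refine Pool.Agent.Q16.BF.Small.sum _ fun x hx => ?_
    rw [Finset.mem_antidiagonal] at hx
    by_cases h1 : g.coeff x.1 = 0
    · exact Or.inl (by rw [h1, zero_mul])
    by_cases h2 : h.coeff x.2 = 0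
    · exact Or.inl (by rw [h2, mul_zero])
    refine Or.inr ?_
    rw [totalDegree_mul_of_isDomain h1 h2]
    obtain ⟨a1, a2⟩ := ha.2 _ h1
    obtain ⟨b1, b2⟩ := hb.2 _ h2
    by_cases hlt : a < x.1
    · have := a2 hlt
      omega
    · have := b2 (by omega)
      omega
  exact hs.resolve_left h0

/-- If the coefficient of `z ^ E` is the last one of largest degree in `x`, the degree in `z` is
`E + 1`, and the leading coefficient is constant in `x`, then one of the factors is constant in `x`. -/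
theorem const_of_mul {F g h : Polynomial (MvPolynomial ι R)} {E : ℕ}
    (hF : F = g * h) (hdeg : F.natDegree = E + 1) (hE : IsTop F E)
    (hlead : (F.coeff (E + 1)).totalDegree = 0) :
    (∀ i, (g.coeff i).totalDegree = 0) ∨ ∀ i, (h.coeff i).totalDegree = 0 := by
  have hF0 : F ≠ 0 := by
    rintro rfl
    simp at hdeg
  have hg0 : g ≠ 0 := by
    rintro rfl
    exact hF0 (by rw [hF, zero_mul])
  have hh0 : h ≠ 0 := by
    rintro rfl
    exact hF0 (by rw [hF, mul_zero])
  obtain ⟨a, ha⟩ := exists_isTop hg0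
  obtain ⟨b, hb⟩ := exists_isTop hh0
  obtain ⟨h1, h2⟩ := ha.mul hb
  have hle := totalDegree_coeff_mul_le ha hb E
  have hlt := isTop_mul ha hb
  rw [← hF] at h1 h2 hle hlt
  have hnd : g.natDegree + h.natDegree = E + 1 := by
    rw [← Polynomial.natDegree_mul hg0 hh0, ← hF, hdeg]
  have hlc : g.leadingCoeff.totalDegree + h.leadingCoeff.totalDegree = 0 := by
    rw [← totalDegree_mul_of_isDomain (Polynomial.leadingCoeff_ne_zero.2 hg0)
      (Polynomial.leadingCoeff_ne_zero.2 hh0), ← Polynomial.leadingCoeff_mul, ← hF]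
    unfold Polynomial.leadingCoeff
    rw [hdeg]
    exact hlead
  have hale : a ≤ g.natDegree := Polynomial.le_natDegree_of_ne_zero ha.1
  have hble : b ≤ h.natDegree := Polynomial.le_natDegree_of_ne_zero hb.1
  have hab : a + b = E := by
    obtain ⟨h3, h4⟩ := hE.2 _ h1
    rcases lt_trichotomy (a + b) E with h5 | h5 | h5
    · have := hlt E h5 hE.1
      omega
    · exact h5
    · have := h4 h5
      omega
  have key : (g.coeff a).totalDegree = 0 ∨ (h.coeff b).totalDegree = 0 := by
    rcases hale.lt_or_eq with h4 | h4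
    · rcases hble.lt_or_eq with h5 | h5
      · omega
      · right
        rw [h5]
        exact (Nat.add_eq_zero_iff.1 hlc).2
    · left
      rw [h4]
      exact (Nat.add_eq_zero_iff.1 hlc).1
  rcases key with h3 | h3
  · left
    intro i
    by_cases hi : g.coeff i = 0
    · rw [hi, totalDegree_zero]
    · exact Nat.le_zero.1 (h3 ▸ (ha.2 i hi).1)
  · right
    intro i
    by_cases hi : h.coeff i = 0
    · rw [hi, totalDegree_zero]
    · exact Nat.le_zero.1 (h3 ▸ (hb.2 i hi).1)

end top

section coeffs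

open MvPolynomial

variable {K : Type*} [Field K] {s n : ℕ}

/-- the exponent with the given parts -/
noncomputable def mkE (i : ℕ) (a : Fin n →₀ ℕ) (b : Fin s →₀ ℕ) : Fin (s + 1) ⊕ Fin n →₀ ℕ :=
  Finsupp.equivFunOnFinite.symm (Sum.elim (Fin.cons i b) a)

theorem mkE_inr (i : ℕ) (a : Fin n →₀ ℕ) (b : Fin s →₀ ℕ) (j : Fin n) :
    mkE i a b (Sum.inr j) = a j := rfl

/-- the `x`-part -/
noncomputable def mX (m : Fin (s + 1) ⊕ Fin n →₀ ℕ) : Fin n →₀ ℕ :=
  Finsupp.equivFunOnFinite.symm fun j => m (Sum.inr j)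

/-- the part of `z_1, ..., z_s` -/
noncomputable def mZ (m : Fin (s + 1) ⊕ Fin n →₀ ℕ) : Fin s →₀ ℕ :=
  Finsupp.equivFunOnFinite.symm fun j => m (Sum.inl j.succ)

theorem eq_mkE (m : Fin (s + 1) ⊕ Fin n →₀ ℕ) (i : ℕ) (a : Fin n →₀ ℕ) (b : Fin s →₀ ℕ) :
    m = mkE i a b ↔ m (Sum.inl 0) = i ∧ mX m = a ∧ mZ m = b := by
  constructor
  · rintro rfl
    refine ⟨rfl, ?_, ?_⟩
    · ext j
      rfl
    · ext j
      rfl
  · rintro ⟨rfl, rfl, rfl⟩
    ext j
    rcases j with j | j
    · refine Fin.cases ?_ (fun j => ?_) j <;> rfl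
    · rfl

theorem iso_monomial (m : Fin (s + 1) ⊕ Fin n →₀ ℕ) (c : K) :
    iso K s n (monomial m c) =
      Polynomial.C (monomial (mX m) (monomial (mZ m) c)) * Polynomial.X ^ m (Sum.inl 0) := by
  have h1 : monomial (mZ m) c = C c * ∏ j : Fin s, X j ^ m (Sum.inl j.succ) := by
    rw [monomial_eq, Finsupp.prod_fintype _ _ (fun i => pow_zero _)]
    rfl
  rw [monomial_eq, Finsupp.prod_fintype _ _ (fun i => pow_zero _), Fintype.prod_sum_type,
    Fin.prod_univ_succ, map_mul, map_mul, map_mul, iso_C, map_pow, iso_zero, map_prod, map_prod,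
    monomial_eq, h1, Finsupp.prod_fintype _ _ (fun i => pow_zero _)]
  simp only [map_pow, map_mul, map_prod, iso_succ, iso_inr]
  have h2 : ∀ j, mX m j = m (Sum.inr j) := fun j => rfl
  simp only [h2]
  ring

theorem coeff_iso (q : MvPolynomial (Fin (s + 1) ⊕ Fin n) K) (i : ℕ) (a : Fin n →₀ ℕ)
    (b : Fin s →₀ ℕ) : coeff b (coeff a ((iso K s n q).coeff i)) = coeff (mkE i a b) q := by
  classical
  induction q using MvPolynomial.induction_on' with
  | monomial m c =>
    rw [iso_monomial, Polynomial.coeff_C_mul_X_pow, coeff_monomial]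
    by_cases h1 : i = m (Sum.inl 0)
    · rw [if_pos h1, coeff_monomial]
      by_cases h2 : mX m = a
      · rw [if_pos h2, coeff_monomial]
        by_cases h3 : mZ m = b
        · rw [if_pos h3, if_pos ((eq_mkE m i a b).2 ⟨h1.symm, h2, h3⟩)]
        · rw [if_neg h3, if_neg fun h => h3 ((eq_mkE m i a b).1 h).2.2]
      · rw [if_neg h2, coeff_zero, if_neg fun h => h2 ((eq_mkE m i a b).1 h).2.1]
    · rw [if_neg h1, coeff_zero, coeff_zero, if_neg fun h => h1 ((eq_mkE m i a b).1 h).1.symm]
  | add p q hp hq =>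
    rw [map_add, Polynomial.coeff_add, coeff_add, coeff_add, hp, hq, coeff_add]

theorem totalDegree_coeff_iso_le {H : MvPolynomial (Fin (s + 1) ⊕ Fin n) K} {D : ℕ}
    (hD : ∀ m ∈ H.support, ∑ j, m (Sum.inr j) ≤ D) (i : ℕ) :
    ((iso K s n H).coeff i).totalDegree ≤ D := by
  refine Finset.sup_le fun a ha => ?_
  rw [mem_support_iff] at ha
  obtain ⟨b, hb⟩ := ne_zero_iff.1 ha
  rw [coeff_iso] at hb
  have h1 := hD _ (mem_support_iff.2 hb)
  rw [Finsupp.sum_fintype _ _ fun _ => rfl]
  exact h1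

theorem le_totalDegree_coeff_iso {H : MvPolynomial (Fin (s + 1) ⊕ Fin n) K}
    {m : Fin (s + 1) ⊕ Fin n →₀ ℕ} (hm : m ∈ H.support) :
    (iso K s n H).coeff (m (Sum.inl 0)) ≠ 0 ∧
      ∑ j, m (Sum.inr j) ≤ ((iso K s n H).coeff (m (Sum.inl 0))).totalDegree := by
  have h1 : coeff (mZ m) (coeff (mX m) ((iso K s n H).coeff (m (Sum.inl 0)))) ≠ 0 := by
    rw [coeff_iso, ← (eq_mkE m _ _ _).2 ⟨rfl, rfl, rfl⟩]
    exact mem_support_iff.1 hm
  have h2 : coeff (mX m) ((iso K s n H).coeff (m (Sum.inl 0))) ≠ 0 := by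
    intro h
    rw [h, coeff_zero] at h1
    exact h1 rfl
  refine ⟨fun h => by rw [h, coeff_zero] at h2; exact h2 rfl, ?_⟩
  have h3 := le_totalDegree (mem_support_iff.2 h2)
  rw [Finsupp.sum_fintype _ _ fun _ => rfl] at h3
  exact h3

theorem natDegree_iso (q : MvPolynomial (Fin (s + 1) ⊕ Fin n) K) :
    (iso K s n q).natDegree = q.degreeOf (Sum.inl 0) := by
  have h1 : (iso K s n q).natDegree =
      (optionEquivLeft K (Fin n ⊕ Fin s) (rename (idx s n) q)).natDegree :=
    Polynomial.natDegree_map_eq_of_injective (sumRingEquiv K (Fin n) (Fin s)).injective _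
  rw [h1, natDegree_optionEquivLeft, show (none : Option (Fin n ⊕ Fin s)) =
    idx s n (Sum.inl 0) from rfl, degreeOf_rename_of_injective (idx s n).injective]

end coeffs

section swap

open MvPolynomial

theorem totalDegree_map_inj {ι R S : Type*} [CommRing R] [CommRing S] {f : R →+* S}
    (hf : Function.Injective f) (q : MvPolynomial ι R) :
    (map f q).totalDegree = q.totalDegree := by
  unfold totalDegree
  rw [support_map_of_injective _ hf]

variable (K : Type*) [Field K] (s n : ℕ)

/-- The polynomials in `z` and `x` as polynomials in `x` over the polynomials in `z`. -/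
noncomputable def isoS : MvPolynomial (Fin (s + 1) ⊕ Fin n) K ≃+*
    MvPolynomial (Fin n) (MvPolynomial (Fin (s + 1)) K) :=
  (renameEquiv K (Equiv.sumComm (Fin (s + 1)) (Fin n))).toRingEquiv.trans
    (sumRingEquiv K (Fin n) (Fin (s + 1)))

variable {K s n}

theorem isoS_inl (q : MvPolynomial (Fin (s + 1)) K) : isoS K s n (rename Sum.inl q) = C q := by
  induction q using MvPolynomial.induction_on with
  | C y => simp [isoS]
  | add p q hp hq => rw [map_add, map_add, map_add, hp, hq]
  | mul_X p i hp =>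
    rw [map_mul, map_mul, map_mul, hp, rename_X]
    congr 1
    simp [isoS]

theorem isoS_inr (q : MvPolynomial (Fin n) K) : isoS K s n (rename Sum.inr q) = map C q := by
  induction q using MvPolynomial.induction_on with
  | C y => simp [isoS]
  | add p q hp hq => rw [map_add, map_add, map_add, hp, hq]
  | mul_X p i hp =>
    rw [map_mul, map_mul, map_mul, hp, rename_X, map_X]
    congr 1
    simp [isoS]

/-- A prime polynomial in `z` which divides `p - Φ H` divides `p` and `H`, if `Φ` is not constant. -/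
theorem dvd_of_dvd {p : MvPolynomial (Fin (s + 1)) K}
    {H : MvPolynomial (Fin (s + 1) ⊕ Fin n) K} {Φ : MvPolynomial (Fin n) K} (hΦ : ∀ y, Φ ≠ C y)
    {q : MvPolynomial (Fin (s + 1)) K} (hq : Prime q) (h : rename Sum.inl q ∣ leqn p H Φ) :
    q ∣ p ∧ rename Sum.inl q ∣ H := by
  set D := MvPolynomial (Fin (s + 1)) K ⧸ Ideal.span {q} with hD
  have hprime : (Ideal.span {q}).IsPrime := (Ideal.span_singleton_prime hq.ne_zero).2 hq
  have : IsDomain D := Ideal.Quotient.isDomain (Ideal.span {q})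
  set π : MvPolynomial (Fin (s + 1)) K →+* D := Ideal.Quotient.mk (Ideal.span {q}) with hπ
  have hker : ∀ a, π a = 0 ↔ q ∣ a := fun a => by
    rw [hπ, Ideal.Quotient.eq_zero_iff_mem, Ideal.mem_span_singleton]
  have h1 := map_dvd (isoS K s n) h
  unfold leqn at h1
  rw [isoS_inl, map_sub, map_mul, isoS_inl, isoS_inr] at h1
  have h2 := map_dvd (map π : MvPolynomial (Fin n) _ →+* MvPolynomial (Fin n) D) h1
  rw [map_C, (hker q).2 dvd_rfl, C_0, zero_dvd_iff, map_sub, map_mul, map_C, map_map,
    sub_eq_zero] at h2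
  have hinj : Function.Injective (π.comp C) := RingHom.injective _
  have hH : map π (isoS K s n H) = 0 := by
    by_contra hne
    have hΦ0 : map (π.comp C) Φ ≠ 0 := by
      rw [Ne, map_eq_zero_iff _ (map_injective _ hinj)]
      intro h0
      exact hΦ 0 (by rw [h0, C_0])
    have h3 := congrArg totalDegree h2
    rw [totalDegree_C, totalDegree_mul_of_isDomain hΦ0 hne] at h3
    have h4 : (map (π.comp C) Φ).totalDegree = 0 := by omega
    rw [totalDegree_map_inj hinj] at h4
    exact hΦ _ (totalDegree_eq_zero_iff_eq_C.1 h4)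
  rw [hH, mul_zero, C_eq_zero, hker] at h2
  refine ⟨h2, ?_⟩
  have h3 : C q ∣ isoS K s n H := by
    rw [C_dvd_iff_dvd_coeff]
    intro m
    rw [← hker, ← coeff_map, hH, coeff_zero]
  rw [← isoS_inl] at h3
  exact (map_dvd_iff (isoS K s n)).1 h3

end swap

section Domain

open MvPolynomial

variable {K : Type*} [Field K] {s n : ℕ} {p : MvPolynomial (Fin (s + 1)) K}
  {H : MvPolynomial (Fin (s + 1) ⊕ Fin n) K} {Φ : MvPolynomial (Fin n) K}

theorem iso_leqn : iso K s n (leqn p H Φ) = (finSuccEquiv K s p).map C -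
    Polynomial.C (map C Φ) * iso K s n H := by
  unfold leqn
  rw [map_sub, map_mul, iso_rename_inl, iso_rename_inr]

/-- The conditions for irreducibility: a monomial of `H` of largest degree in `x` has the degree
`deg_{z_0} p - 1` in `z_0`, and `p` and `H` have no common factor. -/
def Irr (p : MvPolynomial (Fin (s + 1)) K) (H : MvPolynomial (Fin (s + 1) ⊕ Fin n) K) : Prop :=
  (∃ m ∈ H.support, m (Sum.inl 0) + 1 = p.degreeOf 0 ∧
    ∀ m' ∈ H.support, ∑ j, m' (Sum.inr j) ≤ ∑ j, m (Sum.inr j)) ∧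
  ∀ f : MvPolynomial (Fin (s + 1)) K, f ∣ p → rename Sum.inl f ∣ H → IsUnit f

theorem irreducible_leqn {b : ℕ} (hp : p.degreeOf 0 = b + 1) (hHd : H.degreeOf (Sum.inl 0) = b)
    (hI : Irr p H) (hΦ : ∀ y, Φ ≠ C y) : Irreducible (leqn p H Φ) := by
  obtain ⟨⟨m, hm, hmb, hmax⟩, hcop⟩ := hI
  have hmb' : m (Sum.inl 0) = b := by omega
  obtain ⟨hb0, hb1⟩ := le_totalDegree_coeff_iso hm
  rw [hmb'] at hb0 hb1
  have hle := totalDegree_coeff_iso_le hmax
  have hinj : Function.Injective (C : K →+* MvPolynomial (Fin s) K) := C_injective _ _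
  set Φ' : MvPolynomial (Fin n) (MvPolynomial (Fin s) K) := map C Φ with hΦ'
  have hΦd : Φ'.totalDegree ≠ 0 := by
    rw [hΦ', totalDegree_map_inj hinj]
    intro h
    exact hΦ _ (totalDegree_eq_zero_iff_eq_C.1 h)
  have hΦ0 : Φ' ≠ 0 := by
    intro h
    rw [h, totalDegree_zero] at hΦd
    exact hΦd rfl
  have hpn : (finSuccEquiv K s p).natDegree = b + 1 := by rw [natDegree_finSuccEquiv, hp]
  have hHn : (iso K s n H).natDegree = b := by rw [natDegree_iso, hHd]
  have hco : ∀ i, (iso K s n (leqn p H Φ)).coeff i =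
      C ((finSuccEquiv K s p).coeff i) - Φ' * (iso K s n H).coeff i := by
    intro i
    rw [iso_leqn, Polynomial.coeff_sub, Polynomial.coeff_map, Polynomial.coeff_C_mul]
  have htd : ∀ i, (iso K s n H).coeff i ≠ 0 → ((iso K s n (leqn p H Φ)).coeff i).totalDegree =
      Φ'.totalDegree + ((iso K s n H).coeff i).totalDegree := by
    intro i hi
    rw [hco, ← totalDegree_mul_of_isDomain hΦ0 hi, ← neg_sub, totalDegree_neg, sub_eq_add_neg,
      totalDegree_add_eq_left_of_totalDegree_lt]
    rw [totalDegree_neg, totalDegree_C, totalDegree_mul_of_isDomain hΦ0 hi]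
    omega
  have htd0 : ∀ i, (iso K s n H).coeff i = 0 →
      ((iso K s n (leqn p H Φ)).coeff i).totalDegree = 0 := by
    intro i hi
    rw [hco, hi, mul_zero, sub_zero, totalDegree_C]
  have hnd : (iso K s n (leqn p H Φ)).natDegree = b + 1 := by
    refine le_antisymm ?_ ?_
    · rw [Polynomial.natDegree_le_iff_coeff_eq_zero]
      intro i hi
      rw [hco, Polynomial.coeff_eq_zero_of_natDegree_lt (by omega),
        Polynomial.coeff_eq_zero_of_natDegree_lt (by omega), map_zero, mul_zero, sub_zero]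
    · refine Polynomial.le_natDegree_of_ne_zero ?_
      rw [hco, Polynomial.coeff_eq_zero_of_natDegree_lt (p := iso K s n H) (by omega), mul_zero,
        sub_zero, Ne, C_eq_zero, ← hpn]
      intro h0
      have h1 := Polynomial.leadingCoeff_eq_zero.1 h0
      rw [h1, Polynomial.natDegree_zero] at hpn
      omega
  have htop : IsTop (iso K s n (leqn p H Φ)) b := by
    have h1 := htd b hb0
    refine ⟨fun h => ?_, fun i _ => ?_⟩
    · rw [h, totalDegree_zero] at h1
      omega
    · by_cases hi : (iso K s n H).coeff i = 0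
      · rw [htd0 i hi]
        exact ⟨Nat.zero_le _, fun _ => by omega⟩
      · refine ⟨?_, fun hlt => ?_⟩
        · rw [htd i hi, h1]
          have := hle i
          omega
        · exact absurd (Polynomial.coeff_eq_zero_of_natDegree_lt (by omega)) hi
  have hlead : ((iso K s n (leqn p H Φ)).coeff (b + 1)).totalDegree = 0 :=
    htd0 _ (Polynomial.coeff_eq_zero_of_natDegree_lt (by omega))
  have hconst : ∀ G : MvPolynomial (Fin (s + 1) ⊕ Fin n) K, G ∣ leqn p H Φ →
      (∀ i, ((iso K s n G).coeff i).totalDegree = 0) → IsUnit G := by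
    intro G hG h0
    obtain ⟨g0, hg0⟩ : ∃ g0 : Polynomial (MvPolynomial (Fin s) K), iso K s n G = g0.map C := by
      refine ⟨(iso K s n G).map (eval 0), ?_⟩
      ext1 i
      rw [Polynomial.coeff_map, Polynomial.coeff_map]
      have h1 := totalDegree_eq_zero_iff_eq_C.1 (h0 i)
      rw [h1, eval_C]
    set f := (finSuccEquiv K s).symm g0 with hf
    have hGf : G = rename Sum.inl f := by
      apply (iso K s n).injective
      rw [iso_rename_inl, hf, AlgEquiv.apply_symm_apply, hg0]
    have hfu : IsUnit f := by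
      by_contra hnu
      have hf0 : f ≠ 0 := by
        intro h
        rw [hGf, h, map_zero, zero_dvd_iff] at hG
        rw [hG, map_zero, Polynomial.natDegree_zero] at hnd
        omega
      obtain ⟨q, hq, hqf⟩ := WfDvdMonoid.exists_irreducible_factor hnu hf0
      have h1 : rename Sum.inl q ∣ leqn p H Φ := (map_dvd (rename Sum.inl) hqf).trans (hGf ▸ hG)
      obtain ⟨h2, h3⟩ := dvd_of_dvd hΦ hq.prime h1
      exact hq.not_isUnit (hcop q h2 h3)
    rw [hGf]
    exact hfu.map (rename Sum.inl)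
  refine ⟨fun hu => ?_, fun g h hgh => ?_⟩
  · have := Polynomial.natDegree_eq_zero_of_isUnit (hu.map (iso K s n))
    omega
  · rcases const_of_mul (F := iso K s n (leqn p H Φ)) (g := iso K s n g) (h := iso K s n h)
      (by rw [hgh, map_mul]) hnd htop hlead with h0 | h0
    · exact Or.inl (hconst g (hgh ▸ Dvd.intro _ rfl) h0)
    · exact Or.inr (hconst h (hgh ▸ Dvd.intro_left _ rfl) h0)

theorem isDomain_VRing {b : ℕ} (hp : p.degreeOf 0 = b + 1) (hHd : H.degreeOf (Sum.inl 0) = b)
    (hI : Irr p H) (hΦ : ∀ y, Φ ≠ C y) : IsDomain (VRing (leqn p H Φ)) := by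
  have hp : Prime (leqn p H Φ) := (irreducible_leqn hp hHd hI hΦ).prime
  have : (Ideal.span {leqn p H Φ}).IsPrime :=
    (Ideal.span_singleton_prime hp.ne_zero).2 hp
  exact Ideal.Quotient.isDomain (Ideal.span {leqn p H Φ})

end Domain

end Pool.Agent.Q16.LS
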