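import Pool.Agent.Q16.LS.Defs
import Pool.Agent.Q16.BF.Tori
set_option autoImplicit false

/-!
Evaluation of the functions on open parts of hypersurfaces at complex points, and tori.
-/

namespace Pool.Agent.Q16.LS

open Pool.Agent.TH826.MK

open MvPolynomial

section Ev

variable {K : Type*} [Field K] {ι : Type*} {F Δ : MvPolynomial ι K} {σ : K →+* ℂ} {N : ℕ}

/-- The complex points over `σ` of the open part. -/
structure VPt (σ : K →+* ℂ) (F Δ : MvPolynomial ι K) (x : ι → ℂ) : Prop where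
  eq : eval₂ σ x F = 0
  ne : eval₂ σ x Δ ≠ 0

variable {x : ι → ℂ}

/-- evaluation of the functions on the hypersurface -/
noncomputable def VPt.evR (h : VPt σ F Δ x) : VRing F →+* ℂ :=
  Ideal.Quotient.lift (Ideal.span {F}) (eval₂Hom σ x) (by
    intro q hq
    have hle : Ideal.span {F} ≤ RingHom.ker (eval₂Hom σ x) := by
      rw [Ideal.span_le]
      rintro q rfl
      exact h.eq
    exact hle hq)

theorem VPt.evR_vpol (h : VPt σ F Δ x) (q : MvPolynomial ι K) :
    h.evR (vpol F q) = eval₂ σ x q :=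
  Ideal.Quotient.lift_mk _ _ _

/-- evaluation of the functions on the open part -/
noncomputable def VPt.ev (h : VPt σ F Δ x) : VOpen F Δ →+* ℂ :=
  AdjoinRoot.lift h.evR (eval₂ σ x Δ)⁻¹ (by
    unfold veqn
    simp only [Polynomial.eval₂_sub, Polynomial.eval₂_mul, Polynomial.eval₂_X,
      Polynomial.eval₂_C, Polynomial.eval₂_one]
    rw [h.evR_vpol, mul_inv_cancel₀ h.ne, sub_self])

theorem VPt.ev_toV (h : VPt σ F Δ x) (b : VRing F) : h.ev (toV F Δ b) = h.evR b :=
  AdjoinRoot.lift_of _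

theorem VPt.ev_opol (h : VPt σ F Δ x) (q : MvPolynomial ι K) :
    h.ev (opol F Δ q) = eval₂ σ x q := by
  show h.ev (toV F Δ (vpol F q)) = _
  rw [h.ev_toV, h.evR_vpol]

theorem VPt.ev_mk (h : VPt σ F Δ x) (q : Polynomial (VRing F)) :
    h.ev (AdjoinRoot.mk (veqn F Δ) q : AdjoinRoot (veqn F Δ)) =
      q.eval₂ h.evR (eval₂ σ x Δ)⁻¹ :=
  AdjoinRoot.lift_mk _ q

theorem VPt.ev_congr {x' : ι → ℂ} (h : VPt σ F Δ x) (h' : VPt σ F Δ x') (hx : x = x') :
    h.ev = h'.ev := by
  subst hx
  rfl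

theorem contDiff_eval₂ {x : (Fin N → ℝ) → (ι → ℂ)} (hx : ∀ i, ContDiff ℝ 2 fun θ => x θ i)
    (q : MvPolynomial ι K) : ContDiff ℝ 2 fun θ => eval₂ σ (x θ) q := by
  induction q using MvPolynomial.induction_on with
  | C c => simpa using contDiff_const
  | add p q hp hq => simpa using hp.add hq
  | mul_X p k hp => simpa using hp.mul (hx k)

theorem contDiff_ev {x : (Fin N → ℝ) → (ι → ℂ)} (hx : ∀ i, ContDiff ℝ 2 fun θ => x θ i)
    (h : ∀ θ, VPt σ F Δ (x θ)) (b : VOpen F Δ) : ContDiff ℝ 2 fun θ => (h θ).ev b := by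
  have hB : ∀ b : VRing F, ContDiff ℝ 2 fun θ => (h θ).evR b := by
    intro b
    obtain ⟨q, hq⟩ := Ideal.Quotient.mk_surjective b
    have e : (fun θ => (h θ).evR b) = fun θ => eval₂ σ (x θ) q := by
      funext θ
      rw [← hq]
      exact (h θ).evR_vpol q
    rw [e]
    exact contDiff_eval₂ hx q
  obtain ⟨q, hq⟩ := AdjoinRoot.mk_surjective (g := veqn F Δ) b
  have e : (fun θ => (h θ).ev b) = fun θ =>
      ∑ i ∈ Finset.range (q.natDegree + 1), (h θ).evR (q.coeff i) *
        (eval₂ σ (x θ) Δ)⁻¹ ^ i := by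
    funext θ
    rw [← hq, (h θ).ev_mk, Polynomial.eval₂_eq_sum_range]
  rw [e]
  exact ContDiff.sum fun i _ => (hB _).mul (((contDiff_eval₂ hx Δ).inv fun θ => (h θ).ne).pow i)

/-- a torus in the hypersurface -/
noncomputable def mkV (x : (Fin N → ℝ) → (ι → ℂ)) (hxc : ∀ i, ContDiff ℝ 2 fun θ => x θ i)
    (hxp : ∀ θ i, x (θ + Pi.single i 1) = x θ) (h : ∀ θ, VPt σ F Δ (x θ)) :
    Torus (VOpen F Δ) N where
  e θ := (h θ).ev
  smooth b := contDiff_ev hxc h b
  periodic θ i := VPt.ev_congr _ _ (hxp θ i)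

end Ev

section deriv

variable {K : Type*} [Field K] {ι : Type*} [DecidableEq ι] (σ : K →+* ℂ) (x : ι → ℂ) (i0 : ι)

/-- The restriction of a polynomial to a line. -/
noncomputable def ln : MvPolynomial ι K →+* Polynomial ℂ :=
  eval₂Hom (Polynomial.C.comp σ) fun i => if i = i0 then Polynomial.X else Polynomial.C (x i)

theorem eval_ln (z : ℂ) (q : MvPolynomial ι K) :
    (ln σ x i0 q).eval z = eval₂ σ (Function.update x i0 z) q := by
  have h : (Polynomial.evalRingHom z).comp (ln σ x i0) =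
      eval₂Hom σ (Function.update x i0 z) := by
    refine MvPolynomial.ringHom_ext (fun c => ?_) fun i => ?_
    · simp [ln]
    · rw [RingHom.comp_apply, eval₂Hom_X']
      unfold ln
      rw [eval₂Hom_X']
      by_cases hi : i = i0
      · subst hi
        simp
      · rw [if_neg hi, Function.update_of_ne hi]
        simp
  exact congrArg (fun F : MvPolynomial ι K →+* ℂ => F q) h

theorem derivative_ln (q : MvPolynomial ι K) :
    Polynomial.derivative (ln σ x i0 q) = ln σ x i0 (pderiv i0 q) := by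
  induction q using MvPolynomial.induction_on with
  | C c => simp [ln]
  | add p q hp hq => rw [map_add, map_add, map_add, map_add, hp, hq]
  | mul_X p k hp =>
    rw [map_mul, Polynomial.derivative_mul, hp, pderiv_mul, map_add, map_mul, map_mul]
    congr 2
    by_cases hk : k = i0
    · subst hk
      rw [pderiv_X_self, map_one]
      simp [ln]
    · rw [pderiv_X_of_ne hk, map_zero]
      simp [ln, hk]

end deriv

end Pool.Agent.Q16.LS
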