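import Pool.Agent.Q16.LS.Defs
set_option autoImplicit false

/-!
The hypersurfaces `D(x) p(z) = Φ(x) H(z, x)` and their open parts `D Φ z_0 ... z_s ≠ 0`.
-/

namespace Pool.Agent.Q16.LS

open MvPolynomial

variable {K : Type*} [Field K] {s n : ℕ} (p : MvPolynomial (Fin (s + 1)) K)
  (H : MvPolynomial (Fin (s + 1) ⊕ Fin n) K) (D Φ : MvPolynomial (Fin n) K)

/-- The equation `D(x) p(z) - Φ(x) H(z, x)`. -/
noncomputable def weqn : MvPolynomial (Fin (s + 1) ⊕ Fin n) K :=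
  rename Sum.inr D * rename Sum.inl p - rename Sum.inr Φ * H

/-- The coordinate ring of the open part `D Φ z_0 ... z_s ≠ 0` of the hypersurface
`D(x) p(z) = Φ(x) H(z, x)`. -/
abbrev WOpen : Type _ := VOpen (weqn p H D Φ) (ldel s (D * Φ))

/-- The entries `z_0`, `u_1, ..., u_n`, `z_1, ..., z_s` of the symbols. -/
noncomputable def went (u : Fin n → (WOpen p H D Φ)ˣ) : Fin (n + s + 1) → (WOpen p H D Φ)ˣ :=
  Fin.cons (ou _ _ (X_dvd_ldel (D * Φ) 0))
    (Fin.append u fun i : Fin s => ou _ _ (X_dvd_ldel (D * Φ) i.succ))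

end Pool.Agent.Q16.LS
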