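import Pool.Agent.Q16.LS.Torus
import Pool.Agent.Q16.LS.WDefs
set_option autoImplicit false

/-!
Tori in the hypersurfaces `D(x) p(z) = l φ(x) H(z, x)` for large complex numbers `l`.
-/

namespace Pool.Agent.Q16.LS

open MvPolynomial

open Pool.Agent.Q16.BF (iu iz Bdd1 LogB norm_two_pi_I RG RG_row_z RG_row_u RG_row_y det_RG)

open Pool.Agent.Q16.UF (LexLead exists_lexLead good_tpt exists_lex_torus)

open Pool.Agent.TH826.MK

open Pool.Agent.TH826.SX (lw_circ det_ne_zero_near pairing_close)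

open Pool.Agent.TH333.CY (good_inv lw_inv)

variable {s n : ℕ}

/-- The identity as an embedding. -/
noncomputable abbrev ic : ℂ →+* ℂ := RingHom.id ℂ

/-- The value of the equation at the points. -/
theorem eval_weqn_pt (χ : MvPolynomial (Fin n) ℂ →ₐ[ℂ] MvPolynomial (Fin n) ℂ)
    (R : Fin (n + s) → ℝ) {p : MvPolynomial (Fin (s + 1)) ℂ} {b : ℕ}
    (hp : p.degreeOf 0 = b + 1) {H : MvPolynomial (Fin (s + 1) ⊕ Fin n) ℂ}
    (hHd : H.degreeOf (Sum.inl 0) = b) (D φ : MvPolynomial (Fin n) ℂ) (l z0 : ℂ)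
    (θ : Fin (n + s) → ℝ) :
    eval₂ ic (pt χ ic R z0 θ) (weqn p H D (C l * φ)) =
      (fpoly b (fun j => eval₂ ic (tpt R θ) (rename (Fin.castAdd s) (χ D)) *
          eval₂ ic (tpt R θ) (cf χ (rename Sum.inl p) j))
        (fun j => eval₂ ic (tpt R θ) (rename (Fin.castAdd s) (χ φ)) *
          eval₂ ic (tpt R θ) (cf χ H j))
        (eval₂ ic (tpt R θ) (rename (Fin.castAdd s) (χ D)) *
          eval₂ ic (tpt R θ) (cf χ (rename Sum.inl p) (b + 1)))
        (eval₂ ic (tpt R θ) (rename (Fin.castAdd s) (χ φ)) *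
          eval₂ ic (tpt R θ) (cf χ H b)) l).eval z0 := by
  have h2 : pt χ ic R z0 θ ∘ Sum.inr = fun j => pt χ ic R z0 θ (Sum.inr j) := rfl
  have h1 : eval₂ ic (pt χ ic R z0 θ) (rename Sum.inr (C l * φ)) =
      l * eval₂ ic (tpt R θ) (rename (Fin.castAdd s) (χ φ)) := by
    rw [eval₂_rename, h2, eval₂_mul, eval₂_C, eval_pt_rename, RingHom.id_apply]
  have h1' : eval₂ ic (pt χ ic R z0 θ) (rename Sum.inr D) =
      eval₂ ic (tpt R θ) (rename (Fin.castAdd s) (χ D)) := by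
    rw [eval₂_rename, h2, eval_pt_rename]
  unfold weqn
  rw [← coe_eval₂Hom, map_sub, map_mul, map_mul, coe_eval₂Hom, h1, h1',
    eval_pt χ ic R z0 θ ((degreeOf_rename_inl p).trans hp), eval_pt χ ic R z0 θ hHd]
  unfold fpoly
  simp only [Polynomial.eval_sub, Polynomial.eval_add, Polynomial.eval_mul, Polynomial.eval_C,
    Polynomial.eval_pow, Polynomial.eval_X, Polynomial.eval_finset_sum]
  rw [Finset.sum_range_succ _ (b + 1), Finset.sum_range_succ (fun j =>
    eval₂ ic (tpt R θ) (cf χ H j) * z0 ^ j) b]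
  have h3 : ∑ j ∈ Finset.range b, eval₂ ic (tpt R θ) (rename (Fin.castAdd s) (χ φ)) *
      eval₂ ic (tpt R θ) (cf χ H j) * z0 ^ j = eval₂ ic (tpt R θ) (rename (Fin.castAdd s) (χ φ)) *
      ∑ j ∈ Finset.range b, eval₂ ic (tpt R θ) (cf χ H j) * z0 ^ j := by
    rw [Finset.mul_sum]
    exact Finset.sum_congr rfl fun j _ => mul_assoc _ _ _
  have h4 : ∑ j ∈ Finset.range (b + 1), eval₂ ic (tpt R θ) (rename (Fin.castAdd s) (χ D)) *
      eval₂ ic (tpt R θ) (cf χ (rename Sum.inl p) j) * z0 ^ j =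
      eval₂ ic (tpt R θ) (rename (Fin.castAdd s) (χ D)) *
      ∑ j ∈ Finset.range (b + 1), eval₂ ic (tpt R θ) (cf χ (rename Sum.inl p) j) * z0 ^ j := by
    rw [Finset.mul_sum]
    exact Finset.sum_congr rfl fun j _ => mul_assoc _ _ _
  rw [h3, h4]
  ring

/-- The value of the derivative of the equation with respect to `z_0` at the points. -/
theorem eval_pderiv_w (χ : MvPolynomial (Fin n) ℂ →ₐ[ℂ] MvPolynomial (Fin n) ℂ)
    (R : Fin (n + s) → ℝ) {p : MvPolynomial (Fin (s + 1)) ℂ} {b : ℕ}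
    (hp : p.degreeOf 0 = b + 1) {H : MvPolynomial (Fin (s + 1) ⊕ Fin n) ℂ}
    (hHd : H.degreeOf (Sum.inl 0) = b) (D φ : MvPolynomial (Fin n) ℂ) (l z0 : ℂ)
    (θ : Fin (n + s) → ℝ) :
    eval₂ ic (pt χ ic R z0 θ) (pderiv (Sum.inl 0) (weqn p H D (C l * φ))) =
      (Polynomial.derivative (fpoly b
        (fun j => eval₂ ic (tpt R θ) (rename (Fin.castAdd s) (χ D)) *
          eval₂ ic (tpt R θ) (cf χ (rename Sum.inl p) j))
        (fun j => eval₂ ic (tpt R θ) (rename (Fin.castAdd s) (χ φ)) *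
          eval₂ ic (tpt R θ) (cf χ H j))
        (eval₂ ic (tpt R θ) (rename (Fin.castAdd s) (χ D)) *
          eval₂ ic (tpt R θ) (cf χ (rename Sum.inl p) (b + 1)))
        (eval₂ ic (tpt R θ) (rename (Fin.castAdd s) (χ φ)) *
          eval₂ ic (tpt R θ) (cf χ H b)) l)).eval z0 := by
  have h1 : ln ic (pt χ ic R z0 θ) (Sum.inl 0) (weqn p H D (C l * φ)) = fpoly b
        (fun j => eval₂ ic (tpt R θ) (rename (Fin.castAdd s) (χ D)) *
          eval₂ ic (tpt R θ) (cf χ (rename Sum.inl p) j))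
        (fun j => eval₂ ic (tpt R θ) (rename (Fin.castAdd s) (χ φ)) *
          eval₂ ic (tpt R θ) (cf χ H j))
        (eval₂ ic (tpt R θ) (rename (Fin.castAdd s) (χ D)) *
          eval₂ ic (tpt R θ) (cf χ (rename Sum.inl p) (b + 1)))
        (eval₂ ic (tpt R θ) (rename (Fin.castAdd s) (χ φ)) *
          eval₂ ic (tpt R θ) (cf χ H b)) l := by
    refine Polynomial.funext fun z => ?_
    rw [eval_ln, pt_update, eval_weqn_pt χ R hp hHd]
  rw [← h1, derivative_ln, eval_ln, Function.update_eq_self_iff.2 (pt_zero χ ic R z0 θ).symm]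

/-- The functions of the symbols on the tori. -/
noncomputable def tfn (χ : MvPolynomial (Fin n) ℂ →ₐ[ℂ] MvPolynomial (Fin n) ℂ)
    (R : Fin (n + s) → ℝ) (num den : Fin n → MvPolynomial (Fin n) ℂ)
    (z0 : (Fin (n + s) → ℝ) → ℂ) : Fin (n + s + 1) → (Fin (n + s) → ℝ) → ℂ :=
  Fin.cons z0 (Fin.append (fun l θ => eval₂ ic (tpt R θ) (rename (Fin.castAdd s) (χ (num l))) *
    (eval₂ ic (tpt R θ) (rename (Fin.castAdd s) (χ (den l))))⁻¹)
    fun i θ => tpt R θ (Fin.natAdd n i))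

/-- Tori over small tori in the charts of the `x`-space. -/
theorem exists_fun {ι κ : Type*} [Finite ι] [Finite κ] {p : MvPolynomial (Fin (s + 1)) ℂ}
    {b : ℕ} (hp : p.degreeOf 0 = b + 1) {H : MvPolynomial (Fin (s + 1) ⊕ Fin n) ℂ} (hH : H ≠ 0)
    (hHd : H.degreeOf (Sum.inl 0) = b) (χ ρ : MvPolynomial (Fin n) ℂ →ₐ[ℂ] MvPolynomial (Fin n) ℂ)
    (hρ : ∀ q, ρ (χ q) = q) {φ D : MvPolynomial (Fin n) ℂ} (hφ : φ ≠ 0) (hD : D ≠ 0)
    (num den : ι → Fin n → MvPolynomial (Fin n) ℂ) (Vn Vd : ι → Fin n → Fin n →₀ ℕ)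
    (hn : ∀ i l, LexLead (χ (num i l)) (Vn i l)) (hd : ∀ i l, LexLead (χ (den i l)) (Vd i l))
    (ext : κ → MvPolynomial (Fin (n + s)) ℂ) (Vx : κ → Fin (n + s) →₀ ℕ)
    (hx : ∀ e, LexLead (ext e) (Vx e)) {ε δ1 : ℝ} (hε : 0 < ε) (hδ1 : 0 < δ1) :
    ∃ (R : Fin (n + s) → ℝ) (Λ C0 : ℝ), (∀ i, 0 < R i) ∧ 1 < Λ ∧ 0 ≤ C0 ∧
      (∀ e, Good (fun θ => eval₂ ic (tpt R θ) (ext e)) ∧
        (∀ θ, |Real.log ‖eval₂ ic (tpt R θ) (ext e)‖| ≤ C0) ∧
        ∀ j θ, ‖lw (fun θ => eval₂ ic (tpt R θ) (ext e)) j θ -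
          2 * Real.pi * Complex.I * ((Vx e j : ℝ) : ℂ)‖ ≤ δ1) ∧
      (∀ l : Fin s, ∀ θ, |Real.log ‖tpt R θ (Fin.natAdd n l)‖| ≤ C0) ∧
      ∀ l : ℂ, Λ ≤ ‖l‖ → ∃ z0 : (Fin (n + s) → ℝ) → ℂ, Good z0 ∧
        (∀ θ i, z0 (θ + Pi.single i 1) = z0 θ) ∧
        (∀ θ, eval₂ ic (pt χ ic R (z0 θ) θ) (weqn p H D (C l * φ)) = 0 ∧
          eval₂ ic (pt χ ic R (z0 θ) θ) (pderiv (Sum.inl 0) (weqn p H D (C l * φ))) ≠ 0) ∧
        (∀ θ, eval₂ ic (tpt R θ) (rename (Fin.castAdd s) (χ φ)) ≠ 0 ∧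
          eval₂ ic (tpt R θ) (rename (Fin.castAdd s) (χ D)) ≠ 0) ∧
        (∀ θ, |Real.log ‖z0 θ‖ - Real.log ‖l‖| ≤ C0) ∧ (∀ j θ, ‖lw z0 j θ‖ ≤ C0) ∧
        (∀ i m, Good (tfn χ R (num i) (den i) z0 m)) ∧
        ∀ i, |pairing (tfn χ R (num i) (den i) z0) / Real.log ‖l‖ -
          (2 * Real.pi) ^ (n + s) *
            (Matrix.of fun l j => (Vn i l j : ℝ) - Vd i l j).det| ≤ ε := by
  classical
  cases nonempty_fintype ι
  have hpi := Real.pi_pos
  set pA : MvPolynomial (Fin (n + s)) ℂ := cf χ (rename Sum.inl p) (b + 1) with hpA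
  set pH : MvPolynomial (Fin (n + s)) ℂ := cf χ H b with hpH
  set pF : MvPolynomial (Fin (n + s)) ℂ := rename (Fin.castAdd s) (χ φ) with hpF
  set pD : MvPolynomial (Fin (n + s)) ℂ := rename (Fin.castAdd s) (χ D) with hpD
  have hp0 : p ≠ 0 := by
    intro h
    rw [h, degreeOf_zero] at hp
    omega
  have hA0 : pA ≠ 0 := cf_ne_zero hρ ((map_ne_zero_iff _ (rename_injective _
    Sum.inl_injective)).2 hp0) ((degreeOf_rename_inl p).trans hp)
  have hH0 : pH ≠ 0 := cf_ne_zero hρ hH hHd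
  have hχφ : χ φ ≠ 0 := fun h => hφ (by rw [← hρ φ, h, map_zero])
  have hχD : χ D ≠ 0 := fun h => hD (by rw [← hρ D, h, map_zero])
  have hF0 : pF ≠ 0 := (map_ne_zero_iff _ (rename_injective _ (Fin.castAdd_injective n s))).2 hχφ
  have hD0 : pD ≠ 0 := (map_ne_zero_iff _ (rename_injective _ (Fin.castAdd_injective n s))).2 hχD
  obtain ⟨VA, hVA⟩ := exists_lexLead hA0
  obtain ⟨VH, hVH⟩ := exists_lexLead hH0
  obtain ⟨VF, hVF⟩ := exists_lexLead hF0
  obtain ⟨VD, hVD⟩ := exists_lexLead hD0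
  set om : Fin (n + s) → ℝ := fun j => (VF j : ℝ) + VH j - (VD j + VA j) with hom
  set RR : ι → Fin n → Fin n → ℝ := fun i l j => (Vn i l j : ℝ) - Vd i l j with hRR
  choose δ hδ hclose using fun i => pairing_close (RG s om (RR i)) hε
  obtain ⟨δ0, hδ0, hδ0S, hδ01⟩ : ∃ δ0 : ℝ, 0 < δ0 ∧ (∀ i, 6 * δ0 ≤ δ i) ∧ δ0 ≤ δ1 := by
    by_cases hne : Nonempty ι
    · obtain ⟨S0, -, hS0⟩ := Finset.exists_min_image Finset.univ δ
        ⟨Classical.choice hne, Finset.mem_univ _⟩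
      have h1 := hδ S0
      refine ⟨min (δ S0 / 6) δ1, lt_min (by positivity) hδ1, fun S => ?_, min_le_right _ _⟩
      have h2 := hS0 S (Finset.mem_univ S)
      have h3 := min_le_left (δ S0 / 6) δ1
      linarith
    · exact ⟨δ1, hδ1, fun S => absurd ⟨S⟩ hne, le_rfl⟩
  -- the polynomials on the torus
  set J := (Fin 4 ⊕ κ) ⊕ (ι × Fin n × Bool) with hJ
  set A : J → MvPolynomial (Fin (n + s)) ℂ := Sum.elim (Sum.elim ![pA, pH, pF, pD] ext) fun e =>
    if e.2.2 then rename (Fin.castAdd s) (χ (num e.1 e.2.1))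
    else rename (Fin.castAdd s) (χ (den e.1 e.2.1)) with hA
  set V : J → Fin (n + s) →₀ ℕ := Sum.elim (Sum.elim ![VA, VH, VF, VD] Vx) fun e =>
    if e.2.2 then (Vn e.1 e.2.1).mapDomain (Fin.castAdd s)
    else (Vd e.1 e.2.1).mapDomain (Fin.castAdd s) with hV
  have hAV : ∀ e, LexLead (A e) (V e) := by
    rintro ((e | e) | ⟨i, l, c⟩)
    · fin_cases e
      · exact hVA
      · exact hVH
      · exact hVF
      · exact hVD
    · exact hx e
    · cases c
      · exact LexLead.rename (hd i l) s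
      · exact LexLead.rename (hn i l) s
  obtain ⟨R, C1, hR, hlex⟩ := exists_lex_torus ic A V hAV hδ0
  set fA : (Fin (n + s) → ℝ) → ℂ := fun θ => eval₂ ic (tpt R θ) pA with hfA
  set fH : (Fin (n + s) → ℝ) → ℂ := fun θ => eval₂ ic (tpt R θ) pH with hfH
  set fF : (Fin (n + s) → ℝ) → ℂ := fun θ => eval₂ ic (tpt R θ) pF with hfF
  set fD : (Fin (n + s) → ℝ) → ℂ := fun θ => eval₂ ic (tpt R θ) pD with hfD
  obtain ⟨gA, lA, wA⟩ : Good fA ∧ (∀ θ, |Real.log ‖fA θ‖| ≤ C1) ∧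
      ∀ j θ, ‖lw fA j θ - 2 * Real.pi * Complex.I * ((VA j : ℝ) : ℂ)‖ ≤ δ0 :=
    hlex (Sum.inl (Sum.inl 0))
  obtain ⟨gH, lH, wH⟩ : Good fH ∧ (∀ θ, |Real.log ‖fH θ‖| ≤ C1) ∧
      ∀ j θ, ‖lw fH j θ - 2 * Real.pi * Complex.I * ((VH j : ℝ) : ℂ)‖ ≤ δ0 :=
    hlex (Sum.inl (Sum.inl 1))
  obtain ⟨gF, lF, wF⟩ : Good fF ∧ (∀ θ, |Real.log ‖fF θ‖| ≤ C1) ∧
      ∀ j θ, ‖lw fF j θ - 2 * Real.pi * Complex.I * ((VF j : ℝ) : ℂ)‖ ≤ δ0 :=
    hlex (Sum.inl (Sum.inl 2))
  obtain ⟨gD, lD, wD⟩ : Good fD ∧ (∀ θ, |Real.log ‖fD θ‖| ≤ C1) ∧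
      ∀ j θ, ‖lw fD j θ - 2 * Real.pi * Complex.I * ((VD j : ℝ) : ℂ)‖ ≤ δ0 :=
    hlex (Sum.inl (Sum.inl 3))
  have hext : ∀ e, Good (fun θ => eval₂ ic (tpt R θ) (ext e)) ∧
      (∀ θ, |Real.log ‖eval₂ ic (tpt R θ) (ext e)‖| ≤ C1) ∧
      ∀ j θ, ‖lw (fun θ => eval₂ ic (tpt R θ) (ext e)) j θ -
        2 * Real.pi * Complex.I * ((Vx e j : ℝ) : ℂ)‖ ≤ δ0 := fun e => hlex (Sum.inl (Sum.inr e))
  have hnum : ∀ i l, Good (fun θ => eval₂ ic (tpt R θ) (rename (Fin.castAdd s) (χ (num i l)))) ∧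
      (∀ θ, |Real.log ‖eval₂ ic (tpt R θ) (rename (Fin.castAdd s) (χ (num i l)))‖| ≤ C1) ∧
      ∀ j θ, ‖lw (fun θ => eval₂ ic (tpt R θ) (rename (Fin.castAdd s) (χ (num i l)))) j θ -
        2 * Real.pi * Complex.I * (((Vn i l).mapDomain (Fin.castAdd s) j : ℝ) : ℂ)‖ ≤ δ0 :=
    fun i l => hlex (Sum.inr (i, l, true))
  have hden : ∀ i l, Good (fun θ => eval₂ ic (tpt R θ) (rename (Fin.castAdd s) (χ (den i l)))) ∧
      (∀ θ, |Real.log ‖eval₂ ic (tpt R θ) (rename (Fin.castAdd s) (χ (den i l)))‖| ≤ C1) ∧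
      ∀ j θ, ‖lw (fun θ => eval₂ ic (tpt R θ) (rename (Fin.castAdd s) (χ (den i l)))) j θ -
        2 * Real.pi * Complex.I * (((Vd i l).mapDomain (Fin.castAdd s) j : ℝ) : ℂ)‖ ≤ δ0 :=
    fun i l => hlex (Sum.inr (i, l, false))
  have hC1 : 0 ≤ C1 := (abs_nonneg _).trans (lA 0)
  have hLA := (logB_of gD lD wD).mul (logB_of gA lA wA)
  have hLB := (logB_of gF lF wF).mul (logB_of gH lH wH)
  set EA : ℝ := (δ0 + 2 * Real.pi * ∑ i, (VD i : ℝ)) + (δ0 + 2 * Real.pi * ∑ i, (VA i : ℝ))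
    with hEA
  set EB : ℝ := (δ0 + 2 * Real.pi * ∑ i, (VF i : ℝ)) + (δ0 + 2 * Real.pi * ∑ i, (VH i : ℝ))
    with hEB
  have hEA0 : 0 ≤ EA := by positivity
  have hEB0 : 0 ≤ EB := by positivity
  have hper : ∀ (q : MvPolynomial (Fin (n + s)) ℂ) (θ : Fin (n + s) → ℝ) (i : Fin (n + s)),
      eval₂ ic (tpt R (θ + Pi.single i 1)) q = eval₂ ic (tpt R θ) q := fun q θ i => by
    rw [tpt_add_single]
  obtain ⟨Λ, C2, hΛ, hC2, hz⟩ := exists_fib b hLA hLB hEA0 hEB0
    (P := fun j θ => eval₂ ic (tpt R θ) pD * eval₂ ic (tpt R θ) (cf χ (rename Sum.inl p) j))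
    (Q := fun j θ => eval₂ ic (tpt R θ) pF * eval₂ ic (tpt R θ) (cf χ H j))
    (fun j => by
      obtain ⟨C, hC⟩ := bdd_eval ic hR pD
      obtain ⟨D, hD⟩ := bdd_eval ic hR (cf χ (rename Sum.inl p) j)
      exact ⟨_, hC.mul hD⟩)
    (fun j => by
      obtain ⟨C, hC⟩ := bdd_eval ic hR pF
      obtain ⟨D, hD⟩ := bdd_eval ic hR (cf χ H j)
      exact ⟨_, hC.mul hD⟩)
    (fun θ i => by rw [hfD, hfA]; simp only [hper]) (fun θ i => by rw [hfF, hfH]; simp only [hper])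
    (fun j θ i => by simp only [hper]) (fun j θ i => by simp only [hper]) hδ0
  set CR : ℝ := ∑ i, |Real.log (R i)| with hCR
  have hCR0 : 0 ≤ CR := Finset.sum_nonneg fun i _ => abs_nonneg _
  have hRb : ∀ (l : Fin s) (θ : Fin (n + s) → ℝ), |Real.log ‖tpt R θ (Fin.natAdd n l)‖| ≤ CR := by
    intro l θ
    have h0 : ‖tpt R θ (Fin.natAdd n l)‖ = R (Fin.natAdd n l) := norm_circ (hR _).le _
    rw [h0]
    exact Finset.single_le_sum (f := fun i => |Real.log (R i)|)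
      (fun i _ => abs_nonneg _) (Finset.mem_univ (Fin.natAdd n l))
  set M : ℝ := (2 * C1 + C2 + CR + 1) / δ0 with hM
  set C0 : ℝ := C1 + C2 + CR + (δ0 + EA + EB) with hC0
  refine ⟨R, Λ + Real.exp M, C0, hR, by linarith [Real.exp_pos M], by positivity, fun e => ?_,
    fun l θ => ?_, fun l hlam => ?_⟩
  · obtain ⟨e1, e2, e3⟩ := hext e
    exact ⟨e1, fun θ => (e2 θ).trans (by linarith), fun j θ => (e3 j θ).trans hδ01⟩
  · exact (hRb l θ).trans (by linarith)
  have hexp := Real.exp_pos M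
  have hln : 0 < ‖l‖ := by linarith
  have hl0 : l ≠ 0 := norm_pos_iff.1 hln
  set L : ℝ := Real.log ‖l‖ with hL
  have hLM : M ≤ L := by
    rw [hL, Real.le_log_iff_exp_le hln]
    linarith
  have hM0 : 0 < M := by positivity
  have hL0 : 0 < L := by linarith
  have hsmall : 2 * C1 + C2 + CR + 1 ≤ L * δ0 := by
    have h1 : (2 * C1 + C2 + CR + 1) / δ0 ≤ L := hLM
    rwa [div_le_iff₀ hδ0] at h1
  obtain ⟨z0, z1, z2, z3, z4, z5, z6⟩ := hz l (by linarith)
  have htf0 : ∀ i, tfn χ R (num i) (den i) z0 0 = z0 := fun i => rfl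
  have htfu : ∀ i l, tfn χ R (num i) (den i) z0 (Fin.castAdd s l).succ = fun θ =>
      eval₂ ic (tpt R θ) (rename (Fin.castAdd s) (χ (num i l))) *
        (eval₂ ic (tpt R θ) (rename (Fin.castAdd s) (χ (den i l))))⁻¹ := by
    intro i l
    unfold tfn
    rw [Fin.cons_succ, Fin.append_left]
  have htfz : ∀ i l, tfn χ R (num i) (den i) z0 (Fin.natAdd n l).succ = fun θ =>
      tpt R θ (Fin.natAdd n l) := by
    intro i l
    unfold tfn
    rw [Fin.cons_succ, Fin.append_right]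
  have hgood : ∀ i m, Good (tfn χ R (num i) (den i) z0 m) := by
    intro i m
    refine Fin.cases ?_ (fun m => ?_) m
    · exact z1
    · refine Fin.addCases (fun l => ?_) (fun l => ?_) m
      · rw [htfu]
        exact (hnum i l).1.mul (good_inv (hden i l).1)
      · rw [htfz]
        exact good_tpt hR _
  refine ⟨z0, z1, z2, fun θ => ⟨?_, ?_⟩, fun θ => ⟨gF.ne_zero θ, gD.ne_zero θ⟩,
    fun θ => (z5 θ).trans (by linarith), fun j θ => ?_, hgood, fun i => ?_⟩
  · rw [eval_weqn_pt χ R hp hHd]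
    exact z3 θ
  · rw [eval_pderiv_w χ R hp hHd]
    exact z4 θ
  · have h1 := z6 j θ
    have h2 := hLA.lw_le j θ
    have h3 := hLB.lw_le j θ
    have h4 : lw z0 j θ = (lw z0 j θ - (lw (fun θ => fF θ * fH θ) j θ -
        lw (fun θ => fD θ * fA θ) j θ)) + lw (fun θ => fF θ * fH θ) j θ -
        lw (fun θ => fD θ * fA θ) j θ := by ring
    rw [h4]
    refine ((norm_sub_le _ _).trans (add_le_add ((norm_add_le _ _).trans
      (add_le_add h1 h3)) h2)).trans ?_
    linarith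
  · rw [← det_RG s om (RR i)]
    have hδi := hδ0S i
    have hδL : 6 * δ0 * L ≤ δ i * L := mul_le_mul_of_nonneg_right hδi hL0.le
    refine hclose i _ _ hL0.ne' (fun l => hgood i l) (fun l θ => ?_) (fun l j θ => ?_)
    · revert l
      refine Fin.cases ?_ (fun l => ?_)
      · rw [htf0]
        have e : RG s om (RR i) 0 0 = 1 := rfl
        rw [e]
        have h1 := z5 θ
        have h2 : Real.log ‖z0 θ‖ / L - 1 = (Real.log ‖z0 θ‖ - L) / L := by
          field_simp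
        rw [h2, abs_div, abs_of_pos hL0, div_lt_iff₀ hL0]
        refine lt_of_le_of_lt h1 ?_
        nlinarith
      · refine Fin.addCases (fun l => ?_) (fun k => ?_) l
        · rw [htfu, RG_row_u, Fin.cons_zero, sub_zero, abs_div, abs_of_pos hL0,
            div_lt_iff₀ hL0]
          have h1 := (hnum i l).1.ne_zero θ
          have h2 := (hden i l).1.ne_zero θ
          have h3 := (hnum i l).2.1 θ
          have h4 := (hden i l).2.1 θ
          have h5 : |Real.log ‖eval₂ ic (tpt R θ) (rename (Fin.castAdd s) (χ (num i l))) *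
              (eval₂ ic (tpt R θ) (rename (Fin.castAdd s) (χ (den i l))))⁻¹‖| ≤ 2 * C1 := by
            rw [norm_mul, norm_inv, Real.log_mul (norm_ne_zero_iff.2 h1)
              (inv_ne_zero (norm_ne_zero_iff.2 h2)), Real.log_inv]
            refine (abs_add_le _ _).trans ?_
            rw [abs_neg]
            linarith
          refine lt_of_le_of_lt h5 ?_
          nlinarith
        · rw [htfz, RG_row_y, Fin.cons_zero, sub_zero, abs_div, abs_of_pos hL0,
            div_lt_iff₀ hL0]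
          refine lt_of_le_of_lt (hRb k θ) ?_
          nlinarith
    · revert l
      refine Fin.cases ?_ (fun l => ?_)
      · rw [htf0, RG_row_z, Fin.cons_succ]
        have h1 := z6 j θ
        have h2 := wA j θ
        have h3 := wH j θ
        have h4 := wF j θ
        have h7 := wD j θ
        have h5 : lw (fun θ => fF θ * fH θ) j θ = lw fF j θ + lw fH j θ := lw_mul gF gH j θ
        have h8 : lw (fun θ => fD θ * fA θ) j θ = lw fD j θ + lw fA j θ := lw_mul gD gA j θ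
        rw [h5, h8] at h1
        have h6 : lw z0 j θ - 2 * Real.pi * Complex.I * (om j : ℝ) =
            (lw z0 j θ - (lw fF j θ + lw fH j θ - (lw fD j θ + lw fA j θ))) +
            (lw fF j θ - 2 * Real.pi * Complex.I * ((VF j : ℝ) : ℂ)) +
            (lw fH j θ - 2 * Real.pi * Complex.I * ((VH j : ℝ) : ℂ)) -
            (lw fD j θ - 2 * Real.pi * Complex.I * ((VD j : ℝ) : ℂ)) -
            (lw fA j θ - 2 * Real.pi * Complex.I * ((VA j : ℝ) : ℂ)) := by
          rw [hom]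
          push_cast
          ring
        rw [h6]
        refine lt_of_le_of_lt ((norm_sub_le _ _).trans (add_le_add ((norm_sub_le _ _).trans
          (add_le_add ((norm_add_le _ _).trans
          (add_le_add ((norm_add_le _ _).trans (add_le_add h1 h4)) h3)) h7)) h2)) ?_
        linarith
      · refine Fin.addCases (fun l => ?_) (fun k => ?_) l
        · rw [htfu, RG_row_u, Fin.cons_succ]
          have h1 := (hnum i l).2.2 j θ
          have h2 := (hden i l).2.2 j θ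
          have h3 : lw (fun θ => eval₂ ic (tpt R θ) (rename (Fin.castAdd s) (χ (num i l))) *
              (eval₂ ic (tpt R θ) (rename (Fin.castAdd s) (χ (den i l))))⁻¹) j θ =
              lw (fun θ => eval₂ ic (tpt R θ) (rename (Fin.castAdd s) (χ (num i l)))) j θ +
              -lw (fun θ => eval₂ ic (tpt R θ) (rename (Fin.castAdd s) (χ (den i l)))) j θ := by
            rw [lw_mul (hnum i l).1 (good_inv (hden i l).1) j θ, lw_inv (hden i l).1]
          have h4 : (Fin.append (RR i l) (fun _ : Fin s => (0 : ℝ)) : _ → ℝ) j =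
              ((Vn i l).mapDomain (Fin.castAdd s) j : ℝ) -
                ((Vd i l).mapDomain (Fin.castAdd s) j : ℝ) := by
            refine Fin.addCases (fun j => ?_) (fun k => ?_) j
            · rw [Fin.append_left, mapDomain_castAdd, mapDomain_castAdd]
            · rw [Fin.append_right, mapDomain_natAdd, mapDomain_natAdd, Nat.cast_zero, sub_zero]
          rw [h3, h4]
          have h5 : lw (fun θ => eval₂ ic (tpt R θ) (rename (Fin.castAdd s) (χ (num i l)))) j θ +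
              -lw (fun θ => eval₂ ic (tpt R θ) (rename (Fin.castAdd s) (χ (den i l)))) j θ -
              2 * Real.pi * Complex.I * ((((Vn i l).mapDomain (Fin.castAdd s) j : ℝ) -
                ((Vd i l).mapDomain (Fin.castAdd s) j : ℝ) : ℝ) : ℂ) =
              (lw (fun θ => eval₂ ic (tpt R θ) (rename (Fin.castAdd s) (χ (num i l)))) j θ -
                2 * Real.pi * Complex.I * (((Vn i l).mapDomain (Fin.castAdd s) j : ℝ) : ℂ)) -
              (lw (fun θ => eval₂ ic (tpt R θ) (rename (Fin.castAdd s) (χ (den i l)))) j θ -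
                2 * Real.pi * Complex.I * (((Vd i l).mapDomain (Fin.castAdd s) j : ℝ) : ℂ)) := by
            push_cast
            ring
          rw [h5]
          refine lt_of_le_of_lt ((norm_sub_le _ _).trans (add_le_add h1 h2)) ?_
          linarith
        · rw [htfz, RG_row_y, Fin.cons_succ]
          have h1 : lw (fun θ => tpt R θ (Fin.natAdd n k)) j θ =
              if j = Fin.natAdd n k then 2 * Real.pi * Complex.I else 0 :=
            lw_circ (hR _) (Fin.natAdd n k) j θ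
          rw [h1]
          have h0 : ((if j = Fin.natAdd n k then 2 * Real.pi * Complex.I else 0) -
              2 * Real.pi * Complex.I * ((if j = Fin.natAdd n k then 1 else 0 : ℝ) : ℂ) : ℂ) =
              0 := by
            split_ifs <;> simp
          rw [h0, norm_zero]
          exact hδ i

end Pool.Agent.Q16.LS
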