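import Pool.Agent.Q16.LS.Tower
import Pool.Agent.Q16.LS.Dom
set_option autoImplicit false

/-!
The products of the polynomials of a tower are not constant.
-/

namespace Pool.Agent.Q16.LS

open MvPolynomial

variable {K : Type*} [Field K] {n : ℕ} {r : Fin (n + 1) → ℕ}
  {φ : (j : Fin (n + 1)) → Fin (r j + 1) → MvPolynomial (Fin (n + 1)) K}
  {w : (j : Fin (n + 1)) → Fin (r j + 1) → ℕ}

theorem tPhi_ne_C (hv : ∀ j i, ∀ l ∈ (φ j i).vars, j < l) {lam : K} (hl : lam ≠ 0) (y : K) :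
    tPhi r φ w lam ≠ C y := by
  classical
  intro h
  have hne : tPhi r φ w lam ≠ 0 := mul_ne_zero (by simpa using hl) (tprod_ne_zero hv w)
  have hy : y ≠ 0 := by
    rintro rfl
    rw [C_0] at h
    exact hne h
  have h1 : X 0 - φ 0 0 ∣ C y := h ▸ fac_dvd_tPhi r φ w lam 0 0
  have h2 : IsUnit (X 0 - φ 0 0) := isUnit_of_dvd_unit h1 ((IsUnit.mk0 y hy).map C)
  obtain ⟨c, -, hc⟩ := MvPolynomial.isUnit_iff_eq_C_of_isReduced.1 h2
  have h3 := congrArg (coeff (Finsupp.single (0 : Fin (n + 1)) 1)) hc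
  have h6 : (0 : Fin (n + 1) →₀ ℕ) ≠ Finsupp.single 0 1 :=
    (Finsupp.single_ne_zero.2 one_ne_zero).symm
  rw [coeff_sub, coeff_X, coeff_C, if_neg h6, if_pos rfl, sub_eq_zero] at h3
  have h4 : Finsupp.single 0 1 ∈ (φ 0 0).support := mem_support_iff.2 (by
    rw [← h3]
    exact one_ne_zero)
  have h5 : 0 ∈ (φ 0 0).vars := (mem_vars 0).2 ⟨_, h4, by simp⟩
  exact lt_irrefl _ (hv 0 0 0 h5)

end Pool.Agent.Q16.LS
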