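import Pool.Agent.Q16.LS.WDefs
set_option autoImplicit false

/-!
Products of polynomials in one coordinate each: the hypersurfaces
`∏_j x_j ^ β_j p(z) = λ ∏_j ∏_i h_{j,i}(x_j) ^ (w_{j,i} + 1) H(z, x)`.
-/

namespace Pool.Agent.Q16.LS

open MvPolynomial

section defs

variable {K : Type*} [Field K] {s n : ℕ}

/-- The polynomial `q(x_j)`. -/
noncomputable def uv (j : Fin n) (q : Polynomial K) : MvPolynomial (Fin n) K :=
  Polynomial.aeval (X j) q

/-- The monomial `∏_j x_j ^ β_j`. -/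
noncomputable def pD (K : Type*) [Field K] (β : Fin n → ℕ) : MvPolynomial (Fin n) K :=
  ∏ j, X j ^ β j

variable (r : Fin n → ℕ) (h : (j : Fin n) → Fin (r j + 1) → Polynomial K)
  (w : (j : Fin n) → Fin (r j + 1) → ℕ) (lam : K) (β : Fin n → ℕ)

/-- The polynomial `λ ∏_j ∏_i h_{j,i}(x_j) ^ (w_{j,i} + 1)`. -/
noncomputable def pPhi : MvPolynomial (Fin n) K :=
  C lam * ∏ j, ∏ i, uv j (h j i) ^ (w j i + 1)

theorem fac_dvd_pPhi (j : Fin n) (i : Fin (r j + 1)) : uv j (h j i) ∣ pPhi r h w lam :=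
  Dvd.dvd.mul_left (((dvd_pow_self _ (Nat.succ_ne_zero _)).trans
    (Finset.dvd_prod_of_mem (fun i => uv j (h j i) ^ (w j i + 1)) (Finset.mem_univ i))).trans
    (Finset.dvd_prod_of_mem (fun j => ∏ i, uv j (h j i) ^ (w j i + 1)) (Finset.mem_univ j))) _

theorem fac_dvd (j : Fin n) (i : Fin (r j + 1)) :
    (rename Sum.inr (uv j (h j i)) : MvPolynomial (Fin (s + 1) ⊕ Fin n) K) ∣
      ldel s (pD K β * pPhi r h w lam) :=
  rename_dvd_ldel _ ((fac_dvd_pPhi r h w lam j i).mul_left _)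

variable (p : MvPolynomial (Fin (s + 1)) K) (H : MvPolynomial (Fin (s + 1) ⊕ Fin n) K)

/-- The unit `h_{j,i}(x_j)`. -/
noncomputable def pf (j : Fin n) (i : Fin (r j + 1)) : (WOpen p H (pD K β) (pPhi r h w lam))ˣ :=
  ou _ _ (fac_dvd r h w lam β j i)

/-- The unit `h_{j,k_j + 1}(x_j) ^ (deg h_{j,0}) / h_{j,0}(x_j) ^ (deg h_{j,k_j + 1})`, for
`0 ≤ k_j < r_j`. -/
noncomputable def pu (k : ∀ j, Fin (r j)) (j : Fin n) : (WOpen p H (pD K β) (pPhi r h w lam))ˣ :=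
  pf r h w lam β p H j (k j).succ ^ (h j 0).natDegree /
    pf r h w lam β p H j 0 ^ (h j (k j).succ).natDegree

/-- The entries `z_0`, `h_{j,k_j + 1}(x_j) ^ (deg h_{j,0}) / h_{j,0}(x_j) ^ (deg h_{j,k_j + 1})`,
`z_1, ..., z_s` of the symbols. -/
noncomputable def psym (k : ∀ j, Fin (r j)) :
    Fin (n + s + 1) → (WOpen p H (pD K β) (pPhi r h w lam))ˣ :=
  went p H (pD K β) (pPhi r h w lam) (pu r h w lam β p H k)

end defs

end Pool.Agent.Q16.LS
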