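import Pool.Agent.Q16.LS.PTori
import Pool.Agent.Q16.LS.Dom
set_option autoImplicit false

/-!
The coordinate rings of the hypersurfaces `p(z) = λ ∏_j ∏_i h_{j,i}(x_j) ^ (w_{j,i} + 1) H(z, x)`.
-/

namespace Pool.Agent.Q16.LS

open MvPolynomial

variable {K : Type*} [Field K] {s n : ℕ} {r : Fin (n + 1) → ℕ}
  {h : (j : Fin (n + 1)) → Fin (r j + 1) → Polynomial K}
  {w : (j : Fin (n + 1)) → Fin (r j + 1) → ℕ}

theorem pPhi_ne_C (hm : ∀ j i, (h j i).Monic) (hdeg : ∀ j i, 0 < (h j i).natDegree) {lam : K}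
    (hl : lam ≠ 0) (y : K) : pPhi r h w lam ≠ C y := by
  classical
  intro he
  have hne : pPhi r h w lam ≠ 0 := mul_ne_zero (by simpa using hl) (pprod_ne_zero hm w)
  have hy : y ≠ 0 := by
    rintro rfl
    rw [C_0] at he
    exact hne he
  have h1 : uv 0 (h 0 0) ∣ C y := he ▸ fac_dvd_pPhi r h w lam 0 0
  have h2 : IsUnit (uv 0 (h 0 0)) := isUnit_of_dvd_unit h1 ((IsUnit.mk0 y hy).map C)
  obtain ⟨c, -, hc⟩ := MvPolynomial.isUnit_iff_eq_C_of_isReduced.1 h2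
  have h3 := congrArg (coeff (Finsupp.single (0 : Fin (n + 1)) (h 0 0).natDegree)) hc
  have h6 : (0 : Fin (n + 1) →₀ ℕ) ≠ Finsupp.single 0 (h 0 0).natDegree :=
    (Finsupp.single_ne_zero.2 (hdeg 0 0).ne').symm
  rw [coeff_uv_single, coeff_C, if_neg h6, Polynomial.coeff_natDegree, (hm 0 0).leadingCoeff] at h3
  exact one_ne_zero h3

theorem weqn_one (p : MvPolynomial (Fin (s + 1)) K) (H : MvPolynomial (Fin (s + 1) ⊕ Fin n) K)
    (Φ : MvPolynomial (Fin n) K) : weqn p H (pD K fun _ => 0) Φ = leqn p H Φ := by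
  unfold weqn leqn pD
  simp only [pow_zero, Finset.prod_const_one, map_one, one_mul]

theorem isDomain_P {p : MvPolynomial (Fin (s + 1)) K}
    {H : MvPolynomial (Fin (s + 1) ⊕ Fin (n + 1)) K} {b : ℕ} (hp : p.degreeOf 0 = b + 1)
    (hHd : H.degreeOf (Sum.inl 0) = b) (hI : Irr p H) (hm : ∀ j i, (h j i).Monic)
    (hdeg : ∀ j i, 0 < (h j i).natDegree) {lam : K} (hl : lam ≠ 0) :
    IsDomain (VRing (weqn p H (pD K fun _ => 0) (pPhi r h w lam))) := by
  rw [weqn_one]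
  exact isDomain_VRing hp hHd hI (pPhi_ne_C hm hdeg hl)

end Pool.Agent.Q16.LS
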