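import Pool.Agent.Q16.LS.WTorus
set_option autoImplicit false

/-!
The regulators of the symbols on the hypersurfaces
`∏_j x_j ^ β_j p(z) = λ ∏_j ∏_i h_{j,i}(x_j) ^ (w_{j,i} + 1) H(z, x)`.
-/

namespace Pool.Agent.Q16.LS

open MvPolynomial

open Pool.Agent.Q16.UF (LexLead)

open Pool.Agent.TH826.MK

open Pool.Agent.TH826.SX (det_ne_zero_near)

section uv

variable {K : Type*} [Field K] {n : ℕ}

theorem uv_eq_sum (j : Fin n) (q : Polynomial K) :
    uv j q = ∑ i ∈ q.support, monomial (Finsupp.single j i) (q.coeff i) := by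
  unfold uv
  rw [Polynomial.aeval_def, Polynomial.eval₂_eq_sum, Polynomial.sum_def]
  refine Finset.sum_congr rfl fun i _ => ?_
  rw [algebraMap_eq, C_mul_X_pow_eq_monomial]

theorem coeff_uv_single (j : Fin n) (q : Polynomial K) (i : ℕ) :
    coeff (Finsupp.single j i) (uv j q) = q.coeff i := by
  classical
  rw [uv_eq_sum, coeff_sum]
  simp only [coeff_monomial]
  by_cases hi : i ∈ q.support
  · rw [Finset.sum_eq_single i]
    · rw [if_pos rfl]
    · intro i' _ hne
      rw [if_neg fun h => hne (Finsupp.single_injective j h)]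
    · exact fun h => absurd hi h
  · rw [Polynomial.notMem_support_iff.1 hi]
    refine Finset.sum_eq_zero fun i' hi' => ?_
    rw [if_neg fun h => hi ?_]
    rw [← Finsupp.single_injective j h]
    exact hi'

theorem exists_of_mem_support_uv {j : Fin n} {q : Polynomial K} {m : Fin n →₀ ℕ}
    (hm : m ∈ (uv j q).support) : ∃ i ∈ q.support, m = Finsupp.single j i := by
  classical
  rw [uv_eq_sum] at hm
  have h1 := MvPolynomial.support_sum hm
  rw [Finset.mem_biUnion] at h1
  obtain ⟨i, hi, h2⟩ := h1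
  exact ⟨i, hi, Finset.mem_singleton.1 (support_monomial_subset h2)⟩

theorem uv_ne_zero (j : Fin n) {q : Polynomial K} (hq : q ≠ 0) : uv j q ≠ 0 := by
  intro h
  apply hq
  ext i
  rw [← coeff_uv_single j, h, coeff_zero, Polynomial.coeff_zero]

theorem lexLead_uv (j : Fin n) {q : Polynomial K} (hq : q ≠ 0) :
    LexLead (uv j q) (Finsupp.single j q.natTrailingDegree) := by
  classical
  refine ⟨?_, fun a ha hne => ?_⟩
  · rw [mem_support_iff, coeff_uv_single]
    exact Polynomial.trailingCoeff_nonzero_iff_nonzero.2 hq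
  · obtain ⟨i, hi, rfl⟩ := exists_of_mem_support_uv ha
    have h1 : q.natTrailingDegree ≤ i := Polynomial.natTrailingDegree_le_of_mem_supp i hi
    have h2 : q.natTrailingDegree ≠ i := fun h => hne (by rw [h])
    refine ⟨j, fun l hl => ?_, ?_⟩
    · rw [Finsupp.single_eq_of_ne hl.ne, Finsupp.single_eq_of_ne hl.ne]
    · rw [Finsupp.single_eq_same, Finsupp.single_eq_same]
      omega

theorem uv_pow (j : Fin n) (q : Polynomial K) (m : ℕ) : uv j (q ^ m) = uv j q ^ m := by
  unfold uv
  rw [map_pow]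

theorem map_uv {L : Type*} [Field L] (σ : K →+* L) (j : Fin n) (q : Polynomial K) :
    map σ (uv j q) = uv j (q.map σ) := by
  ext m
  rw [coeff_map]
  by_cases hm : ∃ i, m = Finsupp.single j i
  · obtain ⟨i, rfl⟩ := hm
    rw [coeff_uv_single, coeff_uv_single, Polynomial.coeff_map]
  · have h1 : coeff m (uv j q) = 0 := by
      by_contra h
      obtain ⟨i, -, hi⟩ := exists_of_mem_support_uv (mem_support_iff.2 h)
      exact hm ⟨i, hi⟩
    have h2 : coeff m (uv j (q.map σ)) = 0 := by
      by_contra h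
      obtain ⟨i, -, hi⟩ := exists_of_mem_support_uv (mem_support_iff.2 h)
      exact hm ⟨i, hi⟩
    rw [h1, h2, map_zero]

/-- The translation by `α`. -/
noncomputable def tr (α : Fin n → K) : MvPolynomial (Fin n) K →ₐ[K] MvPolynomial (Fin n) K :=
  aeval fun j => X j + C (α j)

theorem tr_tr (α : Fin n → K) (q : MvPolynomial (Fin n) K) :
    tr (fun j => -α j) (tr α q) = q := by
  have h : (tr fun j => -α j).comp (tr α) = AlgHom.id K _ := by
    refine algHom_ext fun j => ?_
    rw [AlgHom.comp_apply, AlgHom.id_apply]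
    unfold tr
    rw [aeval_X, map_add, aeval_X, ← algebraMap_eq, AlgHom.commutes, algebraMap_eq, C_neg]
    ring
  exact congrArg (fun F : MvPolynomial (Fin n) K →ₐ[K] MvPolynomial (Fin n) K => F q) h

theorem tr_uv (α : Fin n → K) (j : Fin n) (q : Polynomial K) :
    tr α (uv j q) = uv j (q.comp (Polynomial.X + Polynomial.C (α j))) := by
  unfold uv
  rw [← Polynomial.aeval_algHom_apply, Polynomial.aeval_comp]
  congr 1
  unfold tr
  rw [aeval_X, map_add, Polynomial.aeval_X, Polynomial.aeval_C, algebraMap_eq]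

theorem lexLead_tr_uv (α : Fin n → K) (j : Fin n) {q : Polynomial K} (hq : q ≠ 0) :
    LexLead (tr α (uv j q)) (Finsupp.single j (q.rootMultiplicity (α j))) := by
  rw [tr_uv, Polynomial.rootMultiplicity_eq_natTrailingDegree]
  refine lexLead_uv j fun h => hq ?_
  exact (Polynomial.comp_eq_zero_iff.1 h).elim id fun h2 => by
    exfalso
    have h3 := congrArg (fun q => Polynomial.coeff q 1) h2.2
    simp at h3

theorem rootMultiplicity_pow' (q : Polynomial K) (hq : q ≠ 0) (α : K) (m : ℕ) :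
    (q ^ m).rootMultiplicity α = m * q.rootMultiplicity α := by
  induction m with
  | zero =>
    rw [pow_zero, zero_mul]
    exact Polynomial.rootMultiplicity_eq_zero (by simp [Polynomial.IsRoot])
  | succ m ih =>
    rw [pow_succ, Polynomial.rootMultiplicity_mul (mul_ne_zero (pow_ne_zero m hq) hq), ih]
    ring

end uv

section final

variable {K : Type*} [Field K] {s n : ℕ} {r : Fin n → ℕ}
  {h : (j : Fin n) → Fin (r j + 1) → Polynomial K}

theorem pprod_ne_zero (hm : ∀ j i, (h j i).Monic) (w : (j : Fin n) → Fin (r j + 1) → ℕ) :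
    ∏ j, ∏ i, uv j (h j i) ^ (w j i + 1) ≠ (0 : MvPolynomial (Fin n) K) :=
  Finset.prod_ne_zero_iff.2 fun j _ => Finset.prod_ne_zero_iff.2 fun i _ =>
    pow_ne_zero _ (uv_ne_zero j (hm j i).ne_zero)

theorem pD_ne_zero (β : Fin n → ℕ) : pD K β ≠ 0 :=
  Finset.prod_ne_zero_iff.2 fun j _ => pow_ne_zero _ (X_ne_zero j)

/-- The tori and the regulators of the symbols. -/
theorem exists_tori_P (σ : K →+* ℂ) {p : MvPolynomial (Fin (s + 1)) K} {b : ℕ}
    (hp : p.degreeOf 0 = b + 1) {H : MvPolynomial (Fin (s + 1) ⊕ Fin n) K} (hH : H ≠ 0)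
    (hHd : H.degreeOf (Sum.inl 0) = b) (hm : ∀ j i, (h j i).Monic)
    (hdeg : ∀ j i, 0 < (h j i).natDegree)
    (hco : ∀ j i i', i ≠ i' → IsCoprime (h j i) (h j i')) (β : Fin n → ℕ)
    (w : (j : Fin n) → Fin (r j + 1) → ℕ) :
    ∃ C : ℝ, 1 ≤ C ∧ ∀ lam : K, C ≤ ‖σ lam‖ →
      ∃ Γ : (∀ j, Fin (r j)) → Torus (WOpen p H (pD K β) (pPhi r h w lam)) (n + s),
        (∀ t θ, ∃ (z : Fin (s + 1) → ℂ) (x : Fin n → ℂ),
          (∀ q, (Γ t).e θ (opol _ _ q) = eval₂ σ (Sum.elim z x) q) ∧
          eval₂ σ (Sum.elim z x)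
            (pderiv (Sum.inl 0) (weqn p H (pD K β) (pPhi r h w lam))) ≠ 0) ∧
        (Matrix.of fun t k : ∀ j, Fin (r j) =>
          (Γ t).reg (symb (psym r h w lam β p H k))).det ≠ 0 := by
  classical
  have hroot : ∀ j i, ∃ α : ℂ, ((h j i).map σ).eval α = 0 := by
    intro j i
    refine IsAlgClosed.exists_root _ ?_
    rw [Polynomial.degree_map, Polynomial.degree_eq_natDegree (hm j i).ne_zero]
    exact_mod_cast (hdeg j i).ne'
  choose α hα using hroot
  have hmapne : ∀ j i, (h j i).map σ ≠ 0 := fun j i => ((hm j i).map σ).ne_zero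
  have hmult : ∀ j i i', i ≠ i' → ((h j i').map σ).rootMultiplicity (α j i) = 0 := by
    intro j i i' hne
    refine Polynomial.rootMultiplicity_eq_zero fun hr => ?_
    obtain ⟨a, c, hac⟩ := (hco j i i' hne).map (Polynomial.mapRingHom σ)
    have h1 := congrArg (Polynomial.eval (α j i)) hac
    rw [Polynomial.coe_mapRingHom, Polynomial.eval_add, Polynomial.eval_mul, Polynomial.eval_mul,
      hα, hr.eq_zero, mul_zero, mul_zero, add_zero, Polynomial.eval_one] at h1
    exact zero_ne_one h1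
  have hmult1 : ∀ j i, 0 < ((h j i).map σ).rootMultiplicity (α j i) := fun j i =>
    (Polynomial.rootMultiplicity_pos (hmapne j i)).2 (hα j i)
  set αt : (∀ j, Fin (r j)) → Fin n → ℂ := fun t j => α j (t j).succ with hαt
  set Vn : (∀ j, Fin (r j)) → (∀ j, Fin (r j)) → Fin n → Fin n →₀ ℕ := fun t k l =>
    Finsupp.single l ((h l 0).natDegree * ((h l (k l).succ).map σ).rootMultiplicity (αt t l))
    with hVn
  set Vd : (∀ j, Fin (r j)) → (∀ j, Fin (r j)) → Fin n → Fin n →₀ ℕ := fun t k l =>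
    Finsupp.single l ((h l (k l).succ).natDegree * ((h l 0).map σ).rootMultiplicity (αt t l))
    with hVd
  have hdet : ∀ t k, (Matrix.of fun l j : Fin n => (Vn t k l j : ℝ) - Vd t k l j).det =
      if t = k then ∏ l, (((h l 0).natDegree : ℝ) *
        ((h l (k l).succ).map σ).rootMultiplicity (αt t l)) else 0 := by
    intro t k
    have h1 : (Matrix.of fun l j : Fin n => (Vn t k l j : ℝ) - Vd t k l j) =
        Matrix.diagonal fun l => ((h l 0).natDegree : ℝ) *
          ((h l (k l).succ).map σ).rootMultiplicity (αt t l) := by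
      ext l j
      rw [Matrix.of_apply, Matrix.diagonal_apply, hVn, hVd]
      have h2 : ((h l 0).map σ).rootMultiplicity (αt t l) = 0 :=
        hmult l (t l).succ 0 (Fin.succ_ne_zero _)
      simp only [h2, mul_zero, Finsupp.single_zero, Finsupp.coe_zero, Pi.zero_apply,
        Nat.cast_zero, sub_zero]
      by_cases hlj : l = j
      · subst hlj
        rw [Finsupp.single_eq_same, if_pos rfl, Nat.cast_mul]
      · rw [Finsupp.single_eq_of_ne (Ne.symm hlj), if_neg hlj, Nat.cast_zero]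
    rw [h1, Matrix.det_diagonal]
    by_cases htk : t = k
    · rw [if_pos htk]
    · rw [if_neg htk]
      obtain ⟨l, hl⟩ := Function.ne_iff.1 htk
      refine Finset.prod_eq_zero (Finset.mem_univ l) ?_
      have h2 : ((h l (k l).succ).map σ).rootMultiplicity (αt t l) = 0 :=
        hmult l (t l).succ (k l).succ fun e => hl (Fin.succ_injective _ e)
      rw [h2, Nat.cast_zero, mul_zero]
  set D0 : ℝ := (2 * Real.pi) ^ (n + s) with hD0
  have hD : D0 ≠ 0 := by
    have := Real.pi_pos
    positivity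
  set dg : (∀ j, Fin (r j)) → ℝ := fun t => ∏ l, (((h l 0).natDegree : ℝ) *
    ((h l (t l).succ).map σ).rootMultiplicity (αt t l)) with hdg
  have hdg0 : ∀ t, dg t ≠ 0 := by
    intro t
    refine Finset.prod_ne_zero_iff.2 fun l _ => mul_ne_zero ?_ ?_
    · exact_mod_cast (hdeg l 0).ne'
    · exact_mod_cast (hmult1 l (t l).succ).ne'
  set R : Matrix (∀ j, Fin (r j)) (∀ j, Fin (r j)) ℝ := Matrix.of fun t k =>
    (Matrix.of fun l j : Fin n => (Vn t k l j : ℝ) - Vd t k l j).det with hR
  have hR1 : R = Matrix.diagonal dg := by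
    ext t k
    rw [hR, Matrix.of_apply, hdet, Matrix.diagonal_apply]
    by_cases htk : t = k
    · rw [if_pos htk, if_pos htk, hdg, htk]
    · rw [if_neg htk, if_neg htk]
  have hlead : (D0 • R).det ≠ 0 := by
    rw [Matrix.det_smul, hR1, Matrix.det_diagonal]
    exact mul_ne_zero (pow_ne_zero _ hD) (Finset.prod_ne_zero_iff.2 fun t _ => hdg0 t)
  obtain ⟨δ, hδ, hdet'⟩ := det_ne_zero_near _ hlead
  have hu : ∀ (lam : K) (k : ∀ j, Fin (r j)) (l : Fin n) (x : Fin (s + 1) ⊕ Fin n → ℂ)
      (hx : VPt σ (weqn p H (pD K β) (pPhi r h w lam)) (ldel s (pD K β * pPhi r h w lam)) x),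
      hx.ev (pu r h w lam β p H k l : WOpen p H (pD K β) (pPhi r h w lam)) =
        eval₂ σ (fun j => x (Sum.inr j)) (uv l (h l (k l).succ ^ (h l 0).natDegree)) *
          (eval₂ σ (fun j => x (Sum.inr j)) (uv l (h l 0 ^ (h l (k l).succ).natDegree)))⁻¹ := by
    intro lam k l x hx
    have h2 : ∀ i, hx.ev (pf r h w lam β p H l i : WOpen p H (pD K β) (pPhi r h w lam)) =
        eval₂ σ (fun j => x (Sum.inr j)) (uv l (h l i)) := by
      intro i
      show hx.ev (opol _ _ (rename Sum.inr (uv l (h l i)))) = _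
      rw [hx.ev_opol, eval₂_rename]
      rfl
    have h3 : ((pu r h w lam β p H k l : (WOpen p H (pD K β) (pPhi r h w lam))ˣ) :
        WOpen p H (pD K β) (pPhi r h w lam)) *
        (pf r h w lam β p H l 0 : WOpen p H (pD K β) (pPhi r h w lam)) ^
          (h l (k l).succ).natDegree =
        (pf r h w lam β p H l (k l).succ : WOpen p H (pD K β) (pPhi r h w lam)) ^
          (h l 0).natDegree := by
      rw [← Units.val_pow_eq_pow_val, ← Units.val_pow_eq_pow_val, ← Units.val_mul]
      unfold pu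
      rw [div_mul_cancel]
    have h4 := congrArg hx.ev h3
    rw [map_mul, map_pow, map_pow, h2, h2] at h4
    have h5 : eval₂ σ (fun j => x (Sum.inr j)) (uv l (h l 0)) ≠ 0 := by
      rw [← h2]
      exact ((pf r h w lam β p H l 0).isUnit.map hx.ev).ne_zero
    rw [uv_pow, uv_pow, eval₂_pow, eval₂_pow, ← div_eq_mul_inv]
    exact eq_div_of_mul_eq (pow_ne_zero _ h5) h4
  have key : ∀ t : ∀ j, Fin (r j), ∃ Λ : ℝ, 1 < Λ ∧ ∀ lam : K, Λ ≤ ‖σ lam‖ →
      ∃ Γ : Torus (WOpen p H (pD K β) (pPhi r h w lam)) (n + s),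
        (∀ θ, ∃ (z : Fin (s + 1) → ℂ) (x : Fin n → ℂ),
          (∀ q, Γ.e θ (opol _ _ q) = eval₂ σ (Sum.elim z x) q) ∧
          eval₂ σ (Sum.elim z x)
            (pderiv (Sum.inl 0) (weqn p H (pD K β) (pPhi r h w lam))) ≠ 0) ∧
        ∀ k, |Γ.reg (symb (psym r h w lam β p H k)) / Real.log ‖σ lam‖ - (2 * Real.pi) ^ (n + s) *
            (Matrix.of fun l j : Fin n => (Vn t k l j : ℝ) - Vd t k l j).det| ≤ δ / 2 :=
    fun t => exists_torus_W (ι := ∀ j, Fin (r j)) σ hp hH hHd (tr (αt t))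
      (tr fun j => -αt t j) (tr_tr _) (pprod_ne_zero hm w) (pD_ne_zero β)
      (fun k l => uv l (h l (k l).succ ^ (h l 0).natDegree))
      (fun k l => uv l (h l 0 ^ (h l (k l).succ).natDegree)) (Vn t) (Vd t)
      (fun k l => by
        rw [map_uv, Polynomial.map_pow]
        have h1 := lexLead_tr_uv (αt t) l (pow_ne_zero (h l 0).natDegree
          (hmapne l (k l).succ))
        rw [rootMultiplicity_pow' _ (hmapne l (k l).succ)] at h1
        exact h1)
      (fun k l => by
        rw [map_uv, Polynomial.map_pow]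
        have h1 := lexLead_tr_uv (αt t) l (pow_ne_zero (h l (k l).succ).natDegree
          (hmapne l 0))
        rw [rootMultiplicity_pow' _ (hmapne l 0)] at h1
        exact h1)
      (fun lam k => pu r h w lam β p H k) hu (ε := δ / 2) (by linarith)
  choose Λ hΛ1 hΛ using key
  set C : ℝ := ∑ t, |Λ t| + 2 with hC
  have hsum : 0 ≤ ∑ t, |Λ t| := Finset.sum_nonneg fun J _ => abs_nonneg _
  have hΛC : ∀ t, Λ t ≤ C := by
    intro t
    have h1 := Finset.single_le_sum (f := fun t => |Λ t|) (fun t _ => abs_nonneg _)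
      (Finset.mem_univ t)
    have h2 := le_abs_self (Λ t)
    have h3 : |Λ t| ≤ ∑ t, |Λ t| := h1
    linarith
  refine ⟨C, by linarith, fun lam hlam => ?_⟩
  choose Γ hΓ1 hΓ2 using fun t => hΛ t lam ((hΛC t).trans hlam)
  refine ⟨Γ, hΓ1, ?_⟩
  have hs : Real.log ‖σ lam‖ ≠ 0 := by
    have : 0 < Real.log ‖σ lam‖ := Real.log_pos (by linarith)
    linarith
  set L : ℝ := Real.log ‖σ lam‖ with hL
  have h1 : (Matrix.of fun t k : ∀ j, Fin (r j) =>
      (Γ t).reg (symb (psym r h w lam β p H k)) / L).det ≠ 0 := by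
    refine hdet' _ fun t i => ?_
    rw [Matrix.of_apply, Matrix.smul_apply, hR, Matrix.of_apply, smul_eq_mul]
    exact lt_of_le_of_lt (hΓ2 t i) (show δ / 2 < δ by linarith)
  have h2 : (Matrix.of fun t k : ∀ j, Fin (r j) =>
      (Γ t).reg (symb (psym r h w lam β p H k))) =
      L • (Matrix.of fun t k : ∀ j, Fin (r j) =>
        (Γ t).reg (symb (psym r h w lam β p H k)) / L) := by
    ext t i
    rw [Matrix.smul_apply, Matrix.of_apply, Matrix.of_apply, smul_eq_mul]
    field_simp
  rw [h2, Matrix.det_smul]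
  exact mul_ne_zero (pow_ne_zero _ hs) h1

end final

end Pool.Agent.Q16.LS
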