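import Pool.Agent.Q16.LS.Defs
import Pool.Agent.Q16.BF.Unram
import Pool.Agent.Q16.UF.Base
set_option autoImplicit false

/-!
The symbols `{z_0, u_1, ..., u_n, z_1, ..., z_s}` on the hypersurfaces `p(z) = Φ(x) H(z, x)`.
-/

namespace Pool.Agent.Q16.LS

open scoped WithZero

open Pool.Agent.Q16.BF

open Pool.Agent.TH826.MK (KQ symb Unramified unitPart)

open Pool.Agent.TH826.EF (onePart onePart_le)

open Pool.Agent.TH690.SF (mem_onePart_of_comp)

section fibre

variable {K L : Type*} [Field K] [Field L] {N : ℕ} (g : K →+* L) (v : Valuation L ℤᵐ⁰)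

theorem fibreH {p : MvPolynomial (Fin (N + 1)) K} (hp0 : p ≠ 0) {t : Fin (N + 1) → Lˣ}
    (hp : Gd g v t p) {φ η : L} (hφ : v φ ≤ 1) (heq : evp g t p = φ * η)
    (b : Fin (N + 1) → ℕ) (hb : v η ≤ v (tm t (ex b) : L))
    (hint : ∀ u : Fin (N + 1) → ℤ, u ≠ 0 → ∃ a ∈ p.support,
      ∑ i, u i * (b i : ℤ) < ∑ i, u i * (a i : ℤ)) :
    symb t ∈ onePart v (N + 1) ∨ ((∀ i, v (t i : L) = 1) ∧ v φ = 1) := by
  by_cases hone : symb t ∈ onePart v (N + 1)
  · exact Or.inl hone
  right
  have hle : ∀ a ∈ p.support, v (tm t (ex a) : L) ≤ v φ * v η := by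
    intro a ha
    by_contra hcon
    push Not at hcon
    refine hone (hp a ha ?_)
    rw [heq, map_mul]
    exact hcon
  have h0 : ∀ x : Lˣ, v (x : L) ≠ 0 := fun x => (Valuation.ne_zero_iff v).2 x.ne_zero
  have hu : (fun i => WithZero.log (v (t i : L))) = 0 := by
    by_contra hne
    obtain ⟨a, ha, hlt⟩ := hint _ hne
    have h1 := (hle a ha).trans (mul_le_mul' hφ hb)
    rw [one_mul, ← WithZero.log_le_log (h0 _) (h0 _), log_tm, log_tm] at h1
    exact absurd h1 (not_le.2 hlt)
  have hti : ∀ i, v (t i : L) = 1 := by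
    intro i
    have h1 : WithZero.log (v (t i : L)) = 0 := congrFun hu i
    rw [← WithZero.exp_log (h0 (t i)), h1, WithZero.exp_zero]
  refine ⟨hti, le_antisymm hφ ?_⟩
  obtain ⟨a, ha⟩ : p.support.Nonempty := by
    rw [Finset.nonempty_iff_ne_empty, Ne, MvPolynomial.support_eq_empty]
    exact hp0
  have h1 := (hle a ha).trans (mul_le_mul' le_rfl hb)
  have h2 : ∀ b : Fin (N + 1) → ℤ, v (tm t b : L) = 1 := by
    intro b
    have h3 : WithZero.log (v (tm t b : L)) = 0 := by
      rw [log_tm]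
      simp [hti]
    rw [← WithZero.exp_log (h0 (tm t b)), h3, WithZero.exp_zero]
  rwa [h2, h2, mul_one] at h1

end fibre

section Unram

variable {K : Type*} [Field K] {s n : ℕ} {p : MvPolynomial (Fin (s + 1)) K}
  {H : MvPolynomial (Fin (s + 1) ⊕ Fin n) K} {Φ : MvPolynomial (Fin n) K}

theorem lent_iu (u : Fin n → (LOpen p H Φ)ˣ) (j : Fin n) : lent p H Φ u (iu n s j) = u j := by
  unfold lent iu
  rw [Fin.cons_succ, Fin.append_left]

theorem lent_iz (u : Fin n → (LOpen p H Φ)ˣ) (i : Fin (s + 1)) :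
    lent p H Φ u (iz n s i) = ou _ _ (X_dvd_ldel Φ i) := by
  refine Fin.cases ?_ (fun i => ?_) i
  · rfl
  · unfold lent iz
    rw [Fin.cons_succ, Fin.cons_succ, Fin.append_right]

variable {L : Type*} [Field L] (f : LOpen p H Φ →+* L)

/-- The value of `H`. -/
theorem exists_mono (hH0 : H ≠ 0) (hH : ∀ m, IsIntegral ℤ (H.coeff m))
    (F : MvPolynomial (Fin (s + 1) ⊕ Fin n) K →+* L) (v : Valuation L ℤᵐ⁰)
    (t : Fin (s + 1) → Lˣ) (ht : ∀ i, (t i : L) = F (MvPolynomial.X (Sum.inl i)))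
    (hx : ∀ j, v (F (MvPolynomial.X (Sum.inr j))) ≤ 1) :
    ∃ b ∈ H.support, v (F H) ≤ v (tm t (ex fun i => b (Sum.inl i)) : L) := by
  classical
  have hne : H.support.Nonempty := by
    rw [Finset.nonempty_iff_ne_empty, Ne, MvPolynomial.support_eq_empty]
    exact hH0
  obtain ⟨b, hb, hmax⟩ := Finset.exists_max_image H.support
    (fun b => v (tm t (ex fun i => b (Sum.inl i)) : L)) hne
  refine ⟨b, hb, ?_⟩
  have e : F H = ∑ k ∈ H.support, F (MvPolynomial.C (H.coeff k)) *
      ((∏ i, F (MvPolynomial.X (Sum.inl i)) ^ k (Sum.inl i)) *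
        ∏ j, F (MvPolynomial.X (Sum.inr j)) ^ k (Sum.inr j)) := by
    conv_lhs => rw [MvPolynomial.as_sum H, map_sum]
    refine Finset.sum_congr rfl fun k _ => ?_
    rw [MvPolynomial.monomial_eq, map_mul, Finsupp.prod_fintype _ _ (fun i => pow_zero _), map_prod,
      Fintype.prod_sum_type]
    simp only [map_pow]
  rw [e]
  refine Valuation.map_sum_le v fun k hk => ?_
  refine le_trans ?_ (hmax k hk)
  rw [map_mul, map_mul, map_prod, coe_tm]
  have h1 : v (F (MvPolynomial.C (H.coeff k))) ≤ 1 :=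
    Pool.Agent.TH826.MK.val_le_one_of_integral v
      (map_isIntegral_int (F.comp MvPolynomial.C) (hH k))
  have h2 : v (∏ j, F (MvPolynomial.X (Sum.inr j)) ^ k (Sum.inr j)) ≤ 1 := by
    rw [map_prod]
    refine Finset.prod_le_one' fun j _ => ?_
    rw [map_pow]
    exact pow_le_one' (hx j) _
  have h3 : ∏ i, v (F (MvPolynomial.X (Sum.inl i)) ^ k (Sum.inl i)) =
      v (∏ i, (t i : L) ^ k (Sum.inl i)) := by
    rw [map_prod]
    simp only [ht]
  rw [h3]
  calc v (F (MvPolynomial.C (H.coeff k))) * (v (∏ i, (t i : L) ^ k (Sum.inl i)) *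
        v (∏ j, F (MvPolynomial.X (Sum.inr j)) ^ k (Sum.inr j)))
      ≤ 1 * (v (∏ i, (t i : L) ^ k (Sum.inl i)) * 1) := mul_le_mul' h1 (mul_le_mul' le_rfl h2)
    _ = v (∏ i, (t i : L) ^ k (Sum.inl i)) := by rw [one_mul, mul_one]

/-- The symbols of the entries lie in the unit part, if the symbol of the entries `u_j` lies in
`onePart`, or the `x_j` and `Φ` are integral and the `u_j` are units in case `Φ` is a unit. -/
theorem lent_mem_unitPart (hp0 : p ≠ 0) (hp : IsSplitPoly p) (hH0 : H ≠ 0)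
    (hH : ∀ m, IsIntegral ℤ (H.coeff m)) (hint : InteriorH p H) (v : Valuation L ℤᵐ⁰)
    (u : Fin n → (LOpen p H Φ)ˣ)
    (hb : symb (fun j => Units.map (f : LOpen p H Φ →* L) (u j)) ∈ onePart v n ∨
      ((∀ j, v (f (opol (leqn p H Φ) (ldel s Φ) (MvPolynomial.X (Sum.inr j)))) ≤ 1) ∧
      v (f (opol (leqn p H Φ) (ldel s Φ) (MvPolynomial.rename Sum.inr Φ))) ≤ 1 ∧
      (v (f (opol (leqn p H Φ) (ldel s Φ) (MvPolynomial.rename Sum.inr Φ))) = 1 →
        ∀ j, v (f (u j : LOpen p H Φ)) = 1))) :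
    symb (fun l => Units.map (f : LOpen p H Φ →* L) (lent p H Φ u l)) ∈
      unitPart v (n + s + 1) := by
  set F : MvPolynomial (Fin (s + 1) ⊕ Fin n) K →+* L :=
    f.comp (opol (leqn p H Φ) (ldel s Φ)) with hF
  set t : Fin (s + 1) → Lˣ := fun i =>
    Units.map (f : LOpen p H Φ →* L) (ou _ _ (X_dvd_ldel Φ i)) with ht
  have htv : ∀ i, (t i : L) = F (MvPolynomial.X (Sum.inl i)) := fun i => rfl
  rcases hb with hb | ⟨hx, hle, hone⟩
  · refine onePart_le v (mem_onePart_of_comp v _ (iu_injective n s) ?_)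
    simp only [lent_iu]
    exact hb
  · have heq : evp (F.comp MvPolynomial.C) t p = F (MvPolynomial.rename Sum.inr Φ) * F H := by
      have h1 : ∀ q : MvPolynomial (Fin (s + 1)) K,
          evp (F.comp MvPolynomial.C) t q = F (MvPolynomial.rename Sum.inl q) := by
        intro q
        have h2 : MvPolynomial.eval₂Hom (F.comp MvPolynomial.C) (fun i => (t i : L)) =
            F.comp (MvPolynomial.rename Sum.inl : MvPolynomial (Fin (s + 1)) K →ₐ[K] _).toRingHom := by
          refine MvPolynomial.ringHom_ext (fun c => ?_) fun i => ?_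
          · rw [MvPolynomial.eval₂Hom_C, RingHom.comp_apply]
            show F (MvPolynomial.C c) = F (MvPolynomial.rename Sum.inl (MvPolynomial.C c))
            rw [MvPolynomial.rename_C]
          · rw [MvPolynomial.eval₂Hom_X']
            show (t i : L) = F (MvPolynomial.rename Sum.inl (MvPolynomial.X i))
            rw [MvPolynomial.rename_X, htv]
        exact congrArg (fun φ : MvPolynomial (Fin (s + 1)) K →+* L => φ q) h2
      have h3 : F (leqn p H Φ) = 0 := by
        show f (opol (leqn p H Φ) (ldel s Φ) (leqn p H Φ)) = 0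
        rw [opol_F, map_zero]
      have h4 : F (leqn p H Φ) =
          F (MvPolynomial.rename Sum.inl p) - F (MvPolynomial.rename Sum.inr Φ) * F H := by
        conv_lhs => rw [show leqn p H Φ = MvPolynomial.rename Sum.inl p -
          MvPolynomial.rename Sum.inr Φ * H from rfl, map_sub, map_mul]
      rw [h1]
      rw [h4, sub_eq_zero] at h3
      exact h3
    obtain ⟨b, hb, hbv⟩ := exists_mono hH0 hH F v t htv hx
    rcases fibreH (F.comp MvPolynomial.C) v hp0 (Gd.split hp) hle heq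
      (fun i => b (Sum.inl i)) hbv (fun u hu => hint u hu b hb) with h | ⟨h1, h2⟩
    · refine onePart_le v (mem_onePart_of_comp v _ (iz_injective n s) ?_)
      simp only [lent_iz]
      exact h
    · refine Submodule.subset_span ⟨_, fun l => ?_, rfl⟩
      refine Fin.cases ?_ (fun l => ?_) l
      · exact h1 0
      · refine Fin.addCases (fun j => ?_) (fun i => ?_) l
        · have h3 := lent_iu u j
          unfold iu at h3
          rw [h3]
          exact hone h2 j
        · have h3 := lent_iz u i.succ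
          unfold iz at h3
          rw [Fin.cons_succ] at h3
          rw [h3]
          exact h1 i.succ

end Unram

section tower

variable {K : Type*} [Field K] {s n : ℕ} {r : Fin n → ℕ}
  {φ : (j : Fin n) → Fin (r j + 1) → MvPolynomial (Fin n) K} {w : (j : Fin n) → Fin (r j + 1) → ℕ}
  {L : Type*} [Field L] (F : MvPolynomial (Fin n) K →+* L) (v : Valuation L ℤᵐ⁰)

theorem val_le_one' {p : MvPolynomial (Fin n) K} (hp : ∀ m, IsIntegral ℤ (p.coeff m))
    (hx : ∀ l ∈ p.vars, v (F (MvPolynomial.X l)) ≤ 1) : v (F p) ≤ 1 := by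
  classical
  rw [p.as_sum, map_sum]
  refine Valuation.map_sum_le _ fun m hm => ?_
  rw [MvPolynomial.monomial_eq, map_mul, map_mul]
  refine mul_le_one' ?_ ?_
  · exact Pool.Agent.TH826.MK.val_le_one_of_integral v
      (map_isIntegral_int (F.comp (MvPolynomial.C : K →+* MvPolynomial (Fin n) K)) (hp m))
  · unfold Finsupp.prod
    rw [map_prod, map_prod]
    refine Finset.prod_le_one' fun l hl => ?_
    rw [map_pow, map_pow]
    exact pow_le_one' (hx l ((MvPolynomial.mem_vars l).2 ⟨m, hm, hl⟩)) _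

/-- One of the entries `(x_j - φ_{j,k_j + 1}) / (x_j - φ_{j,0})` is a one-unit, or the coordinates
are integral. -/
theorem base_tower (hv : ∀ j i, ∀ l ∈ (φ j i).vars, j < l)
    (hI : ∀ j i m, IsIntegral ℤ ((φ j i).coeff m)) (b : (j : Fin n) → Fin (r j + 1) → Lˣ)
    (hb : ∀ j i, (b j i : L) = F (MvPolynomial.X j - φ j i)) (k : ∀ j, Fin (r j)) :
    symb (fun j => b j (k j).succ / b j 0) ∈ onePart v n ∨
      ∀ j, v (F (MvPolynomial.X j)) ≤ 1 := by
  classical
  by_cases hB : ∃ j, 1 < v (F (MvPolynomial.X j))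
  · left
    have hne : (Finset.univ.filter fun j : Fin n => 1 < v (F (MvPolynomial.X j))).Nonempty := by
      obtain ⟨j, hj⟩ := hB
      exact ⟨j, Finset.mem_filter.2 ⟨Finset.mem_univ _, hj⟩⟩
    set j := (Finset.univ.filter fun j : Fin n => 1 < v (F (MvPolynomial.X j))).max' hne with hjdef
    have hj : 1 < v (F (MvPolynomial.X j)) := (Finset.mem_filter.1 (Finset.max'_mem _ hne)).2
    have hlt : ∀ l, j < l → v (F (MvPolynomial.X l)) ≤ 1 := by
      intro l hl
      by_contra hcon
      refine absurd (Finset.le_max' _ l (Finset.mem_filter.2 ⟨Finset.mem_univ _, ?_⟩))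
        (not_le.2 hl)
      exact not_le.1 hcon
    have hphi : ∀ i, v (F (φ j i)) ≤ 1 := fun i =>
      val_le_one' F v (hI j i) fun l hl => hlt l (hv j i l hl)
    refine Submodule.subset_span ⟨_, j, ?_, rfl⟩
    have hbs : ∀ i, (b j i : L) = F (MvPolynomial.X j) - F (φ j i) := fun i => by
      rw [hb, map_sub]
    rw [Units.val_div_eq_div_val, div_sub_one (b j 0).ne_zero, map_div₀, hbs, hbs]
    have h1 : v (F (MvPolynomial.X j) - F (φ j 0)) = v (F (MvPolynomial.X j)) :=
      Valuation.map_sub_eq_of_lt_left v ((hphi 0).trans_lt hj)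
    have h2 : v (F (MvPolynomial.X j) - F (φ j (k j).succ) -
        (F (MvPolynomial.X j) - F (φ j 0))) ≤ 1 := by
      have e : F (MvPolynomial.X j) - F (φ j (k j).succ) - (F (MvPolynomial.X j) - F (φ j 0)) =
        F (φ j 0) - F (φ j (k j).succ) := by ring
      rw [e]
      exact (v.map_sub _ _).trans (max_le (hphi _) (hphi _))
    rw [h1]
    have h3 : 0 < v (F (MvPolynomial.X j)) := zero_lt_one.trans hj
    rw [div_lt_one₀ h3]
    exact h2.trans_lt hj
  · right
    push Not at hB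
    exact hB

theorem base_tPhi {lam : K} (hlam : IsIntegral ℤ lam)
    (hI : ∀ j i m, IsIntegral ℤ ((φ j i).coeff m))
    (hx : ∀ j, v (F (MvPolynomial.X j)) ≤ 1) :
    v (F (tPhi r φ w lam)) ≤ 1 ∧ (v (F (tPhi r φ w lam)) = 1 →
      ∀ j i, v (F (MvPolynomial.X j - φ j i)) = 1) := by
  classical
  have hsub : ∀ j i, v (F (MvPolynomial.X j - φ j i)) ≤ 1 := fun j i => by
    rw [map_sub]
    exact (v.map_sub _ _).trans (max_le (hx j) (val_le_one' F v (hI j i) fun l _ => hx l))
  have hlam' : v (F (MvPolynomial.C lam)) ≤ 1 :=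
    Pool.Agent.TH826.MK.val_le_one_of_integral v
      (map_isIntegral_int (F.comp (MvPolynomial.C : K →+* _)) hlam)
  have h0 : v (F (tPhi r φ w lam)) = v (F (MvPolynomial.C lam)) *
      ∏ j, ∏ i, v (F (MvPolynomial.X j - φ j i)) ^ (w j i + 1) := by
    unfold tPhi
    rw [map_mul, map_mul, map_prod, map_prod]
    congr 1
    refine Finset.prod_congr rfl fun j _ => ?_
    rw [map_prod, map_prod]
    refine Finset.prod_congr rfl fun i _ => ?_
    rw [map_pow, map_pow]
  have hin : ∀ j (S : Finset (Fin (r j + 1))),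
      ∏ i ∈ S, v (F (MvPolynomial.X j - φ j i)) ^ (w j i + 1) ≤ 1 := fun j S =>
    Finset.prod_le_one' fun i _ => pow_le_one' (hsub j i) _
  have hout : ∀ S : Finset (Fin n),
      ∏ j ∈ S, ∏ i, v (F (MvPolynomial.X j - φ j i)) ^ (w j i + 1) ≤ 1 := fun S =>
    Finset.prod_le_one' fun j _ => hin j _
  refine ⟨?_, fun h j i => le_antisymm (hsub j i) ?_⟩
  · rw [h0]
    exact mul_le_one' hlam' (hout _)
  · rw [← h, h0, ← Finset.mul_prod_erase _ _ (Finset.mem_univ j),
      ← Finset.mul_prod_erase _ _ (Finset.mem_univ i)]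
    have h2 : v (F (MvPolynomial.X j - φ j i)) ^ (w j i + 1) ≤ v (F (MvPolynomial.X j - φ j i)) := by
      rw [pow_succ]
      exact mul_le_of_le_one_left' (pow_le_one' (hsub j i) _)
    calc v (F (MvPolynomial.C lam)) * ((v (F (MvPolynomial.X j - φ j i)) ^ (w j i + 1) *
          ∏ x ∈ Finset.univ.erase i, v (F (MvPolynomial.X j - φ j x)) ^ (w j x + 1)) *
          ∏ x ∈ Finset.univ.erase j, ∏ i, v (F (MvPolynomial.X x - φ x i)) ^ (w x i + 1))
        ≤ 1 * ((v (F (MvPolynomial.X j - φ j i)) * 1) * 1) :=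
          mul_le_mul' hlam' (mul_le_mul' (mul_le_mul' h2 (hin j _)) (hout _))
      _ = v (F (MvPolynomial.X j - φ j i)) := by rw [one_mul, mul_one, mul_one]

end tower

section final

variable {K : Type*} [Field K] {s n : ℕ} {p : MvPolynomial (Fin (s + 1)) K}
  {H : MvPolynomial (Fin (s + 1) ⊕ Fin n) K} {r : Fin n → ℕ}
  {φ : (j : Fin n) → Fin (r j + 1) → MvPolynomial (Fin n) K} {w : (j : Fin n) → Fin (r j + 1) → ℕ}
  {lam : K} {L : Type*} [Field L] (f : LOpen p H (tPhi r φ w lam) →+* L)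

/-- The symbols are unramified. -/
theorem tsym_unramified (hp0 : p ≠ 0) (hp : IsSplitPoly p) (hH0 : H ≠ 0)
    (hH : ∀ m, IsIntegral ℤ (H.coeff m)) (hint : InteriorH p H) (hlam : IsIntegral ℤ lam)
    (hv : ∀ j i, ∀ l ∈ (φ j i).vars, j < l) (hI : ∀ j i m, IsIntegral ℤ ((φ j i).coeff m))
    (k : ∀ j, Fin (r j)) :
    KQ.map (n + s + 1) f (symb (tsym r φ w lam p H k)) ∈ Unramified L (n + s + 1) := by
  rw [KQ.map_symb]
  unfold Unramified
  simp only [Submodule.mem_iInf]
  intro v _
  set F : MvPolynomial (Fin n) K →+* L := (f.comp (opol _ _)).comp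
    (MvPolynomial.rename Sum.inr : MvPolynomial (Fin n) K →ₐ[K] _).toRingHom with hF
  have hFq : ∀ q, F q = f (opol _ _ (MvPolynomial.rename Sum.inr q)) := fun q => rfl
  set b : (j : Fin n) → Fin (r j + 1) → Lˣ := fun j i =>
    Units.map (f : LOpen p H (tPhi r φ w lam) →* L)
      (ou _ _ (rename_dvd_ldel _ (fac_dvd_tPhi r φ w lam j i))) with hb
  have hbv : ∀ j i, (b j i : L) = F (MvPolynomial.X j - φ j i) := fun j i => rfl
  have hent : ∀ j, Units.map (f : LOpen p H (tPhi r φ w lam) →* L) (tu r φ w lam p H k j) =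
      b j (k j).succ / b j 0 := by
    intro j
    unfold tu
    rw [map_div]
  refine lent_mem_unitPart f hp0 hp hH0 hH hint v _ ?_
  rcases base_tower F v hv hI b hbv k with h | h
  · left
    simp only [hent]
    exact h
  · right
    obtain ⟨h3, h4⟩ := base_tPhi F v (w := w) hlam hI h
    refine ⟨fun j => ?_, h3, fun h5 j => ?_⟩
    · have h6 := h j
      rw [hFq, MvPolynomial.rename_X] at h6
      exact h6
    · have h6 := h4 h5
      have h8 : f (tu r φ w lam p H k j : LOpen p H (tPhi r φ w lam)) =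
          ((b j (k j).succ / b j 0 : Lˣ) : L) := by
        rw [← hent]
        rfl
      rw [h8, Units.val_div_eq_div_val, map_div₀, hbv, hbv, h6, h6, div_one]

end final

end Pool.Agent.Q16.LS
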