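import Pool.Agent.Q16.LS.PDefs
import Pool.Agent.Q16.LS.Unram
set_option autoImplicit false

/-!
The symbols on the hypersurfaces
`∏_j x_j ^ β_j p(z) = λ ∏_j ∏_i h_{j,i}(x_j) ^ (w_{j,i} + 1) H(z, x)` are unramified.
-/

namespace Pool.Agent.Q16.LS

open scoped WithZero

open Pool.Agent.Q16.BF

open Pool.Agent.TH826.MK (KQ symb Unramified unitPart symb_update_mul val_one_of_sub_one)

open Pool.Agent.TH826.EF (onePart onePart_le)

open Pool.Agent.TH690.SF (mem_onePart_of_comp symb_update_pow)

section ones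

variable {L : Type*} [Field L] {v : Valuation L ℤᵐ⁰}

theorem one_mul' {a b : L} (ha : v (a - 1) < 1) (hb : v (b - 1) < 1) : v (a * b - 1) < 1 := by
  have e : a * b - 1 = a * (b - 1) + (a - 1) := by ring
  rw [e]
  refine lt_of_le_of_lt (v.map_add _ _) (max_lt ?_ ha)
  rw [map_mul, val_one_of_sub_one ha, one_mul]
  exact hb

theorem one_pow' {a : L} (ha : v (a - 1) < 1) (m : ℕ) : v (a ^ m - 1) < 1 := by
  induction m with
  | zero => simp
  | succ m ih =>
    rw [pow_succ]
    exact one_mul' ih ha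

theorem one_inv' {a : L} (ha : v (a - 1) < 1) : v (a⁻¹ - 1) < 1 := by
  have h1 := val_one_of_sub_one ha
  have ha0 : a ≠ 0 := by
    rintro rfl
    rw [map_zero] at h1
    exact zero_ne_one h1
  have e : a⁻¹ - 1 = -(a - 1) * a⁻¹ := by
    field_simp
    ring
  rw [e, map_mul, Valuation.map_neg, map_inv₀, h1, inv_one, mul_one]
  exact ha

theorem one_div' {a b : L} (ha : v (a - 1) < 1) (hb : v (b - 1) < 1) : v (a / b - 1) < 1 := by
  rw [div_eq_mul_inv]
  exact one_mul' ha (one_inv' hb)

theorem mem_onePart_of_pow {n : ℕ} (a : Fin n → Lˣ) (k : Fin n) {m : ℕ} (hm : m ≠ 0)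
    (h : v ((a k : L) ^ m - 1) < 1) : symb a ∈ onePart v n := by
  have h1 := symb_update_pow a k (a k) m
  rw [Function.update_eq_self] at h1
  have h2 : symb a = ((m : ℚ)⁻¹) • symb (Function.update a k (a k ^ m)) := by
    rw [h1, smul_smul, inv_mul_cancel₀ (by exact_mod_cast hm), one_smul]
  rw [h2]
  refine Submodule.smul_mem _ _ (Submodule.subset_span ⟨_, k, ?_, rfl⟩)
  rw [Function.update_self, Units.val_pow_eq_pow_val]
  exact h

variable {K : Type*} [Field K] (g : K →+* L)

open Polynomial in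
theorem val_eval_le {Q : K[X]} (hQ : ∀ i, IsIntegral ℤ (Q.coeff i)) {x : L} (hx : v x ≤ 1) :
    v (Q.eval₂ g x) ≤ 1 := by
  rw [eval₂_eq_sum_range]
  refine Valuation.map_sum_le v fun i _ => ?_
  rw [map_mul, map_pow]
  exact mul_le_one' (val_integral (hQ _)) (pow_le_one' hx i)

open Polynomial in
/-- At a pole of `x` a monic polynomial with integral coefficients is a power of `x` times a
one-unit. -/
theorem one_of_pole {Q : K[X]} (hm : Q.Monic) (hQ : ∀ i, IsIntegral ℤ (Q.coeff i)) {x : L}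
    (hx : 1 < v x) : v (Q.eval₂ g x / x ^ Q.natDegree - 1) < 1 := by
  have hv0 : v x ≠ 0 := ne_of_gt (zero_lt_one.trans hx)
  have hx0 : x ≠ 0 := (Valuation.ne_zero_iff v).1 hv0
  have h1 : v (∑ i ∈ Finset.range Q.natDegree, g (Q.coeff i) * x ^ i) < v (x ^ Q.natDegree) := by
    refine Valuation.map_sum_lt v ?_ fun i hi => ?_
    · rw [map_pow]
      exact pow_ne_zero _ hv0
    · rw [map_mul, map_pow, map_pow]
      calc v (g (Q.coeff i)) * v x ^ i ≤ 1 * v x ^ i :=
            mul_le_mul' (val_integral (hQ i)) le_rfl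
        _ = v x ^ i := one_mul _
        _ < v x ^ Q.natDegree := pow_lt_pow_right₀ hx (Finset.mem_range.1 hi)
  have h2 : Q.eval₂ g x / x ^ Q.natDegree - 1 =
      (∑ i ∈ Finset.range Q.natDegree, g (Q.coeff i) * x ^ i) / x ^ Q.natDegree := by
    rw [eval₂_eq_sum_range, Finset.sum_range_succ, coeff_natDegree, hm.leadingCoeff, map_one,
      one_mul, add_div, div_self (pow_ne_zero _ hx0), add_sub_cancel_right]
  rw [h2, map_div₀]
  have h3 : 0 < v (x ^ Q.natDegree) := zero_lt_iff.2 ((Valuation.ne_zero_iff v).2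
    (pow_ne_zero _ hx0))
  rw [div_lt_one₀ h3]
  exact h1

open Polynomial in
/-- At a zero of `x` a polynomial with integral coefficients whose value at `0` is a root of unity
is a root of unity times a one-unit. -/
theorem one_of_zero {Q : K[X]} (hQ : ∀ i, IsIntegral ℤ (Q.coeff i)) {N : ℕ} (hN : N ≠ 0)
    (h0 : Q.eval 0 ^ N = 1) {x : L} (hx : v x < 1) : v (Q.eval₂ g x ^ N - 1) < 1 := by
  have h1 : g (Q.eval 0) ^ N = 1 := by rw [← map_pow, h0, map_one]
  have h2 : Q.eval₂ g x = (divX Q).eval₂ g x * x + g (Q.eval 0) := by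
    conv_lhs => rw [← divX_mul_X_add Q]
    rw [eval₂_add, eval₂_mul, eval₂_X, eval₂_C, ← coeff_zero_eq_eval_zero]
  have hg0 : g (Q.eval 0) ≠ 0 := by
    intro h
    rw [h, zero_pow hN] at h1
    exact zero_ne_one h1
  have hvg : v (g (Q.eval 0)) = 1 := val_root hN h1
  have h3 : v ((divX Q).eval₂ g x) ≤ 1 := val_eval_le g (fun i => by
    rw [coeff_divX]
    exact hQ _) hx.le
  have h4 : v (Q.eval₂ g x / g (Q.eval 0) - 1) < 1 := by
    rw [div_sub_one hg0, h2, add_sub_cancel_right, map_div₀, hvg, div_one, map_mul]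
    calc _ ≤ 1 * v x := mul_le_mul' h3 le_rfl
      _ < 1 := by rwa [one_mul]
  have h5 := one_pow' h4 N
  rwa [div_pow, h1, div_one] at h5

end ones

section Unram

variable {K : Type*} [Field K] {s n : ℕ} {p : MvPolynomial (Fin (s + 1)) K}
  {H : MvPolynomial (Fin (s + 1) ⊕ Fin n) K} {D Φ : MvPolynomial (Fin n) K}

theorem went_iu (u : Fin n → (WOpen p H D Φ)ˣ) (j : Fin n) : went p H D Φ u (iu n s j) = u j := by
  unfold went iu
  rw [Fin.cons_succ, Fin.append_left]

theorem went_iz (u : Fin n → (WOpen p H D Φ)ˣ) (i : Fin (s + 1)) :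
    went p H D Φ u (iz n s i) = ou _ _ (X_dvd_ldel (D * Φ) i) := by
  refine Fin.cases ?_ (fun i => ?_) i
  · rfl
  · unfold went iz
    rw [Fin.cons_succ, Fin.cons_succ, Fin.append_right]

variable {L : Type*} [Field L] (f : WOpen p H D Φ →+* L)

/-- The symbols of the entries lie in the unit part, if the symbol of the entries `u_j` lies in
`onePart`, or the `x_j` and `Φ` are integral, `D` is a unit and the `u_j` are units in case `Φ` is a
unit. -/
theorem went_mem_unitPart (hp0 : p ≠ 0) (hp : IsSplitPoly p) (hH0 : H ≠ 0)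
    (hH : ∀ m, IsIntegral ℤ (H.coeff m)) (hint : InteriorH p H) (v : Valuation L ℤᵐ⁰)
    (u : Fin n → (WOpen p H D Φ)ˣ)
    (hb : symb (fun j => Units.map (f : WOpen p H D Φ →* L) (u j)) ∈ onePart v n ∨
      ((∀ j, v (f (opol (weqn p H D Φ) (ldel s (D * Φ)) (MvPolynomial.X (Sum.inr j)))) ≤ 1) ∧
      v (f (opol (weqn p H D Φ) (ldel s (D * Φ)) (MvPolynomial.rename Sum.inr D))) = 1 ∧
      v (f (opol (weqn p H D Φ) (ldel s (D * Φ)) (MvPolynomial.rename Sum.inr Φ))) ≤ 1 ∧
      (v (f (opol (weqn p H D Φ) (ldel s (D * Φ)) (MvPolynomial.rename Sum.inr Φ))) = 1 →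
        ∀ j, v (f (u j : WOpen p H D Φ)) = 1))) :
    symb (fun l => Units.map (f : WOpen p H D Φ →* L) (went p H D Φ u l)) ∈
      unitPart v (n + s + 1) := by
  set F : MvPolynomial (Fin (s + 1) ⊕ Fin n) K →+* L :=
    f.comp (opol (weqn p H D Φ) (ldel s (D * Φ))) with hF
  set t : Fin (s + 1) → Lˣ := fun i =>
    Units.map (f : WOpen p H D Φ →* L) (ou _ _ (X_dvd_ldel (D * Φ) i)) with ht
  have htv : ∀ i, (t i : L) = F (MvPolynomial.X (Sum.inl i)) := fun i => rfl
  rcases hb with hb | ⟨hx, hD, hle, hone⟩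
  · refine onePart_le v (mem_onePart_of_comp v _ (iu_injective n s) ?_)
    simp only [went_iu]
    exact hb
  · have hD0 : F (MvPolynomial.rename Sum.inr D) ≠ 0 := by
      intro h
      have h1 : v (F (MvPolynomial.rename Sum.inr D)) = 1 := hD
      rw [h, map_zero] at h1
      exact zero_ne_one h1
    have heq : evp (F.comp MvPolynomial.C) t p = F (MvPolynomial.rename Sum.inr Φ) /
        F (MvPolynomial.rename Sum.inr D) * F H := by
      have h1 : ∀ q : MvPolynomial (Fin (s + 1)) K,
          evp (F.comp MvPolynomial.C) t q = F (MvPolynomial.rename Sum.inl q) := by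
        intro q
        have h2 : MvPolynomial.eval₂Hom (F.comp MvPolynomial.C) (fun i => (t i : L)) =
            F.comp (MvPolynomial.rename Sum.inl : MvPolynomial (Fin (s + 1)) K →ₐ[K] _).toRingHom := by
          refine MvPolynomial.ringHom_ext (fun c => ?_) fun i => ?_
          · rw [MvPolynomial.eval₂Hom_C, RingHom.comp_apply]
            show F (MvPolynomial.C c) = F (MvPolynomial.rename Sum.inl (MvPolynomial.C c))
            rw [MvPolynomial.rename_C]
          · rw [MvPolynomial.eval₂Hom_X']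
            show (t i : L) = F (MvPolynomial.rename Sum.inl (MvPolynomial.X i))
            rw [MvPolynomial.rename_X, htv]
        exact congrArg (fun φ : MvPolynomial (Fin (s + 1)) K →+* L => φ q) h2
      have h3 : F (weqn p H D Φ) = 0 := by
        show f (opol (weqn p H D Φ) (ldel s (D * Φ)) (weqn p H D Φ)) = 0
        rw [opol_F, map_zero]
      have h4 : F (weqn p H D Φ) = F (MvPolynomial.rename Sum.inr D) *
          F (MvPolynomial.rename Sum.inl p) - F (MvPolynomial.rename Sum.inr Φ) * F H := by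
        conv_lhs => rw [show weqn p H D Φ = MvPolynomial.rename Sum.inr D *
          MvPolynomial.rename Sum.inl p - MvPolynomial.rename Sum.inr Φ * H from rfl, map_sub,
          map_mul, map_mul]
      rw [h1, div_mul_eq_mul_div, eq_div_iff hD0]
      rw [h4, sub_eq_zero] at h3
      rw [mul_comm]
      exact h3
    have hφ : v (F (MvPolynomial.rename Sum.inr Φ) / F (MvPolynomial.rename Sum.inr D)) =
        v (F (MvPolynomial.rename Sum.inr Φ)) := by
      have h1 : v (F (MvPolynomial.rename Sum.inr D)) = 1 := hD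
      rw [map_div₀, h1, div_one]
    have hφ1 : v (F (MvPolynomial.rename Sum.inr Φ)) ≤ 1 := hle
    obtain ⟨b, hb, hbv⟩ := exists_mono hH0 hH F v t htv hx
    rcases fibreH (F.comp MvPolynomial.C) v hp0 (Gd.split hp) (hφ.le.trans hφ1) heq
      (fun i => b (Sum.inl i)) hbv (fun u hu => hint u hu b hb) with h | ⟨h1, h2⟩
    · refine onePart_le v (mem_onePart_of_comp v _ (iz_injective n s) ?_)
      simp only [went_iz]
      exact h
    · rw [hφ] at h2
      refine Submodule.subset_span ⟨_, fun l => ?_, rfl⟩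
      refine Fin.cases ?_ (fun l => ?_) l
      · exact h1 0
      · refine Fin.addCases (fun j => ?_) (fun i => ?_) l
        · have h3 := went_iu u j
          unfold iu at h3
          rw [h3]
          exact hone h2 j
        · have h3 := went_iz u i.succ
          unfold iz at h3
          rw [Fin.cons_succ] at h3
          rw [h3]
          exact h1 i.succ

end Unram

section final

variable {K : Type*} [Field K] {s n : ℕ} {p : MvPolynomial (Fin (s + 1)) K}
  {H : MvPolynomial (Fin (s + 1) ⊕ Fin n) K} {r : Fin n → ℕ}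
  {h : (j : Fin n) → Fin (r j + 1) → Polynomial K} {w : (j : Fin n) → Fin (r j + 1) → ℕ}
  {lam : K} {β : Fin n → ℕ} {L : Type*} [Field L]
  (f : WOpen p H (pD K β) (pPhi r h w lam) →+* L)

/-- The symbols are unramified. -/
theorem psym_unramified (hp0 : p ≠ 0) (hp : IsSplitPoly p) (hH0 : H ≠ 0)
    (hH : ∀ m, IsIntegral ℤ (H.coeff m)) (hint : InteriorH p H) (hlam : IsIntegral ℤ lam)
    (hm : ∀ j i, (h j i).Monic) (hI : ∀ j i m, IsIntegral ℤ ((h j i).coeff m))
    (hβ : ∀ j, β j ≠ 0 → ∀ i, ∃ N : ℕ, N ≠ 0 ∧ (h j i).eval 0 ^ N = 1) (k : ∀ j, Fin (r j)) :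
    KQ.map (n + s + 1) f (symb (psym r h w lam β p H k)) ∈ Unramified L (n + s + 1) := by
  classical
  rw [KQ.map_symb]
  unfold Unramified
  simp only [Submodule.mem_iInf]
  intro v _
  set F : MvPolynomial (Fin n) K →+* L := (f.comp (opol _ _)).comp
    (MvPolynomial.rename Sum.inr : MvPolynomial (Fin n) K →ₐ[K] _).toRingHom with hF
  have hFq : ∀ q, F q = f (opol _ _ (MvPolynomial.rename Sum.inr q)) := fun q => rfl
  set g : K →+* L := F.comp MvPolynomial.C with hg
  set x : Fin n → L := fun j => F (MvPolynomial.X j) with hx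
  have hFu : ∀ j (q : Polynomial K), F (uv j q) = q.eval₂ g (x j) := by
    intro j q
    unfold uv
    rw [Polynomial.aeval_def, Polynomial.hom_eval₂]
    rfl
  set b : (j : Fin n) → Fin (r j + 1) → Lˣ := fun j i =>
    Units.map (f : WOpen p H (pD K β) (pPhi r h w lam) →* L) (pf r h w lam β p H j i) with hb
  have hbv : ∀ j i, (b j i : L) = (h j i).eval₂ g (x j) := fun j i => hFu j (h j i)
  have hent : ∀ j, Units.map (f : WOpen p H (pD K β) (pPhi r h w lam) →* L)
      (pu r h w lam β p H k j) = b j (k j).succ ^ (h j 0).natDegree /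
        b j 0 ^ (h j (k j).succ).natDegree := by
    intro j
    unfold pu
    rw [map_div, map_pow, map_pow]
  refine went_mem_unitPart f hp0 hp hH0 hH hint v _ ?_
  simp only [hent]
  by_cases hpole : ∃ j, 1 < v (x j)
  · left
    obtain ⟨j, hj⟩ := hpole
    refine Submodule.subset_span ⟨_, j, ?_, rfl⟩
    have hx0 : x j ≠ 0 := (Valuation.ne_zero_iff v).1 (ne_of_gt (zero_lt_one.trans hj))
    have h1 := one_pow' (one_of_pole g (hm j (k j).succ) (hI j _) hj) (h j 0).natDegree
    have h2 := one_pow' (one_of_pole g (hm j 0) (hI j _) hj) (h j (k j).succ).natDegree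
    have h3 := one_div' h1 h2
    have h4 : ∀ (A B X : L) (c d : ℕ), X ≠ 0 → (A / X ^ c) ^ d / (B / X ^ d) ^ c =
        A ^ d / B ^ c := by
      intro A B X c d hX
      rw [div_pow, div_pow, ← pow_mul, ← pow_mul, mul_comm d c, div_div_div_cancel_right₀]
      exact pow_ne_zero _ hX
    rw [h4 _ _ _ _ _ hx0] at h3
    rw [Units.val_div_eq_div_val, Units.val_pow_eq_pow_val, Units.val_pow_eq_pow_val, hbv, hbv]
    exact h3
  push Not at hpole
  by_cases hzero : ∃ j, β j ≠ 0 ∧ v (x j) < 1
  · left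
    obtain ⟨j, hj, hv⟩ := hzero
    obtain ⟨N1, hN1, e1⟩ := hβ j hj (k j).succ
    obtain ⟨N2, hN2, e2⟩ := hβ j hj 0
    refine mem_onePart_of_pow _ j (mul_ne_zero hN1 hN2) ?_
    have h1 := one_pow' (one_of_zero g (hI j _) hN1 e1 hv) ((h j 0).natDegree * N2)
    have h2 := one_pow' (one_of_zero g (hI j _) hN2 e2 hv) ((h j (k j).succ).natDegree * N1)
    have h3 := one_div' h1 h2
    rw [Units.val_div_eq_div_val, Units.val_pow_eq_pow_val, Units.val_pow_eq_pow_val, hbv, hbv,
      div_pow]
    have h4 : ∀ (A B : L) (c d : ℕ), (A ^ d) ^ (N1 * N2) / (B ^ c) ^ (N1 * N2) =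
        (A ^ N1) ^ (d * N2) / (B ^ N2) ^ (c * N1) := by
      intro A B c d
      rw [← pow_mul, ← pow_mul, ← pow_mul, ← pow_mul]
      congr 2 <;> ring
    rw [h4]
    exact h3
  push Not at hzero
  right
  have hx1 : ∀ j, β j ≠ 0 → v (x j) = 1 := fun j hj => le_antisymm (hpole j) (hzero j hj)
  have hsub : ∀ j i, v (F (uv j (h j i))) ≤ 1 := fun j i => by
    rw [hFu]
    exact val_eval_le g (hI j i) (hpole j)
  have hlam' : v (F (MvPolynomial.C lam)) ≤ 1 :=
    Pool.Agent.TH826.MK.val_le_one_of_integral v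
      (map_isIntegral_int (F.comp (MvPolynomial.C : K →+* _)) hlam)
  have h0 : v (F (pPhi r h w lam)) = v (F (MvPolynomial.C lam)) *
      ∏ j, ∏ i, v (F (uv j (h j i))) ^ (w j i + 1) := by
    unfold pPhi
    rw [map_mul, map_mul, map_prod, map_prod]
    congr 1
    refine Finset.prod_congr rfl fun j _ => ?_
    rw [map_prod, map_prod]
    refine Finset.prod_congr rfl fun i _ => ?_
    rw [map_pow, map_pow]
  have hin : ∀ j (S : Finset (Fin (r j + 1))),
      ∏ i ∈ S, v (F (uv j (h j i))) ^ (w j i + 1) ≤ 1 := fun j S =>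
    Finset.prod_le_one' fun i _ => pow_le_one' (hsub j i) _
  have hout : ∀ S : Finset (Fin n),
      ∏ j ∈ S, ∏ i, v (F (uv j (h j i))) ^ (w j i + 1) ≤ 1 := fun S =>
    Finset.prod_le_one' fun j _ => hin j _
  refine ⟨fun j => ?_, ?_, ?_, fun h5 j => ?_⟩
  · have h6 := hpole j
    rw [hx] at h6
    simp only [hFq, MvPolynomial.rename_X] at h6
    exact h6
  · rw [← hFq]
    unfold pD
    rw [map_prod, map_prod]
    refine Finset.prod_eq_one fun j _ => ?_
    rw [map_pow, map_pow]
    by_cases hj : β j = 0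
    · rw [hj, pow_zero]
    · have h6 : v (F (MvPolynomial.X j)) = 1 := hx1 j hj
      rw [h6, one_pow]
  · rw [← hFq, h0]
    exact mul_le_one' hlam' (hout _)
  · have h5' : v (F (pPhi r h w lam)) = 1 := h5
    have hfac : ∀ j i, v (F (uv j (h j i))) = 1 := by
      intro j i
      refine le_antisymm (hsub j i) ?_
      rw [← h5', h0, ← Finset.mul_prod_erase _ _ (Finset.mem_univ j),
        ← Finset.mul_prod_erase _ _ (Finset.mem_univ i)]
      have h2 : v (F (uv j (h j i))) ^ (w j i + 1) ≤ v (F (uv j (h j i))) := by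
        rw [pow_succ]
        exact mul_le_of_le_one_left' (pow_le_one' (hsub j i) _)
      calc v (F (MvPolynomial.C lam)) * ((v (F (uv j (h j i))) ^ (w j i + 1) *
            ∏ x ∈ Finset.univ.erase i, v (F (uv j (h j x))) ^ (w j x + 1)) *
            ∏ x ∈ Finset.univ.erase j, ∏ i, v (F (uv x (h x i))) ^ (w x i + 1))
          ≤ 1 * ((v (F (uv j (h j i))) * 1) * 1) :=
            mul_le_mul' hlam' (mul_le_mul' (mul_le_mul' h2 (hin j _)) (hout _))
        _ = v (F (uv j (h j i))) := by rw [one_mul, mul_one, mul_one]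
    have h8 : f (pu r h w lam β p H k j : WOpen p H (pD K β) (pPhi r h w lam)) =
        ((b j (k j).succ ^ (h j 0).natDegree / b j 0 ^ (h j (k j).succ).natDegree : Lˣ) : L) := by
      rw [← hent]
      rfl
    rw [h8, Units.val_div_eq_div_val, Units.val_pow_eq_pow_val, Units.val_pow_eq_pow_val,
      hbv, hbv, ← hFu, ← hFu, map_div₀, map_pow, map_pow, hfac, hfac, one_pow, one_pow, div_one]

end final

end Pool.Agent.Q16.LS
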