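import Pool.Agent.Q16.LS.Chart
import Pool.Agent.Q16.LS.Unram
set_option autoImplicit false

/-!
Tori in the hypersurfaces `p(z) = λ φ(x) H(z, x)` for large `λ`, and the regulators of the symbols
`{z_0, u_1, ..., u_n, z_1, ..., z_s}`.
-/

namespace Pool.Agent.Q16.LS

open MvPolynomial

open Pool.Agent.Q16.BF (iu iz Bdd1 LogB norm_two_pi_I RG RG_row_z RG_row_u RG_row_y det_RG)

open Pool.Agent.Q16.UF (LexLead exists_lexLead good_tpt exists_lex_torus)

open Pool.Agent.TH826.MK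

open Pool.Agent.TH826.SX (lw_circ det_ne_zero_near pairing_close)

open Pool.Agent.TH333.CY (good_inv lw_inv)

variable {K : Type*} [Field K] {s n : ℕ}

theorem VPt.of_LPt {σ : K →+* ℂ} {p : MvPolynomial (Fin (s + 1)) K}
    {H : MvPolynomial (Fin (s + 1) ⊕ Fin n) K} {Φ : MvPolynomial (Fin n) K}
    {x : Fin (s + 1) ⊕ Fin n → ℂ} (h1 : eval₂ σ x (leqn p H Φ) = 0)
    (h2 : eval₂ σ (fun j => x (Sum.inr j)) Φ ≠ 0) (h3 : ∀ i, x (Sum.inl i) ≠ 0) :
    VPt σ (leqn p H Φ) (ldel s Φ) x := by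
  refine ⟨h1, ?_⟩
  unfold ldel
  rw [eval₂_mul, eval₂_rename, ← coe_eval₂Hom, ← coe_eval₂Hom, map_prod]
  simp only [coe_eval₂Hom, eval₂_X]
  exact mul_ne_zero h2 (Finset.prod_ne_zero_iff.2 fun i _ => h3 i)

theorem degreeOf_rename_inl (p : MvPolynomial (Fin (s + 1)) K) :
    (rename (Sum.inl : Fin (s + 1) → Fin (s + 1) ⊕ Fin n) p).degreeOf (Sum.inl 0) =
      p.degreeOf 0 :=
  degreeOf_rename_of_injective Sum.inl_injective 0

/-- The value of the equation at the points. -/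
theorem eval_leqn_pt (σ : K →+* ℂ) (χ : MvPolynomial (Fin n) K →ₐ[K] MvPolynomial (Fin n) K)
    (R : Fin (n + s) → ℝ) {p : MvPolynomial (Fin (s + 1)) K} {b : ℕ}
    (hp : p.degreeOf 0 = b + 1) {H : MvPolynomial (Fin (s + 1) ⊕ Fin n) K}
    (hHd : H.degreeOf (Sum.inl 0) = b) (φ : MvPolynomial (Fin n) K) (lam : K) (z0 : ℂ)
    (θ : Fin (n + s) → ℝ) :
    eval₂ σ (pt χ σ R z0 θ) (leqn p H (C lam * φ)) =
      (fpoly b (fun j => eval₂ σ (tpt R θ) (cf χ (rename Sum.inl p) j))
        (fun j => eval₂ σ (tpt R θ) (rename (Fin.castAdd s) (χ φ)) *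
          eval₂ σ (tpt R θ) (cf χ H j))
        (eval₂ σ (tpt R θ) (cf χ (rename Sum.inl p) (b + 1)))
        (eval₂ σ (tpt R θ) (rename (Fin.castAdd s) (χ φ)) *
          eval₂ σ (tpt R θ) (cf χ H b)) (σ lam)).eval z0 := by
  have h1 : eval₂ σ (pt χ σ R z0 θ) (rename Sum.inr (C lam * φ)) =
      σ lam * eval₂ σ (tpt R θ) (rename (Fin.castAdd s) (χ φ)) := by
    rw [eval₂_rename]
    have h2 : pt χ σ R z0 θ ∘ Sum.inr = fun j => pt χ σ R z0 θ (Sum.inr j) := rfl
    rw [h2, eval₂_mul, eval₂_C, eval_pt_rename]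
  unfold leqn
  rw [← coe_eval₂Hom, map_sub, map_mul, coe_eval₂Hom, h1,
    eval_pt χ σ R z0 θ ((degreeOf_rename_inl p).trans hp), eval_pt χ σ R z0 θ hHd]
  unfold fpoly
  simp only [Polynomial.eval_sub, Polynomial.eval_add, Polynomial.eval_mul, Polynomial.eval_C,
    Polynomial.eval_pow, Polynomial.eval_X, Polynomial.eval_finset_sum]
  rw [Finset.sum_range_succ _ (b + 1), Finset.sum_range_succ (fun j =>
    eval₂ σ (tpt R θ) (cf χ H j) * z0 ^ j) b]
  have h3 : ∑ j ∈ Finset.range b, eval₂ σ (tpt R θ) (rename (Fin.castAdd s) (χ φ)) *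
      eval₂ σ (tpt R θ) (cf χ H j) * z0 ^ j = eval₂ σ (tpt R θ) (rename (Fin.castAdd s) (χ φ)) *
      ∑ j ∈ Finset.range b, eval₂ σ (tpt R θ) (cf χ H j) * z0 ^ j := by
    rw [Finset.mul_sum]
    exact Finset.sum_congr rfl fun j _ => mul_assoc _ _ _
  rw [h3]
  ring

/-- The value of the derivative of the equation with respect to `z_0` at the points. -/
theorem eval_pderiv_pt (σ : K →+* ℂ) (χ : MvPolynomial (Fin n) K →ₐ[K] MvPolynomial (Fin n) K)
    (R : Fin (n + s) → ℝ) {p : MvPolynomial (Fin (s + 1)) K} {b : ℕ}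
    (hp : p.degreeOf 0 = b + 1) {H : MvPolynomial (Fin (s + 1) ⊕ Fin n) K}
    (hHd : H.degreeOf (Sum.inl 0) = b) (φ : MvPolynomial (Fin n) K) (lam : K) (z0 : ℂ)
    (θ : Fin (n + s) → ℝ) :
    eval₂ σ (pt χ σ R z0 θ) (pderiv (Sum.inl 0) (leqn p H (C lam * φ))) =
      (Polynomial.derivative (fpoly b
        (fun j => eval₂ σ (tpt R θ) (cf χ (rename Sum.inl p) j))
        (fun j => eval₂ σ (tpt R θ) (rename (Fin.castAdd s) (χ φ)) *
          eval₂ σ (tpt R θ) (cf χ H j))
        (eval₂ σ (tpt R θ) (cf χ (rename Sum.inl p) (b + 1)))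
        (eval₂ σ (tpt R θ) (rename (Fin.castAdd s) (χ φ)) *
          eval₂ σ (tpt R θ) (cf χ H b)) (σ lam))).eval z0 := by
  have h1 : ln σ (pt χ σ R z0 θ) (Sum.inl 0) (leqn p H (C lam * φ)) = fpoly b
        (fun j => eval₂ σ (tpt R θ) (cf χ (rename Sum.inl p) j))
        (fun j => eval₂ σ (tpt R θ) (rename (Fin.castAdd s) (χ φ)) *
          eval₂ σ (tpt R θ) (cf χ H j))
        (eval₂ σ (tpt R θ) (cf χ (rename Sum.inl p) (b + 1)))
        (eval₂ σ (tpt R θ) (rename (Fin.castAdd s) (χ φ)) *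
          eval₂ σ (tpt R θ) (cf χ H b)) (σ lam) := by
    refine Polynomial.funext fun z => ?_
    rw [eval_ln, pt_update, eval_leqn_pt σ χ R hp hHd]
  rw [← h1, derivative_ln, eval_ln, Function.update_eq_self_iff.2 (pt_zero χ σ R z0 θ).symm]

theorem logB_of {N : ℕ} {f : (Fin N → ℝ) → ℂ} {C1 δ : ℝ} {V : Fin N →₀ ℕ} (h1 : Good f)
    (h2 : ∀ θ, |Real.log ‖f θ‖| ≤ C1)
    (h3 : ∀ j θ, ‖lw f j θ - 2 * Real.pi * Complex.I * ((V j : ℝ) : ℂ)‖ ≤ δ) :
    LogB f C1 (δ + 2 * Real.pi * ∑ i, (V i : ℝ)) := by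
  refine ⟨h1, h2, fun j θ => ?_⟩
  have hpi := Real.pi_pos
  have h4 := norm_le_norm_add_norm_sub' (lw f j θ) (2 * Real.pi * Complex.I * ((V j : ℝ) : ℂ))
  have h5 : ‖(2 * Real.pi * Complex.I * ((V j : ℝ) : ℂ) : ℂ)‖ ≤ 2 * Real.pi * ∑ i, (V i : ℝ) := by
    rw [norm_mul, norm_two_pi_I, Complex.norm_real, Real.norm_natCast]
    exact mul_le_mul_of_nonneg_left (Finset.single_le_sum (f := fun i => (V i : ℝ))
      (fun i _ => Nat.cast_nonneg _) (Finset.mem_univ j)) (by positivity)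
  have h6 := h3 j θ
  linarith

/-- Tori over small tori in the charts of the `x`-space, on which the regulators of the symbols are
close to multiples of the determinants of the differences of the exponents. -/
theorem exists_torus_V {ι : Type*} [Finite ι] (σ : K →+* ℂ) {p : MvPolynomial (Fin (s + 1)) K}
    {b : ℕ} (hp : p.degreeOf 0 = b + 1) {H : MvPolynomial (Fin (s + 1) ⊕ Fin n) K} (hH : H ≠ 0)
    (hHd : H.degreeOf (Sum.inl 0) = b) (χ ρ : MvPolynomial (Fin n) K →ₐ[K] MvPolynomial (Fin n) K)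
    (hρ : ∀ q, ρ (χ q) = q) {φ : MvPolynomial (Fin n) K} (hφ : φ ≠ 0)
    (num den : ι → Fin n → MvPolynomial (Fin n) K) (Vn Vd : ι → Fin n → Fin n →₀ ℕ)
    (hn : ∀ i l, LexLead (χ (num i l)) (Vn i l)) (hd : ∀ i l, LexLead (χ (den i l)) (Vd i l))
    (u : (lam : K) → ι → Fin n → (LOpen p H (C lam * φ))ˣ)
    (hu : ∀ lam i l x (h : VPt σ (leqn p H (C lam * φ)) (ldel s (C lam * φ)) x),
      h.ev (u lam i l : LOpen p H (C lam * φ)) =
        eval₂ σ (fun j => x (Sum.inr j)) (num i l) *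
          (eval₂ σ (fun j => x (Sum.inr j)) (den i l))⁻¹)
    {ε : ℝ} (hε : 0 < ε) :
    ∃ Λ : ℝ, 1 < Λ ∧ ∀ lam : K, Λ ≤ ‖σ lam‖ →
      ∃ Γ : Torus (LOpen p H (C lam * φ)) (n + s),
        (∀ θ, ∃ (z : Fin (s + 1) → ℂ) (x : Fin n → ℂ),
          (∀ q, Γ.e θ (opol _ _ q) = eval₂ σ (Sum.elim z x) q) ∧
          eval₂ σ (Sum.elim z x) (pderiv (Sum.inl 0) (leqn p H (C lam * φ))) ≠ 0) ∧
        ∀ i, |Γ.reg (symb (lent p H (C lam * φ) (u lam i))) / Real.log ‖σ lam‖ -
          (2 * Real.pi) ^ (n + s) *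
            (Matrix.of fun l j => (Vn i l j : ℝ) - Vd i l j).det| ≤ ε := by
  classical
  cases nonempty_fintype ι
  have hpi := Real.pi_pos
  set pA : MvPolynomial (Fin (n + s)) K := cf χ (rename Sum.inl p) (b + 1) with hpA
  set pH : MvPolynomial (Fin (n + s)) K := cf χ H b with hpH
  set pF : MvPolynomial (Fin (n + s)) K := rename (Fin.castAdd s) (χ φ) with hpF
  have hp0 : p ≠ 0 := by
    intro h
    rw [h, degreeOf_zero] at hp
    omega
  have hA0 : pA ≠ 0 := cf_ne_zero hρ ((map_ne_zero_iff _ (rename_injective _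
    Sum.inl_injective)).2 hp0) ((degreeOf_rename_inl p).trans hp)
  have hH0 : pH ≠ 0 := cf_ne_zero hρ hH hHd
  have hχφ : χ φ ≠ 0 := fun h => hφ (by rw [← hρ φ, h, map_zero])
  have hF0 : pF ≠ 0 := (map_ne_zero_iff _ (rename_injective _ (Fin.castAdd_injective n s))).2 hχφ
  obtain ⟨VA, hVA⟩ := exists_lexLead hA0
  obtain ⟨VH, hVH⟩ := exists_lexLead hH0
  obtain ⟨VF, hVF⟩ := exists_lexLead hF0
  set om : Fin (n + s) → ℝ := fun j => (VF j : ℝ) + VH j - VA j with hom
  set RR : ι → Fin n → Fin n → ℝ := fun i l j => (Vn i l j : ℝ) - Vd i l j with hRR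
  choose δ hδ hclose using fun i => pairing_close (RG s om (RR i)) hε
  obtain ⟨δ0, hδ0, hδ0S⟩ : ∃ δ0 : ℝ, 0 < δ0 ∧ ∀ i, 5 * δ0 ≤ δ i := by
    by_cases hne : Nonempty ι
    · obtain ⟨S0, -, hS0⟩ := Finset.exists_min_image Finset.univ δ
        ⟨Classical.choice hne, Finset.mem_univ _⟩
      exact ⟨δ S0 / 5, by have := hδ S0; positivity, fun S => by
        have := hS0 S (Finset.mem_univ S)
        linarith⟩
    · exact ⟨1, one_pos, fun S => absurd ⟨S⟩ hne⟩
  -- the polynomials on the torus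
  set J := Fin 3 ⊕ (ι × Fin n × Bool) with hJ
  set A : J → MvPolynomial (Fin (n + s)) K := Sum.elim ![pA, pH, pF] fun e =>
    if e.2.2 then rename (Fin.castAdd s) (χ (num e.1 e.2.1))
    else rename (Fin.castAdd s) (χ (den e.1 e.2.1)) with hA
  set V : J → Fin (n + s) →₀ ℕ := Sum.elim ![VA, VH, VF] fun e =>
    if e.2.2 then (Vn e.1 e.2.1).mapDomain (Fin.castAdd s)
    else (Vd e.1 e.2.1).mapDomain (Fin.castAdd s) with hV
  have hAV : ∀ e, LexLead (A e) (V e) := by
    rintro (e | ⟨i, l, c⟩)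
    · fin_cases e
      · exact hVA
      · exact hVH
      · exact hVF
    · cases c
      · exact LexLead.rename (hd i l) s
      · exact LexLead.rename (hn i l) s
  obtain ⟨R, C1, hR, hlex⟩ := exists_lex_torus σ A V hAV hδ0
  set fA : (Fin (n + s) → ℝ) → ℂ := fun θ => eval₂ σ (tpt R θ) pA with hfA
  set fH : (Fin (n + s) → ℝ) → ℂ := fun θ => eval₂ σ (tpt R θ) pH with hfH
  set fF : (Fin (n + s) → ℝ) → ℂ := fun θ => eval₂ σ (tpt R θ) pF with hfF
  obtain ⟨gA, lA, wA⟩ : Good fA ∧ (∀ θ, |Real.log ‖fA θ‖| ≤ C1) ∧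
      ∀ j θ, ‖lw fA j θ - 2 * Real.pi * Complex.I * ((VA j : ℝ) : ℂ)‖ ≤ δ0 := hlex (Sum.inl 0)
  obtain ⟨gH, lH, wH⟩ : Good fH ∧ (∀ θ, |Real.log ‖fH θ‖| ≤ C1) ∧
      ∀ j θ, ‖lw fH j θ - 2 * Real.pi * Complex.I * ((VH j : ℝ) : ℂ)‖ ≤ δ0 := hlex (Sum.inl 1)
  obtain ⟨gF, lF, wF⟩ : Good fF ∧ (∀ θ, |Real.log ‖fF θ‖| ≤ C1) ∧
      ∀ j θ, ‖lw fF j θ - 2 * Real.pi * Complex.I * ((VF j : ℝ) : ℂ)‖ ≤ δ0 := hlex (Sum.inl 2)
  have hnum : ∀ i l, Good (fun θ => eval₂ σ (tpt R θ) (rename (Fin.castAdd s) (χ (num i l)))) ∧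
      (∀ θ, |Real.log ‖eval₂ σ (tpt R θ) (rename (Fin.castAdd s) (χ (num i l)))‖| ≤ C1) ∧
      ∀ j θ, ‖lw (fun θ => eval₂ σ (tpt R θ) (rename (Fin.castAdd s) (χ (num i l)))) j θ -
        2 * Real.pi * Complex.I * (((Vn i l).mapDomain (Fin.castAdd s) j : ℝ) : ℂ)‖ ≤ δ0 :=
    fun i l => hlex (Sum.inr (i, l, true))
  have hden : ∀ i l, Good (fun θ => eval₂ σ (tpt R θ) (rename (Fin.castAdd s) (χ (den i l)))) ∧
      (∀ θ, |Real.log ‖eval₂ σ (tpt R θ) (rename (Fin.castAdd s) (χ (den i l)))‖| ≤ C1) ∧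
      ∀ j θ, ‖lw (fun θ => eval₂ σ (tpt R θ) (rename (Fin.castAdd s) (χ (den i l)))) j θ -
        2 * Real.pi * Complex.I * (((Vd i l).mapDomain (Fin.castAdd s) j : ℝ) : ℂ)‖ ≤ δ0 :=
    fun i l => hlex (Sum.inr (i, l, false))
  have hC1 : 0 ≤ C1 := (abs_nonneg _).trans (lA 0)
  have hLA := logB_of gA lA wA
  have hLB := (logB_of gF lF wF).mul (logB_of gH lH wH)
  have hper : ∀ (q : MvPolynomial (Fin (n + s)) K) (θ : Fin (n + s) → ℝ) (i : Fin (n + s)),
      eval₂ σ (tpt R (θ + Pi.single i 1)) q = eval₂ σ (tpt R θ) q := fun q θ i => by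
    rw [tpt_add_single]
  obtain ⟨Λ, C2, hΛ, hC2, hz⟩ := exists_fib b hLA hLB (by positivity) (by positivity)
    (P := fun j θ => eval₂ σ (tpt R θ) (cf χ (rename Sum.inl p) j))
    (Q := fun j θ => eval₂ σ (tpt R θ) pF * eval₂ σ (tpt R θ) (cf χ H j))
    (fun j => bdd_eval σ hR _)
    (fun j => by
      obtain ⟨C, hC⟩ := bdd_eval σ hR pF
      obtain ⟨D, hD⟩ := bdd_eval σ hR (cf χ H j)
      exact ⟨_, hC.mul hD⟩)
    (fun θ i => hper _ θ i) (fun θ i => by rw [hfF, hfH]; simp only [hper])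
    (fun j θ i => hper _ θ i) (fun j θ i => by simp only [hper]) hδ0
  set CR : ℝ := ∑ i, |Real.log (R i)| with hCR
  have hCR0 : 0 ≤ CR := Finset.sum_nonneg fun i _ => abs_nonneg _
  set M : ℝ := (2 * C1 + C2 + CR + 1) / δ0 with hM
  refine ⟨Λ + Real.exp M, by linarith [Real.exp_pos M], fun lam hlam => ?_⟩
  have hexp := Real.exp_pos M
  have hln : 0 < ‖σ lam‖ := by linarith
  have hl0 : σ lam ≠ 0 := norm_pos_iff.1 hln
  set L : ℝ := Real.log ‖σ lam‖ with hL
  have hLM : M ≤ L := by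
    rw [hL, Real.le_log_iff_exp_le hln]
    linarith
  have hM0 : 0 < M := by positivity
  have hL0 : 0 < L := by linarith
  have hsmall : 2 * C1 + C2 + CR + 1 ≤ L * δ0 := by
    have h1 : (2 * C1 + C2 + CR + 1) / δ0 ≤ L := hLM
    rwa [div_le_iff₀ hδ0] at h1
  obtain ⟨z0, z1, z2, z3, z4, z5, z6⟩ := hz (σ lam) (by linarith)
  set x : (Fin (n + s) → ℝ) → (Fin (s + 1) ⊕ Fin n → ℂ) := fun θ => pt χ σ R (z0 θ) θ with hx
  have htpt : ∀ θ i, tpt R θ i ≠ 0 := fun θ i => (good_tpt hR i).ne_zero θ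
  have hPt : ∀ θ, VPt σ (leqn p H (C lam * φ)) (ldel s (C lam * φ)) (x θ) := by
    intro θ
    refine VPt.of_LPt ?_ ?_ ?_
    · rw [hx, eval_leqn_pt σ χ R hp hHd]
      exact z3 θ
    · have h1 := eval_pt_rename χ σ R (z0 θ) θ φ
      rw [eval₂_mul, eval₂_C]
      refine mul_ne_zero hl0 ?_
      rw [hx, h1]
      exact gF.ne_zero θ
    · intro i
      refine Fin.cases ?_ (fun i => ?_) i
      · exact z1.ne_zero θ
      · show pt χ σ R (z0 θ) θ (Sum.inl i.succ) ≠ 0
        rw [pt_succ]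
        exact htpt θ _
  have hxc : ∀ i, ContDiff ℝ 2 fun θ => x θ i := by
    rintro (i | j)
    · refine Fin.cases ?_ (fun i => ?_) i
      · exact z1.smooth
      · simp only [hx, pt_succ]
        exact (good_tpt hR _).smooth
    · simp only [hx, pt_inr]
      exact contDiff_eval₂ (fun i => (good_tpt hR i).smooth) _
  have hxp : ∀ θ i, x (θ + Pi.single i 1) = x θ := by
    intro θ l
    funext i
    rcases i with i | j
    · refine Fin.cases ?_ (fun i => ?_) i
      · exact z2 θ l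
      · simp only [hx, pt_succ, tpt_add_single]
    · simp only [hx, pt_inr, tpt_add_single]
  set Γ : Torus (LOpen p H (C lam * φ)) (n + s) := mkV x hxc hxp hPt with hΓ
  refine ⟨Γ, fun θ => ?_, fun i => ?_⟩
  · refine ⟨fun i => x θ (Sum.inl i), fun j => x θ (Sum.inr j), fun q => ?_, ?_⟩
    · have h1 : Sum.elim (fun i => x θ (Sum.inl i)) (fun j => x θ (Sum.inr j)) = x θ := by
        funext i
        rcases i with i | i <;> rfl
      rw [h1]
      exact (hPt θ).ev_opol q
    · have h1 : Sum.elim (fun i => x θ (Sum.inl i)) (fun j => x θ (Sum.inr j)) = x θ := by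
        funext i
        rcases i with i | i <;> rfl
      rw [h1, hx, eval_pderiv_pt σ χ R hp hHd]
      exact z4 θ
  · rw [Torus.reg_symb]
    have hfz : ∀ l, Γ.fn ((ou (leqn p H (C lam * φ)) (ldel s (C lam * φ))
        (X_dvd_ldel (C lam * φ) l) : (LOpen p H (C lam * φ))ˣ) : LOpen p H (C lam * φ)) =
        fun θ => x θ (Sum.inl l) := by
      intro l
      funext θ
      show (hPt θ).ev (opol _ _ (X (Sum.inl l))) = _
      rw [(hPt θ).ev_opol, eval₂_X]
    have hfu : ∀ l, Γ.fn (u lam i l : LOpen p H (C lam * φ)) = fun θ =>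
        eval₂ σ (tpt R θ) (rename (Fin.castAdd s) (χ (num i l))) *
          (eval₂ σ (tpt R θ) (rename (Fin.castAdd s) (χ (den i l))))⁻¹ := by
      intro l
      funext θ
      have h1 := hu lam i l _ (hPt θ)
      have h2 := eval_pt_rename χ σ R (z0 θ) θ (num i l)
      have h3 := eval_pt_rename χ σ R (z0 θ) θ (den i l)
      rw [← h2, ← h3]
      exact h1
    have hent0 : Γ.fn (lent p H (C lam * φ) (u lam i) 0 : LOpen p H (C lam * φ)) = z0 := hfz 0
    have hentu : ∀ l, Γ.fn (lent p H (C lam * φ) (u lam i)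
        (Fin.castAdd s l).succ : LOpen p H (C lam * φ)) = fun θ =>
        eval₂ σ (tpt R θ) (rename (Fin.castAdd s) (χ (num i l))) *
          (eval₂ σ (tpt R θ) (rename (Fin.castAdd s) (χ (den i l))))⁻¹ := by
      intro l
      have h1 := lent_iu (u lam i) l
      unfold iu at h1
      rw [h1]
      exact hfu l
    have hentz : ∀ l, Γ.fn (lent p H (C lam * φ) (u lam i)
        (Fin.natAdd n l).succ : LOpen p H (C lam * φ)) = fun θ => tpt R θ (Fin.natAdd n l) := by
      intro l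
      have h1 := lent_iz (u lam i) l.succ
      unfold iz at h1
      rw [Fin.cons_succ] at h1
      rw [h1, hfz l.succ]
      funext θ
      simp only [hx, pt_succ]
    rw [← det_RG s om (RR i)]
    have hδi := hδ0S i
    have hδL : 5 * δ0 * L ≤ δ i * L := mul_le_mul_of_nonneg_right hδi hL0.le
    refine hclose i _ _ hL0.ne' (fun l => Γ.good _) (fun l θ => ?_) (fun l j θ => ?_)
    · revert l
      refine Fin.cases ?_ (fun l => ?_)
      · rw [congrFun hent0 θ]
        have e : RG s om (RR i) 0 0 = 1 := rfl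
        rw [e]
        have h1 := z5 θ
        have h2 : Real.log ‖z0 θ‖ / L - 1 = (Real.log ‖z0 θ‖ - L) / L := by
          field_simp
        rw [h2, abs_div, abs_of_pos hL0, div_lt_iff₀ hL0]
        refine lt_of_le_of_lt h1 ?_
        nlinarith
      · refine Fin.addCases (fun l => ?_) (fun k => ?_) l
        · rw [congrFun (hentu l) θ, RG_row_u, Fin.cons_zero, sub_zero, abs_div, abs_of_pos hL0,
            div_lt_iff₀ hL0]
          have h1 := (hnum i l).1.ne_zero θ
          have h2 := (hden i l).1.ne_zero θ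
          have h3 := (hnum i l).2.1 θ
          have h4 := (hden i l).2.1 θ
          have h5 : |Real.log ‖eval₂ σ (tpt R θ) (rename (Fin.castAdd s) (χ (num i l))) *
              (eval₂ σ (tpt R θ) (rename (Fin.castAdd s) (χ (den i l))))⁻¹‖| ≤ 2 * C1 := by
            rw [norm_mul, norm_inv, Real.log_mul (norm_ne_zero_iff.2 h1)
              (inv_ne_zero (norm_ne_zero_iff.2 h2)), Real.log_inv]
            refine (abs_add_le _ _).trans ?_
            rw [abs_neg]
            linarith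
          refine lt_of_le_of_lt h5 ?_
          nlinarith
        · rw [congrFun (hentz k) θ, RG_row_y, Fin.cons_zero, sub_zero, abs_div, abs_of_pos hL0,
            div_lt_iff₀ hL0]
          have h0 : ‖tpt R θ (Fin.natAdd n k)‖ = R (Fin.natAdd n k) := norm_circ (hR _).le _
          rw [h0]
          have h1 := Finset.single_le_sum (f := fun i => |Real.log (R i)|)
            (fun i _ => abs_nonneg _) (Finset.mem_univ (Fin.natAdd n k))
          have h2 : |Real.log (R (Fin.natAdd n k))| ≤ CR := h1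
          refine lt_of_le_of_lt h2 ?_
          nlinarith
    · revert l
      refine Fin.cases ?_ (fun l => ?_)
      · rw [hent0, RG_row_z, Fin.cons_succ]
        have h1 := z6 j θ
        have h2 := wA j θ
        have h3 := wH j θ
        have h4 := wF j θ
        have h5 : lw (fun θ => fF θ * fH θ) j θ = lw fF j θ + lw fH j θ := lw_mul gF gH j θ
        rw [h5] at h1
        have h6 : lw z0 j θ - 2 * Real.pi * Complex.I * (om j : ℝ) =
            (lw z0 j θ - (lw fF j θ + lw fH j θ - lw fA j θ)) +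
            (lw fF j θ - 2 * Real.pi * Complex.I * ((VF j : ℝ) : ℂ)) +
            (lw fH j θ - 2 * Real.pi * Complex.I * ((VH j : ℝ) : ℂ)) -
            (lw fA j θ - 2 * Real.pi * Complex.I * ((VA j : ℝ) : ℂ)) := by
          rw [hom]
          push_cast
          ring
        rw [h6]
        refine lt_of_le_of_lt ((norm_sub_le _ _).trans (add_le_add ((norm_add_le _ _).trans
          (add_le_add ((norm_add_le _ _).trans (add_le_add h1 h4)) h3)) h2)) ?_
        linarith
      · refine Fin.addCases (fun l => ?_) (fun k => ?_) l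
        · rw [hentu l, RG_row_u, Fin.cons_succ]
          have h1 := (hnum i l).2.2 j θ
          have h2 := (hden i l).2.2 j θ
          have h3 : lw (fun θ => eval₂ σ (tpt R θ) (rename (Fin.castAdd s) (χ (num i l))) *
              (eval₂ σ (tpt R θ) (rename (Fin.castAdd s) (χ (den i l))))⁻¹) j θ =
              lw (fun θ => eval₂ σ (tpt R θ) (rename (Fin.castAdd s) (χ (num i l)))) j θ +
              -lw (fun θ => eval₂ σ (tpt R θ) (rename (Fin.castAdd s) (χ (den i l)))) j θ := by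
            rw [lw_mul (hnum i l).1 (good_inv (hden i l).1) j θ, lw_inv (hden i l).1]
          have h4 : (Fin.append (RR i l) (fun _ : Fin s => (0 : ℝ)) : _ → ℝ) j =
              ((Vn i l).mapDomain (Fin.castAdd s) j : ℝ) -
                ((Vd i l).mapDomain (Fin.castAdd s) j : ℝ) := by
            refine Fin.addCases (fun j => ?_) (fun k => ?_) j
            · rw [Fin.append_left, mapDomain_castAdd, mapDomain_castAdd]
            · rw [Fin.append_right, mapDomain_natAdd, mapDomain_natAdd, Nat.cast_zero, sub_zero]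
          rw [h3, h4]
          have h5 : lw (fun θ => eval₂ σ (tpt R θ) (rename (Fin.castAdd s) (χ (num i l)))) j θ +
              -lw (fun θ => eval₂ σ (tpt R θ) (rename (Fin.castAdd s) (χ (den i l)))) j θ -
              2 * Real.pi * Complex.I * ((((Vn i l).mapDomain (Fin.castAdd s) j : ℝ) -
                ((Vd i l).mapDomain (Fin.castAdd s) j : ℝ) : ℝ) : ℂ) =
              (lw (fun θ => eval₂ σ (tpt R θ) (rename (Fin.castAdd s) (χ (num i l)))) j θ -
                2 * Real.pi * Complex.I * (((Vn i l).mapDomain (Fin.castAdd s) j : ℝ) : ℂ)) -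
              (lw (fun θ => eval₂ σ (tpt R θ) (rename (Fin.castAdd s) (χ (den i l)))) j θ -
                2 * Real.pi * Complex.I * (((Vd i l).mapDomain (Fin.castAdd s) j : ℝ) : ℂ)) := by
            push_cast
            ring
          rw [h5]
          refine lt_of_le_of_lt ((norm_sub_le _ _).trans (add_le_add h1 h2)) ?_
          linarith
        · rw [hentz k, RG_row_y, Fin.cons_succ]
          have h1 : lw (fun θ => tpt R θ (Fin.natAdd n k)) j θ =
              if j = Fin.natAdd n k then 2 * Real.pi * Complex.I else 0 :=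
            lw_circ (hR _) (Fin.natAdd n k) j θ
          rw [h1]
          have h0 : ((if j = Fin.natAdd n k then 2 * Real.pi * Complex.I else 0) -
              2 * Real.pi * Complex.I * ((if j = Fin.natAdd n k then 1 else 0 : ℝ) : ℂ) : ℂ) =
              0 := by
            split_ifs <;> simp
          rw [h0, norm_zero]
          exact hδ i

end Pool.Agent.Q16.LS
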