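import Pool.Agent.Q16.LS.Torus
set_option autoImplicit false

/-!
Towers of graphs: the changes of the coordinates, and the tori in the hypersurfaces
`p(z) = λ ∏_j ∏_i (x_j - φ_{j,i}) ^ (w_{j,i} + 1) H(z, x)`.
-/

namespace Pool.Agent.Q16.LS

open MvPolynomial

open Pool.Agent.Q16.UF (LexLead exists_lexLead)

open Pool.Agent.TH826.MK

open Pool.Agent.TH826.SX (det_ne_zero_near)

section tri

variable {K : Type*} [Field K] {N : ℕ}

/-- The polynomials `x_j` with `x_j = t_j + φ_j(x_{j+1}, ..., x_n)`. -/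
theorem exists_tri (φ : Fin N → MvPolynomial (Fin N) K) (hφ : ∀ j, ∀ l ∈ (φ j).vars, j < l) :
    ∃ x : Fin N → MvPolynomial (Fin N) K, (∀ j, x j = X j + bind₁ x (φ j)) ∧
      ∀ j, ∀ l ∈ (x j).vars, j ≤ l := by
  classical
  have key : ∀ k : ℕ, k ≤ N → ∃ x : Fin N → MvPolynomial (Fin N) K,
      (∀ j : Fin N, N - k ≤ j → x j = X j + bind₁ x (φ j)) ∧
      ∀ j : Fin N, ∀ l ∈ (x j).vars, j ≤ l := by
    intro k
    induction k with
    | zero =>
      intro _
      exact ⟨0, fun j hj => absurd j.2 (by omega), fun j l hl => by simp at hl⟩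
    | succ k ih =>
      intro hk
      obtain ⟨x, h1, h2⟩ := ih (by omega)
      set j0 : Fin N := ⟨N - (k + 1), by omega⟩ with hj0
      set x' : Fin N → MvPolynomial (Fin N) K :=
        Function.update x j0 (X j0 + bind₁ x (φ j0)) with hx'
      have hcongr : ∀ j, j0 ≤ j → bind₁ x' (φ j) = bind₁ x (φ j) := by
        intro j hj
        refine MvPolynomial.eval₂Hom_congr' rfl (fun i hi _ => ?_) rfl
        have hne : i ≠ j0 := (hj.trans_lt (hφ j i hi)).ne'
        rw [hx', Function.update_of_ne hne]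
      refine ⟨x', fun j hj => ?_, fun j l hl => ?_⟩
      · by_cases he : j = j0
        · subst he
          rw [hcongr j0 le_rfl, hx', Function.update_self]
        · have hlt : j0 < j := by
            refine lt_of_le_of_ne ?_ (Ne.symm he)
            rw [Fin.le_def]
            exact hj
          rw [hcongr j hlt.le, hx', Function.update_of_ne he]
          refine h1 j ?_
          have h3 : (j0 : ℕ) < j := hlt
          have h4 : (j0 : ℕ) = N - (k + 1) := rfl
          omega
      · by_cases he : j = j0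
        · subst he
          rw [hx', Function.update_self] at hl
          have h3 := MvPolynomial.vars_add_subset _ _ hl
          rcases Finset.mem_union.1 h3 with h4 | h4
          · rw [MvPolynomial.vars_X, Finset.mem_singleton] at h4
            exact h4.ge
          · obtain ⟨i, hi, hi2⟩ := MvPolynomial.mem_vars_bind₁ _ _ h4
            exact ((hφ _ i hi).le).trans (h2 i l hi2)
        · rw [hx', Function.update_of_ne he] at hl
          exact h2 j l hl
  obtain ⟨x, h1, h2⟩ := key N le_rfl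
  exact ⟨x, fun j => h1 j (by omega), h2⟩

/-- The inverse of the substitution. -/
theorem tri_left_inv {φ x : Fin N → MvPolynomial (Fin N) K}
    (hφ : ∀ j, ∀ l ∈ (φ j).vars, j < l) (hx : ∀ j, x j = X j + bind₁ x (φ j))
    (p : MvPolynomial (Fin N) K) : bind₁ (fun j => X j - φ j) (bind₁ x p) = p := by
  set y : Fin N → MvPolynomial (Fin N) K := fun j => X j - φ j with hy
  have key : ∀ k : ℕ, ∀ j : Fin N, N - k ≤ j → bind₁ y (x j) = X j := by
    intro k
    induction k with
    | zero => exact fun j hj => absurd j.2 (by omega)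
    | succ k ih =>
      intro j hj
      rw [hx j, map_add, MvPolynomial.bind₁_X_right, MvPolynomial.bind₁_bind₁]
      have h1 : bind₁ (fun i => bind₁ y (x i)) (φ j) = φ j := by
        conv_rhs => rw [← MvPolynomial.aeval_X_left_apply (φ j)]
        refine MvPolynomial.eval₂Hom_congr' rfl (fun i hi _ => ?_) rfl
        refine ih i ?_
        have h2 : (j : ℕ) < i := hφ j i hi
        omega
      rw [h1]
      exact sub_add_cancel _ _
  rw [MvPolynomial.bind₁_bind₁]
  have h2 : (fun i => bind₁ y (x i)) = X := by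
    funext i
    exact key N i (by omega)
  rw [h2]
  exact MvPolynomial.aeval_X_left_apply p

theorem lexLead_X (j : Fin N) : LexLead (X j : MvPolynomial (Fin N) K) (Finsupp.single j 1) := by
  classical
  have h : (X j : MvPolynomial (Fin N) K).support = {Finsupp.single j 1} :=
    MvPolynomial.support_X
  refine ⟨by rw [h]; exact Finset.mem_singleton_self _, fun β hβ hne => ?_⟩
  rw [h, Finset.mem_singleton] at hβ
  exact absurd hβ hne

/-- If the polynomial has an exponent that vanishes for all `l ≤ j`, so does the smallest one. -/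
theorem LexLead.zero {F : MvPolynomial (Fin N) K} {α : Fin N →₀ ℕ} (h : LexLead F α)
    {β : Fin N →₀ ℕ} (hβ : β ∈ F.support) {j : Fin N} (h0 : ∀ l, l ≤ j → β l = 0) :
    ∀ l, l ≤ j → α l = 0 := by
  by_cases hne : β = α
  · rw [← hne]
    exact h0
  · obtain ⟨i, h1, h2⟩ := h.2 β hβ hne
    have hij : j < i := by
      by_contra hcon
      rw [h0 i (not_lt.1 hcon)] at h2
      exact absurd h2 (Nat.not_lt_zero _)
    intro l hl
    rw [← h1 l (hl.trans_lt hij)]
    exact h0 l hl

/-- The smallest exponent of `x_j + e`, where `e ≠ 0` contains only variables `x_l` with `l > j`. -/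
theorem exists_lexLead_add {j : Fin N} {e : MvPolynomial (Fin N) K} (he : e ≠ 0)
    (hv : ∀ l ∈ e.vars, j < l) : ∃ V, LexLead (X j + e) V ∧ ∀ l, l ≤ j → V l = 0 := by
  classical
  obtain ⟨β, hβ⟩ : e.support.Nonempty := by
    rw [Finset.nonempty_iff_ne_empty, Ne, MvPolynomial.support_eq_empty]
    exact he
  have h0 : ∀ l, l ≤ j → β l = 0 := by
    intro l hl
    by_contra hne
    have h1 : l ∈ e.vars := (mem_vars l).2 ⟨β, hβ, Finsupp.mem_support_iff.2 hne⟩
    exact absurd (hv l h1) (not_lt.2 hl)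
  have hβ' : β ∈ (X j + e).support := by
    rw [mem_support_iff, coeff_add, coeff_X', if_neg, zero_add]
    · exact mem_support_iff.1 hβ
    · intro h1
      have h2 := h0 j le_rfl
      rw [← h1, Finsupp.single_eq_same] at h2
      exact one_ne_zero h2
  have hne : X j + e ≠ 0 := by
    intro h
    rw [h] at hβ'
    simp at hβ'
  obtain ⟨V, hV⟩ := exists_lexLead hne
  exact ⟨V, hV, LexLead.zero hV hβ' h0⟩

end tri

section tower

variable {K : Type*} [Field K] {n : ℕ} {r : Fin n → ℕ}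
  {φ : (j : Fin n) → Fin (r j + 1) → MvPolynomial (Fin n) K}

/-- The change of coordinates for `t`. -/
theorem exists_chart (hv : ∀ j i, ∀ l ∈ (φ j i).vars, j < l)
    (hinj : ∀ j, Function.Injective (φ j)) (t : ∀ j, Fin (r j)) :
    ∃ (χ ρ : MvPolynomial (Fin n) K →ₐ[K] MvPolynomial (Fin n) K), (∀ q, ρ (χ q) = q) ∧
      ∀ j i, ∃ V : Fin n →₀ ℕ, LexLead (χ (X j - φ j i)) V ∧ (∀ l, l < j → V l = 0) ∧
        V j = if i = (t j).succ then 1 else 0 := by
  obtain ⟨x, hx, hx2⟩ := exists_tri (fun j => φ j (t j).succ) fun j => hv j _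
  have hinv : ∀ q, bind₁ (fun j => X j - φ j (t j).succ) (bind₁ x q) = q :=
    tri_left_inv (fun j => hv j _) hx
  refine ⟨bind₁ x, bind₁ fun j => X j - φ j (t j).succ, hinv, fun j i => ?_⟩
  have h1 : bind₁ x (X j - φ j i) = X j + bind₁ x (φ j (t j).succ - φ j i) := by
    rw [map_sub, map_sub, bind₁_X_right, hx j]
    ring
  by_cases hi : i = (t j).succ
  · refine ⟨Finsupp.single j 1, ?_, fun l hl => ?_, ?_⟩
    · rw [h1, hi, sub_self, map_zero, add_zero]
      exact lexLead_X j
    · rw [Finsupp.single_apply, if_neg hl.ne']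
    · rw [Finsupp.single_eq_same, if_pos hi]
  · have hne : bind₁ x (φ j (t j).succ - φ j i) ≠ 0 := by
      intro h
      have h2 := hinv (φ j (t j).succ - φ j i)
      rw [h, map_zero] at h2
      exact hi (hinj j (sub_eq_zero.1 h2.symm)).symm
    have hvars : ∀ l ∈ (bind₁ x (φ j (t j).succ - φ j i)).vars, j < l := by
      classical
      intro l hl
      obtain ⟨m, hm, hm2⟩ := MvPolynomial.mem_vars_bind₁ _ _ hl
      have h3 : j < m := by
        rcases Finset.mem_union.1 (vars_sub_subset _ hm) with h4 | h4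
        · exact hv j _ m h4
        · exact hv j _ m h4
      exact h3.trans_le (hx2 m l hm2)
    obtain ⟨V, hV, hV0⟩ := exists_lexLead_add hne hvars
    refine ⟨V, ?_, fun l hl => hV0 l hl.le, ?_⟩
    · rw [h1]
      exact hV
    · rw [if_neg hi]
      exact hV0 j le_rfl

theorem tprod_ne_zero (hv : ∀ j i, ∀ l ∈ (φ j i).vars, j < l) (w : (j : Fin n) → Fin (r j + 1) → ℕ) :
    ∏ j, ∏ i, (X j - φ j i) ^ (w j i + 1) ≠ (0 : MvPolynomial (Fin n) K) := by
  classical
  refine Finset.prod_ne_zero_iff.2 fun j _ => Finset.prod_ne_zero_iff.2 fun i _ =>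
    pow_ne_zero _ fun h => ?_
  have h1 := congrArg (coeff (Finsupp.single j 1)) h
  rw [coeff_sub, coeff_X, coeff_zero, sub_eq_zero] at h1
  have h2 : Finsupp.single j 1 ∈ (φ j i).support := mem_support_iff.2 (by
    rw [← h1, if_pos rfl]
    exact one_ne_zero)
  have h3 : j ∈ (φ j i).vars := (mem_vars j).2 ⟨_, h2, by simp⟩
  exact lt_irrefl _ (hv j i j h3)

theorem det_chart {V : (j : Fin n) → Fin (r j + 1) → Fin n →₀ ℕ} {t : ∀ j, Fin (r j)}
    (h1 : ∀ j i, ∀ l, l < j → V j i l = 0) (h2 : ∀ j i, V j i j = if i = (t j).succ then 1 else 0)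
    (k : ∀ j, Fin (r j)) :
    (Matrix.of fun l j : Fin n => (V l (k l).succ j : ℝ) - V l 0 j).det =
      if t = k then 1 else 0 := by
  classical
  rw [Matrix.det_of_isUpperTriangular]
  · simp only [Matrix.of_apply, h2]
    by_cases h : t = k
    · subst h
      rw [if_pos rfl]
      refine Finset.prod_eq_one fun j _ => ?_
      rw [if_pos rfl, if_neg (Fin.succ_ne_zero _).symm]
      norm_num
    · rw [if_neg h]
      obtain ⟨j, hj⟩ := Function.ne_iff.1 h
      refine Finset.prod_eq_zero (Finset.mem_univ j) ?_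
      rw [if_neg fun e => hj (Fin.succ_injective _ e).symm, if_neg (Fin.succ_ne_zero _).symm]
      norm_num
  · intro i j hij
    have hij' : j < i := hij
    rw [Matrix.of_apply, h1 _ _ _ hij', h1 _ _ _ hij', sub_self]

variable {s : ℕ}

/-- The tori and the regulators of the symbols. -/
theorem exists_tori_tower (σ : K →+* ℂ) {p : MvPolynomial (Fin (s + 1)) K} {b : ℕ}
    (hp : p.degreeOf 0 = b + 1) {H : MvPolynomial (Fin (s + 1) ⊕ Fin n) K} (hH : H ≠ 0)
    (hHd : H.degreeOf (Sum.inl 0) = b) (hv : ∀ j i, ∀ l ∈ (φ j i).vars, j < l)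
    (hinj : ∀ j, Function.Injective (φ j)) (w : (j : Fin n) → Fin (r j + 1) → ℕ) :
    ∃ C : ℝ, 1 ≤ C ∧ ∀ lam : K, C ≤ ‖σ lam‖ →
      ∃ Γ : (∀ j, Fin (r j)) → Torus (LOpen p H (tPhi r φ w lam)) (n + s),
        (∀ t θ, ∃ (z : Fin (s + 1) → ℂ) (x : Fin n → ℂ),
          (∀ q, (Γ t).e θ (opol _ _ q) = eval₂ σ (Sum.elim z x) q) ∧
          eval₂ σ (Sum.elim z x) (pderiv (Sum.inl 0) (leqn p H (tPhi r φ w lam))) ≠ 0) ∧
        (Matrix.of fun t k : ∀ j, Fin (r j) =>
          (Γ t).reg (symb (tsym r φ w lam p H k))).det ≠ 0 := by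
  classical
  choose χ ρ hρ hχ using exists_chart hv hinj
  choose V hV1 hV2 hV3 using hχ
  set D0 : ℝ := (2 * Real.pi) ^ (n + s) with hD0
  have hD : D0 ≠ 0 := by
    have := Real.pi_pos
    positivity
  set R : Matrix (∀ j, Fin (r j)) (∀ j, Fin (r j)) ℝ := Matrix.of fun t k =>
    (Matrix.of fun l j : Fin n => (V t l (k l).succ j : ℝ) - V t l 0 j).det with hR
  have hR1 : R = 1 := by
    ext t k
    rw [hR, Matrix.of_apply, det_chart (hV2 t) (hV3 t), Matrix.one_apply]
  have hlead : (D0 • R).det ≠ 0 := by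
    rw [Matrix.det_smul, hR1, Matrix.det_one, mul_one]
    exact pow_ne_zero _ hD
  obtain ⟨δ, hδ, hdet'⟩ := det_ne_zero_near _ hlead
  have hu : ∀ (lam : K) (k : ∀ j, Fin (r j)) (l : Fin n) (x : Fin (s + 1) ⊕ Fin n → ℂ)
      (h : VPt σ (leqn p H (tPhi r φ w lam)) (ldel s (tPhi r φ w lam)) x),
      h.ev (tu r φ w lam p H k l : LOpen p H (tPhi r φ w lam)) =
        eval₂ σ (fun j => x (Sum.inr j)) (X l - φ l (k l).succ) *
          (eval₂ σ (fun j => x (Sum.inr j)) (X l - φ l 0))⁻¹ := by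
    intro lam k l x h
    set Ou : (i : Fin (r l + 1)) → (LOpen p H (tPhi r φ w lam))ˣ := fun i =>
      ou (leqn p H (tPhi r φ w lam)) (ldel s (tPhi r φ w lam))
        (rename_dvd_ldel _ (fac_dvd_tPhi r φ w lam l i)) with hOu
    have h2 : ∀ i, h.ev (Ou i : LOpen p H (tPhi r φ w lam)) =
        eval₂ σ (fun j => x (Sum.inr j)) (X l - φ l i) := by
      intro i
      show h.ev (opol _ _ (rename Sum.inr (X l - φ l i))) = _
      rw [h.ev_opol, eval₂_rename]
      rfl
    have h3 : ((Ou (k l).succ / Ou 0 : (LOpen p H (tPhi r φ w lam))ˣ) :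
        LOpen p H (tPhi r φ w lam)) * (Ou 0 : LOpen p H (tPhi r φ w lam)) =
        (Ou (k l).succ : LOpen p H (tPhi r φ w lam)) := by
      rw [← Units.val_mul, div_mul_cancel]
    have h4 := congrArg h.ev h3
    rw [map_mul, h2, h2] at h4
    have h5 : eval₂ σ (fun j => x (Sum.inr j)) (X l - φ l 0) ≠ 0 := by
      rw [← h2]
      exact ((Ou 0).isUnit.map h.ev).ne_zero
    rw [← div_eq_mul_inv]
    exact eq_div_of_mul_eq h5 h4
  have key : ∀ t : ∀ j, Fin (r j), ∃ Λ : ℝ, 1 < Λ ∧ ∀ lam : K, Λ ≤ ‖σ lam‖ →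
      ∃ Γ : Torus (LOpen p H (tPhi r φ w lam)) (n + s),
        (∀ θ, ∃ (z : Fin (s + 1) → ℂ) (x : Fin n → ℂ),
          (∀ q, Γ.e θ (opol _ _ q) = eval₂ σ (Sum.elim z x) q) ∧
          eval₂ σ (Sum.elim z x) (pderiv (Sum.inl 0) (leqn p H (tPhi r φ w lam))) ≠ 0) ∧
        ∀ k, |Γ.reg (symb (tsym r φ w lam p H k)) / Real.log ‖σ lam‖ - (2 * Real.pi) ^ (n + s) *
            (Matrix.of fun l j : Fin n => (V t l (k l).succ j : ℝ) - V t l 0 j).det| ≤ δ / 2 :=
    fun t => exists_torus_V (ι := ∀ j, Fin (r j)) σ hp hH hHd (χ t) (ρ t)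
      (hρ t) (tprod_ne_zero hv w) (fun k l => X l - φ l (k l).succ) (fun _ l => X l - φ l 0)
      (fun k l => V t l (k l).succ) (fun _ l => V t l 0) (fun k l => hV1 t l _)
      (fun k l => hV1 t l _) (fun lam k => tu r φ w lam p H k) hu (ε := δ / 2) (by linarith)
  choose Λ hΛ1 hΛ using key
  set C : ℝ := ∑ t, |Λ t| + 2 with hC
  have hsum : 0 ≤ ∑ t, |Λ t| := Finset.sum_nonneg fun J _ => abs_nonneg _
  have hΛC : ∀ t, Λ t ≤ C := by
    intro t
    have h1 := Finset.single_le_sum (f := fun t => |Λ t|) (fun t _ => abs_nonneg _)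
      (Finset.mem_univ t)
    have h2 := le_abs_self (Λ t)
    have h3 : |Λ t| ≤ ∑ t, |Λ t| := h1
    linarith
  refine ⟨C, by linarith, fun lam hlam => ?_⟩
  choose Γ hΓ1 hΓ2 using fun t => hΛ t lam ((hΛC t).trans hlam)
  refine ⟨Γ, hΓ1, ?_⟩
  have hs : Real.log ‖σ lam‖ ≠ 0 := by
    have : 0 < Real.log ‖σ lam‖ := Real.log_pos (by linarith)
    linarith
  set L : ℝ := Real.log ‖σ lam‖ with hL
  have h1 : (Matrix.of fun t k : ∀ j, Fin (r j) =>
      (Γ t).reg (symb (tsym r φ w lam p H k)) / L).det ≠ 0 := by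
    refine hdet' _ fun t i => ?_
    rw [Matrix.of_apply, Matrix.smul_apply, hR, Matrix.of_apply, smul_eq_mul]
    exact lt_of_le_of_lt (hΓ2 t i) (show δ / 2 < δ by linarith)
  have h2 : (Matrix.of fun t k : ∀ j, Fin (r j) =>
      (Γ t).reg (symb (tsym r φ w lam p H k))) =
      L • (Matrix.of fun t k : ∀ j, Fin (r j) =>
        (Γ t).reg (symb (tsym r φ w lam p H k)) / L) := by
    ext t i
    rw [Matrix.smul_apply, Matrix.of_apply, Matrix.of_apply, smul_eq_mul]
    field_simp
  rw [h2, Matrix.det_smul]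
  exact mul_ne_zero (pow_ne_zero _ hs) h1

end tower

end Pool.Agent.Q16.LS
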