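import Pool.Agent.Q16.LS.Fun
import Pool.Agent.Q16.LS.PUnram
set_option autoImplicit false

/-!
Tori in the hypersurfaces `D(x) p(z) = λ φ(x) H(z, x)` over a number field, and the regulators of
the symbols `{z_0, u_1, ..., u_n, z_1, ..., z_s}`.
-/

namespace Pool.Agent.Q16.LS

open MvPolynomial

open Pool.Agent.Q16.BF (iu iz)

open Pool.Agent.Q16.UF (LexLead good_tpt)

open Pool.Agent.TH826.MK

variable {K : Type*} [Field K] {s n : ℕ}

theorem VPt.of_W {σ : K →+* ℂ} {p : MvPolynomial (Fin (s + 1)) K}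
    {H : MvPolynomial (Fin (s + 1) ⊕ Fin n) K} {D Φ : MvPolynomial (Fin n) K}
    {x : Fin (s + 1) ⊕ Fin n → ℂ} (h1 : eval₂ σ x (weqn p H D Φ) = 0)
    (h2 : eval₂ σ (fun j => x (Sum.inr j)) D ≠ 0) (h2' : eval₂ σ (fun j => x (Sum.inr j)) Φ ≠ 0)
    (h3 : ∀ i, x (Sum.inl i) ≠ 0) : VPt σ (weqn p H D Φ) (ldel s (D * Φ)) x := by
  refine ⟨h1, ?_⟩
  unfold ldel
  rw [eval₂_mul, eval₂_rename, ← coe_eval₂Hom, ← coe_eval₂Hom, map_prod, map_mul]
  simp only [coe_eval₂Hom, eval₂_X]
  exact mul_ne_zero (mul_ne_zero h2 h2') (Finset.prod_ne_zero_iff.2 fun i _ => h3 i)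

theorem eval₂_eq_ic (σ : K →+* ℂ) {ι : Type*} (x : ι → ℂ) (q : MvPolynomial ι K) :
    eval₂ σ x q = eval₂ ic x (map σ q) := by
  rw [eval₂_map]
  rfl

theorem degreeOf_map_inj (σ : K →+* ℂ) {ι : Type*} (i : ι) (q : MvPolynomial ι K) :
    (map σ q).degreeOf i = q.degreeOf i := by
  classical
  rw [degreeOf_eq_sup, degreeOf_eq_sup, support_map_of_injective q σ.injective]

theorem map_weqn (σ : K →+* ℂ) (p : MvPolynomial (Fin (s + 1)) K)
    (H : MvPolynomial (Fin (s + 1) ⊕ Fin n) K) (D φ : MvPolynomial (Fin n) K) (lam : K) :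
    map σ (weqn p H D (C lam * φ)) =
      weqn (map σ p) (map σ H) (map σ D) (C (σ lam) * map σ φ) := by
  unfold weqn
  rw [map_sub, map_mul, map_mul, map_rename, map_rename, map_rename, map_mul, map_C]

/-- Tori over small tori in the charts of the `x`-space, on which the regulators of the symbols are
close to multiples of the determinants of the differences of the exponents. -/
theorem exists_torus_W {ι : Type*} [Finite ι] (σ : K →+* ℂ) {p : MvPolynomial (Fin (s + 1)) K}
    {b : ℕ} (hp : p.degreeOf 0 = b + 1) {H : MvPolynomial (Fin (s + 1) ⊕ Fin n) K} (hH : H ≠ 0)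
    (hHd : H.degreeOf (Sum.inl 0) = b) (χ ρ : MvPolynomial (Fin n) ℂ →ₐ[ℂ] MvPolynomial (Fin n) ℂ)
    (hρ : ∀ q, ρ (χ q) = q) {φ D : MvPolynomial (Fin n) K} (hφ : φ ≠ 0) (hD : D ≠ 0)
    (num den : ι → Fin n → MvPolynomial (Fin n) K) (Vn Vd : ι → Fin n → Fin n →₀ ℕ)
    (hn : ∀ i l, LexLead (χ (map σ (num i l))) (Vn i l))
    (hd : ∀ i l, LexLead (χ (map σ (den i l))) (Vd i l))
    (u : (lam : K) → ι → Fin n → (WOpen p H D (C lam * φ))ˣ)
    (hu : ∀ (lam : K) (i : ι) (l : Fin n) (x : Fin (s + 1) ⊕ Fin n → ℂ)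
      (h : VPt σ (weqn p H D (C lam * φ)) (ldel s (D * (C lam * φ))) x),
      h.ev (u lam i l : WOpen p H D (C lam * φ)) =
        eval₂ σ (fun j => x (Sum.inr j)) (num i l) *
          (eval₂ σ (fun j => x (Sum.inr j)) (den i l))⁻¹) {ε : ℝ} (hε : 0 < ε) :
    ∃ Λ : ℝ, 1 < Λ ∧ ∀ lam : K, Λ ≤ ‖σ lam‖ →
      ∃ Γ : Torus (WOpen p H D (C lam * φ)) (n + s),
        (∀ θ, ∃ (z : Fin (s + 1) → ℂ) (x : Fin n → ℂ),
          (∀ q, Γ.e θ (opol _ _ q) = eval₂ σ (Sum.elim z x) q) ∧
          eval₂ σ (Sum.elim z x) (pderiv (Sum.inl 0) (weqn p H D (C lam * φ))) ≠ 0) ∧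
        ∀ i, |Γ.reg (symb (went p H D (C lam * φ) (u lam i))) / Real.log ‖σ lam‖ -
          (2 * Real.pi) ^ (n + s) *
            (Matrix.of fun l j => (Vn i l j : ℝ) - Vd i l j).det| ≤ ε := by
  have hinj : Function.Injective σ := σ.injective
  have hp' : (map σ p).degreeOf 0 = b + 1 := by rw [degreeOf_map_inj, hp]
  have hHd' : (map σ H).degreeOf (Sum.inl 0) = b := by rw [degreeOf_map_inj, hHd]
  have hH' : map σ H ≠ 0 := (map_ne_zero_iff _ (map_injective σ hinj)).2 hH
  have hφ' : map σ φ ≠ 0 := (map_ne_zero_iff _ (map_injective σ hinj)).2 hφ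
  have hD' : map σ D ≠ 0 := (map_ne_zero_iff _ (map_injective σ hinj)).2 hD
  obtain ⟨R, Λ, C0, hR, hΛ, hC0, -, -, hz⟩ := exists_fun (κ := Fin 0) hp' hH' hHd' χ ρ hρ hφ' hD'
    (fun i l => map σ (num i l)) (fun i l => map σ (den i l)) Vn Vd hn hd
    (fun e => e.elim0) (fun e => e.elim0) (fun e => e.elim0) hε one_pos
  refine ⟨Λ, hΛ, fun lam hlam => ?_⟩
  have hl0 : σ lam ≠ 0 := by
    intro h0
    rw [h0, norm_zero] at hlam
    linarith
  obtain ⟨z0, z1, z2, z3, z4, -, -, -, z7⟩ := hz (σ lam) hlam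
  set x : (Fin (n + s) → ℝ) → (Fin (s + 1) ⊕ Fin n → ℂ) := fun θ => pt χ ic R (z0 θ) θ with hx
  have htpt : ∀ θ i, tpt R θ i ≠ 0 := fun θ i => (good_tpt hR i).ne_zero θ
  have hren : ∀ θ (q : MvPolynomial (Fin n) K), eval₂ σ (fun j => x θ (Sum.inr j)) q =
      eval₂ ic (tpt R θ) (rename (Fin.castAdd s) (χ (map σ q))) := by
    intro θ q
    rw [eval₂_eq_ic, hx]
    exact eval_pt_rename χ ic R (z0 θ) θ (map σ q)
  have hPt : ∀ θ, VPt σ (weqn p H D (C lam * φ)) (ldel s (D * (C lam * φ))) (x θ) := by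
    intro θ
    refine VPt.of_W ?_ ?_ ?_ ?_
    · rw [eval₂_eq_ic, map_weqn]
      exact (z3 θ).1
    · rw [hren]
      exact (z4 θ).2
    · rw [eval₂_mul, eval₂_C, hren]
      exact mul_ne_zero hl0 (z4 θ).1
    · intro i
      refine Fin.cases ?_ (fun i => ?_) i
      · exact z1.ne_zero θ
      · show pt χ ic R (z0 θ) θ (Sum.inl i.succ) ≠ 0
        rw [pt_succ]
        exact htpt θ _
  have hxc : ∀ i, ContDiff ℝ 2 fun θ => x θ i := by
    rintro (i | j)
    · refine Fin.cases ?_ (fun i => ?_) i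
      · exact z1.smooth
      · simp only [hx, pt_succ]
        exact (good_tpt hR _).smooth
    · simp only [hx, pt_inr]
      exact contDiff_eval₂ (fun i => (good_tpt hR i).smooth) _
  have hxp : ∀ θ i, x (θ + Pi.single i 1) = x θ := by
    intro θ l
    funext i
    rcases i with i | j
    · refine Fin.cases ?_ (fun i => ?_) i
      · exact z2 θ l
      · simp only [hx, pt_succ, tpt_add_single]
    · simp only [hx, pt_inr, tpt_add_single]
  set Γ : Torus (WOpen p H D (C lam * φ)) (n + s) := mkV x hxc hxp hPt with hΓ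
  have helim : ∀ θ, Sum.elim (fun i => x θ (Sum.inl i)) (fun j => x θ (Sum.inr j)) = x θ := by
    intro θ
    funext i
    rcases i with i | i <;> rfl
  refine ⟨Γ, fun θ => ?_, fun i => ?_⟩
  · refine ⟨fun i => x θ (Sum.inl i), fun j => x θ (Sum.inr j), fun q => ?_, ?_⟩
    · rw [helim]
      exact (hPt θ).ev_opol q
    · rw [helim, eval₂_eq_ic, ← pderiv_map, map_weqn]
      exact (z3 θ).2
  · rw [Torus.reg_symb]
    have hfz : ∀ l, Γ.fn ((ou (weqn p H D (C lam * φ)) (ldel s (D * (C lam * φ)))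
        (X_dvd_ldel (D * (C lam * φ)) l) : (WOpen p H D (C lam * φ))ˣ) :
        WOpen p H D (C lam * φ)) = fun θ => x θ (Sum.inl l) := by
      intro l
      funext θ
      show (hPt θ).ev (opol _ _ (X (Sum.inl l))) = _
      rw [(hPt θ).ev_opol, eval₂_X]
    have hfu : ∀ l, Γ.fn (u lam i l : WOpen p H D (C lam * φ)) = fun θ =>
        eval₂ ic (tpt R θ) (rename (Fin.castAdd s) (χ (map σ (num i l)))) *
          (eval₂ ic (tpt R θ) (rename (Fin.castAdd s) (χ (map σ (den i l)))))⁻¹ := by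
      intro l
      funext θ
      have h1 := hu lam i l _ (hPt θ)
      rw [hren, hren] at h1
      exact h1
    have hfn : (fun l => Γ.fn (went p H D (C lam * φ) (u lam i) l : WOpen p H D (C lam * φ))) =
        tfn χ R (fun l => map σ (num i l)) (fun l => map σ (den i l)) z0 := by
      funext l
      refine Fin.cases ?_ (fun l => ?_) l
      · exact hfz 0
      · refine Fin.addCases (fun l => ?_) (fun l => ?_) l
        · have h1 := went_iu (u lam i) l
          unfold iu at h1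
          rw [h1]
          unfold tfn
          rw [Fin.cons_succ, Fin.append_left]
          exact hfu l
        · have h1 := went_iz (u lam i) l.succ
          unfold iz at h1
          rw [Fin.cons_succ] at h1
          rw [h1, hfz l.succ]
          unfold tfn
          rw [Fin.cons_succ, Fin.append_right]
          funext θ
          simp only [hx, pt_succ]
    have h8 := z7 i
    rw [← hfn] at h8
    exact h8

end Pool.Agent.Q16.LS
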